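import Mathlib

set_option autoImplicit false

/-!
# Seeds, the rectangles seed of the Grassmannian, and tame friezes: the definitions
-/

namespace Pool.Agent.H489R3

open Finset

/-! ### Seeds and mutation (geometric type, skew-symmetric) -/

/-- A labelled seed in the field `K`: a family of cluster and frozen variables `x` indexed by `I`
and an exchange matrix `B` (`B i j` is the number of arrows `i → j` minus the number of
arrows `j → i`). -/
@[ext]
structure Seed (I : Type*) (K : Type*) where
  /-- the variables -/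
  x : I → K
  /-- the exchange matrix -/
  B : I → I → ℤ

/-- Matrix mutation in direction `k`. -/
def mutMat {I : Type*} [DecidableEq I] (k : I) (B : I → I → ℤ) : I → I → ℤ := fun i j =>
  if i = k ∨ j = k then -B i j
  else B i j + (max (B i k) 0 * max (B k j) 0 - max (-B i k) 0 * max (-B k j) 0)

/-- The right-hand side of the exchange relation in direction `k`. -/
def exch {I : Type*} [Fintype I] {K : Type*} [CommSemiring K] (B : I → I → ℤ) (x : I → K) (k : I) :
    K :=
  ∏ i, x i ^ (B i k).toNat + ∏ i, x i ^ (-B i k).toNat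

/-- Seed mutation in direction `k`. -/
def Seed.mutate {I : Type*} [Fintype I] [DecidableEq I] {K : Type*} [Field K] (k : I)
    (s : Seed I K) : Seed I K :=
  ⟨Function.update s.x k (exch s.B s.x k / s.x k), mutMat k s.B⟩

/-- `Reach N s₀ s`: the seed `s` is obtained from `s₀` by finitely many mutations in directions
belonging to `N`. -/
inductive Reach {I : Type*} [Fintype I] [DecidableEq I] {K : Type*} [Field K] (N : Set I)
    (s₀ : Seed I K) : Seed I K → Prop
  | refl : Reach N s₀ s₀
  | step {s : Seed I K} {k : I} : Reach N s₀ s → k ∈ N → Reach N s₀ (s.mutate k)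

/-! ### Plücker coordinates -/

/-- The generic `k × n` matrix. -/
noncomputable def gen (k n : ℕ) : Matrix (Fin k) (Fin n) (MvPolynomial (Fin k × Fin n) ℤ) :=
  Matrix.of fun i j => MvPolynomial.X (i, j)

/-- The Plücker coordinate of the `k`-subset `S`: the maximal minor of the generic matrix on the
columns in `S`, taken in increasing order. -/
noncomputable def plucker (k n : ℕ) (S : Finset (Fin n)) : MvPolynomial (Fin k × Fin n) ℤ :=
  if h : S.card = k then ((gen k n).submatrix id (S.orderEmbOfFin h)).det else 0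

/-- The field of rational functions in the entries of the generic `k × (k + m)` matrix. -/
abbrev RatFun (k m : ℕ) := FractionRing (MvPolynomial (Fin k × Fin (k + m)) ℤ)

/-- Evaluation of polynomials in the entries of the generic matrix at a rational matrix. -/
noncomputable def evalAt {k n : ℕ} (A : Matrix (Fin k) (Fin n) ℚ) :
    MvPolynomial (Fin k × Fin n) ℤ →+* ℚ :=
  MvPolynomial.eval₂Hom (Int.castRingHom ℚ) fun p => A p.1 p.2

/-- The rational function `z` has the value `c` at the matrix `A`: it is a quotient `f / g` of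
polynomials in the entries of the generic matrix with `g (A) ≠ 0` and `c = f (A) / g (A)`. -/
def HasValue {k m : ℕ} (A : Matrix (Fin k) (Fin (k + m)) ℚ) (z : RatFun k m) (c : ℚ) : Prop :=
  ∃ f g : MvPolynomial (Fin k × Fin (k + m)) ℤ, evalAt A g ≠ 0 ∧
    z * algebraMap _ (RatFun k m) g = algebraMap _ (RatFun k m) f ∧
    c * evalAt A g = evalAt A f

/-! ### The rectangles seed of `Gr(k, k + m)` -/

/-- The `k`-subset attached to the `a × b` rectangle (`0 ≤ a ≤ k`, `0 ≤ b ≤ m`); with columns
numbered `0, …, k + m - 1` it is `{0, …, k - a - 1} ∪ {k - a + b, …, k + b - 1}`. -/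
def rect (k m a b : ℕ) : Finset (Fin (k + m)) :=
  univ.filter fun j => (j : ℕ) < k - a ∨ (k - a + b ≤ (j : ℕ) ∧ (j : ℕ) < k + b)

/-- The vertices of the rectangles quiver: the empty rectangle `none`, and `some (a, b)` for the
`(a + 1) × (b + 1)` rectangle. -/
abbrev Vtx (k m : ℕ) := Option (Fin k × Fin m)

/-- The `k`-subset attached to a vertex. -/
def vset (k m : ℕ) (v : Vtx k m) : Finset (Fin (k + m)) :=
  v.elim (rect k m 0 0) fun p => rect k m ((p.1 : ℕ) + 1) ((p.2 : ℕ) + 1)

/-- The arrows of the rectangles quiver: `∅ → 1 × 1`, `a × b → a × (b + 1)`,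
`a × b → (a + 1) × b` and `(a + 1) × (b + 1) → a × b`. -/
def arrow {k m : ℕ} (u v : Vtx k m) : Prop :=
  (∃ a' b', u = none ∧ v = some (a', b') ∧ (a' : ℕ) = 0 ∧ (b' : ℕ) = 0) ∨
    ∃ a b a' b', u = some (a, b) ∧ v = some (a', b') ∧
      (((a' : ℕ) = a ∧ (b' : ℕ) = b + 1) ∨ ((a' : ℕ) = a + 1 ∧ (b' : ℕ) = b) ∨
        ((a : ℕ) = a' + 1 ∧ (b : ℕ) = b' + 1))

/-- The exchange matrix of the rectangles quiver. -/
noncomputable def rectB (k m : ℕ) (u v : Vtx k m) : ℤ := by
  classical exact (if arrow u v then 1 else 0) - (if arrow v u then 1 else 0)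

/-- The mutable vertices: the `a × b` rectangles with `1 ≤ a < k` and `1 ≤ b < m`. -/
def mutable (k m : ℕ) : Set (Vtx k m) :=
  {v | ∃ a b, v = some (a, b) ∧ (a : ℕ) + 1 < k ∧ (b : ℕ) + 1 < m}

/-- The rectangles seed of the Grassmannian `Gr(k, k + m)`. -/
noncomputable def rectSeed (k m : ℕ) : Seed (Vtx k m) (RatFun k m) :=
  ⟨fun v => algebraMap (MvPolynomial (Fin k × Fin (k + m)) ℤ) (RatFun k m)
    (plucker k (k + m) (vset k m v)), rectB k m⟩

/-! ### Friezes -/

/-- A tame `SL_k`-frieze of width `w`: a bi-infinite rational matrix all of whose adjacent minors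
of order `k` are `1` and of order `k + 1` are `0`, with `m i j = 1` for `j - i ∈ {-1, w}` and
`m i j = 0` for `j - i ∈ {-k, …, -2} ∪ {w + 1, …, w + k - 1}`. -/
structure IsTameFrieze (k w : ℕ) (M : ℤ → ℤ → ℚ) : Prop where
  minor_one : ∀ i j : ℤ,
    (Matrix.of fun a b : Fin k => M (i + ((a : ℕ) : ℤ)) (j + ((b : ℕ) : ℤ))).det = 1
  minor_zero : ∀ i j : ℤ,
    (Matrix.of fun a b : Fin (k + 1) => M (i + ((a : ℕ) : ℤ)) (j + ((b : ℕ) : ℤ))).det = 0
  one : ∀ i j : ℤ, j - i = -1 ∨ j - i = w → M i j = 1
  zero : ∀ i j : ℤ, (-(k : ℤ) ≤ j - i ∧ j - i ≤ -2) ∨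
    ((w : ℤ) + 1 ≤ j - i ∧ j - i ≤ w + k - 1) → M i j = 0

/-- The elements of `{0, …, n - 1}` that are congruent modulo `n` to an element of `S`. -/
def residues (n : ℕ) (S : Finset ℤ) : Finset (Fin n) :=
  univ.filter fun c => ∃ x ∈ S, (n : ℤ) ∣ x - ((c : ℕ) : ℤ)

/-- The maximal minor of the `k × n` matrix `A` (`n = k + w + 1`) on the columns whose indices are
the residues modulo `n` of the elements of `S`, taken in increasing order: a Plücker coordinate
of `A`. -/
noncomputable def pl {k w : ℕ} (A : Matrix (Fin k) (Fin (k + (w + 1))) ℚ) (S : Finset ℤ) : ℚ :=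
  evalAt A (plucker k (k + (w + 1)) (residues (k + (w + 1)) S))

/-- The matrix `A` corresponds to the frieze `M`: all cyclically consecutive maximal minors of `A`
are `1`, and the entries of the frieze are Plücker coordinates of `A`. Up to a rotation `p` of the
columns, either `m i j` is the Plücker coordinate of `{i - k + 1, …, i - 1} ∪ {j + 1}`, or (the
other convention in use) `m i j` is the Plücker coordinate of `{i} ∪ {j + 2, …, j + k}`. -/
structure Represents (k w : ℕ) (M : ℤ → ℤ → ℚ) (A : Matrix (Fin k) (Fin (k + (w + 1))) ℚ) :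
    Prop where
  cyclic : ∀ i : ℤ, pl A (Ico i (i + k)) = 1
  entry : ∃ p : ℤ,
    (∀ i j : ℤ, 0 ≤ j - i → j - i ≤ w - 1 →
      M i j = pl A (insert (p + j + 1) (Ioo (p + i - k) (p + i)))) ∨
    (∀ i j : ℤ, 0 ≤ j - i → j - i ≤ w - 1 →
      M i j = pl A (insert (p + i) (Ioo (p + j + 1) (p + j + 1 + k))))

end Pool.Agent.H489R3
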