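import Mathlib
import Pool.Agent.H489R3.Defs

set_option autoImplicit false
set_option linter.unusedSectionVars false

/-!
# Seeds and mutation (geometric type, skew-symmetric)
-/

namespace Pool.Agent.H489R3

open Finset

variable {I : Type*} [Fintype I] [DecidableEq I] {K : Type*} [Field K]

omit [Fintype I] in
theorem mutMat_left (k : I) (B : I → I → ℤ) (j : I) : mutMat k B k j = -B k j := by
  simp [mutMat]

omit [Fintype I] in
theorem mutMat_right (k : I) (B : I → I → ℤ) (i : I) : mutMat k B i k = -B i k := by
  simp [mutMat]

omit [Fintype I] in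
theorem mutMat_ne {k i j : I} (hi : i ≠ k) (hj : j ≠ k) (B : I → I → ℤ) :
    mutMat k B i j =
      B i j + (max (B i k) 0 * max (B k j) 0 - max (-B i k) 0 * max (-B k j) 0) := by
  simp [mutMat, hi, hj]

omit [Fintype I] in
theorem mutMat_mutMat (k : I) (B : I → I → ℤ) : mutMat k (mutMat k B) = B := by
  funext i j
  by_cases hi : i = k
  · subst hi; rw [mutMat_left, mutMat_left, neg_neg]
  by_cases hj : j = k
  · subst hj; rw [mutMat_right, mutMat_right, neg_neg]
  rw [mutMat_ne hi hj, mutMat_ne hi hj, mutMat_left, mutMat_right, neg_neg, neg_neg]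
  ring

omit [Fintype I] in
theorem mutMat_skew (k : I) {B : I → I → ℤ} (h : ∀ i j, B i j = -B j i) :
    ∀ i j, mutMat k B i j = -mutMat k B j i := by
  intro i j
  by_cases hi : i = k
  · subst hi; rw [mutMat_left, mutMat_right, h]
  by_cases hj : j = k
  · subst hj; rw [mutMat_left, mutMat_right, h]
  rw [mutMat_ne hi hj, mutMat_ne hj hi, h i j, h i k, h k j, neg_neg, neg_neg]
  ring

omit [Fintype I] [DecidableEq I] in
theorem skew_diag {B : I → I → ℤ} (h : ∀ i j, B i j = -B j i) (i : I) : B i i = 0 := by
  have := h i i; omega

/-- `exch` only sees the column `k`. -/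
theorem exch_congr {K : Type*} [CommSemiring K] {B B' : I → I → ℤ} {x x' : I → K} {k : I}
    (hB : ∀ i, B i k = B' i k) (hx : ∀ i, B i k ≠ 0 → x i = x' i) :
    exch B x k = exch B' x' k := by
  unfold exch
  congr 1 <;> refine prod_congr rfl fun i _ => ?_
  · rw [← hB]
    by_cases h : B i k = 0
    · simp [h]
    · rw [hx i h]
  · rw [← hB]
    by_cases h : B i k = 0
    · simp [h]
    · rw [hx i h]

theorem exch_neg {K : Type*} [CommSemiring K] {B B' : I → I → ℤ} {x x' : I → K} {k : I}
    (hB : ∀ i, B' i k = -B i k) (hx : ∀ i, B i k ≠ 0 → x i = x' i) :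
    exch B x k = exch B' x' k := by
  unfold exch
  rw [add_comm]
  congr 1 <;> refine prod_congr rfl fun i _ => ?_
  · rw [hB]
    by_cases h : B i k = 0
    · simp [h]
    · rw [hx i h]
  · rw [hB, neg_neg]
    by_cases h : B i k = 0
    · simp [h]
    · rw [hx i h]

theorem mutate_x_self (k : I) (s : Seed I K) :
    (s.mutate k).x k = exch s.B s.x k / s.x k := by
  simp [Seed.mutate]

theorem mutate_x_ne {k i : I} (h : i ≠ k) (s : Seed I K) : (s.mutate k).x i = s.x i := by
  simp [Seed.mutate, h]

theorem mutate_B (k : I) (s : Seed I K) : (s.mutate k).B = mutMat k s.B := rfl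

/-- The exchange polynomial. -/
noncomputable def exchP (B : I → I → ℤ) (k : I) : MvPolynomial I ℤ :=
  exch B MvPolynomial.X k

theorem aeval_exchP {A : Type*} [CommRing A] (B : I → I → ℤ) (k : I) (x : I → A) :
    MvPolynomial.aeval x (exchP B k) = exch B x k := by
  simp [exchP, exch]

theorem exchP_ne_zero (B : I → I → ℤ) (k : I) : exchP B k ≠ 0 := by
  intro h
  have := aeval_exchP B k (fun _ => (1 : ℤ))
  rw [h] at this
  simp [exch] at this

theorem exch_ne_zero {B : I → I → ℤ} {x : I → K} (hx : AlgebraicIndependent ℤ x) (k : I) :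
    exch B x k ≠ 0 := by
  rw [← aeval_exchP]
  intro h
  exact exchP_ne_zero B k ((injective_iff_map_eq_zero _).1 hx _ h)

omit [Fintype I] [DecidableEq I] in
theorem x_ne_zero {x : I → K} (hx : AlgebraicIndependent ℤ x) (i : I) : x i ≠ 0 := hx.ne_zero i

/-- The seeds for which the Laurent phenomenon is proved: algebraically independent variables,
skew-symmetric exchange matrix, and linearly independent mutable columns. -/
structure Good (N : Set I) (s : Seed I K) : Prop where
  alg : AlgebraicIndependent ℤ s.x
  skew : ∀ i j, s.B i j = -s.B j i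
  rank : ∀ v : I → ℤ, (∀ j, j ∉ N → v j = 0) → (∀ i, ∑ j, s.B i j * v j = 0) → v = 0

theorem mutate_mutate {k : I} {s : Seed I K} (hx : AlgebraicIndependent ℤ s.x)
    (hs : ∀ i j, s.B i j = -s.B j i) : (s.mutate k).mutate k = s := by
  have hkk : s.B k k = 0 := skew_diag hs k
  have h1 : exch (s.mutate k).B (s.mutate k).x k = exch s.B s.x k := by
    symm
    refine exch_neg (fun i => mutMat_right k s.B i) fun i hi => ?_
    rw [mutate_x_ne]
    rintro rfl
    exact hi hkk
  refine Seed.ext ?_ (mutMat_mutMat k s.B)
  funext i
  by_cases hi : i = k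
  · subst hi
    rw [mutate_x_self, h1, mutate_x_self]
    have h2 := exch_ne_zero (B := s.B) hx i
    have h3 := x_ne_zero hx i
    field_simp
  · rw [mutate_x_ne hi, mutate_x_ne hi]

theorem Good.mutate {N : Set I} {s : Seed I K} (hs : Good N s) {k : I} (hk : k ∈ N) :
    Good N (s.mutate k) := by
  have hkk : s.B k k = 0 := skew_diag hs.skew k
  refine ⟨?_, mutMat_skew k hs.skew, ?_⟩
  · have huniv : (Set.univ : Set I) = insert k {k}ᶜ := by ext i; simp [em]
    have h1 := (AlgebraicIndepOn.univ (x := s.x) (R := ℤ)).2 hs.alg
    rw [huniv, AlgebraicIndepOn.insert_iff (by simp)] at h1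
    obtain ⟨h2, h3⟩ := h1
    have hag : ∀ i ∈ ({k}ᶜ : Set I), (s.mutate k).x i = s.x i := fun i hi => mutate_x_ne hi s
    rw [← AlgebraicIndepOn.univ, huniv, AlgebraicIndepOn.insert_iff (by simp)]
    constructor
    · have : (fun i : ({k}ᶜ : Set I) => (s.mutate k).x i) = fun i : ({k}ᶜ : Set I) => s.x i := by
        funext i; exact hag i i.2
      rw [AlgebraicIndepOn, this]
      exact h2
    · have himg : (s.mutate k).x '' {k}ᶜ = s.x '' {k}ᶜ := Set.image_congr hag
      rw [himg]
      intro halg
      apply h3
      set D := Algebra.adjoin ℤ (s.x '' {k}ᶜ) with hD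
      have hprod : ∀ e : I → ℕ, e k = 0 → ∏ i, s.x i ^ e i ∈ D := by
        intro e he
        refine Subalgebra.prod_mem _ fun i _ => ?_
        by_cases hi : i = k
        · subst hi; rw [he, pow_zero]; exact Subalgebra.one_mem _
        · exact Subalgebra.pow_mem _ (Algebra.subset_adjoin
            (Set.mem_image_of_mem s.x (show i ∈ ({k}ᶜ : Set I) from hi))) _
      have hP : exch s.B s.x k ∈ D :=
        Subalgebra.add_mem _ (hprod _ (by simp [hkk])) (hprod _ (by simp [hkk]))
      have h5 : s.x k = exch s.B s.x k * ((s.mutate k).x k)⁻¹ := by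
        rw [mutate_x_self]
        have h2 := exch_ne_zero (B := s.B) hs.alg k
        have h3 := x_ne_zero hs.alg k
        field_simp
      rw [h5]
      have h6 : IsAlgebraic D (exch s.B s.x k) :=
        isAlgebraic_algebraMap (⟨exch s.B s.x k, hP⟩ : D)
      exact h6.mul halg.inv
  · intro v hv hBv
    -- transport the kernel vector
    set S : ℤ := ∑ j, max (s.B k j) 0 * v j with hS
    set v' : I → ℤ := Function.update v k (-v k + S) with hv'
    have hsum : ∀ i, ∑ j, s.B i j * v' j = ∑ j, s.B i j * v j + s.B i k * (-2 * v k + S) := by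
      intro i
      have : ∀ j, s.B i j * v' j = s.B i j * v j +
          if j = k then s.B i k * (-2 * v k + S) else 0 := by
        intro j
        by_cases hj : j = k
        · subst hj; simp [hv']; ring
        · simp [hv', hj]
      rw [sum_congr rfl fun j _ => this j, sum_add_distrib]
      simp
    have hrowk : ∑ j, s.B k j * v j = 0 := by
      have := hBv k
      simp only [mutate_B, mutMat_left] at this
      have h2 : ∑ j, -s.B k j * v j = -∑ j, s.B k j * v j := by
        rw [← sum_neg_distrib]; exact sum_congr rfl fun j _ => by ring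
      rw [h2] at this
      omega
    have hker : ∀ i, ∑ j, s.B i j * v' j = 0 := by
      intro i
      rw [hsum]
      by_cases hi : i = k
      · subst hi; rw [hrowk, hkk]; ring
      · have h := hBv i
        have hterm : ∀ j, (s.mutate k).B i j * v j = s.B i j * v j
            + (s.B i k * (max (s.B k j) 0 * v j) + max (-s.B i k) 0 * (s.B k j * v j))
            + (if j = k then -2 * s.B i k * v k else 0) := by
          intro j
          by_cases hj : j = k
          · subst hj
            rw [mutate_B, mutMat_right, hkk]
            simp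
            ring
          · rw [mutate_B, mutMat_ne hi hj]
            simp only [hj, if_false, add_zero]
            have key : ∀ a b : ℤ, max a 0 * max b 0 - max (-a) 0 * max (-b) 0 =
                a * max b 0 + max (-a) 0 * b := by
              intro a b
              rcases le_total 0 a with ha | ha <;> rcases le_total 0 b with hb | hb
              · rw [max_eq_left ha, max_eq_left hb, max_eq_right (by omega : -a ≤ 0)]; ring
              · rw [max_eq_left ha, max_eq_right hb, max_eq_right (by omega : -a ≤ 0)]; ring
              · rw [max_eq_right ha, max_eq_left hb, max_eq_left (by omega : 0 ≤ -a),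
                  max_eq_right (by omega : -b ≤ 0)]; ring
              · rw [max_eq_right ha, max_eq_right hb, max_eq_left (by omega : 0 ≤ -a),
                  max_eq_left (by omega : 0 ≤ -b)]; ring
            rw [key]
            ring
        rw [sum_congr rfl fun j _ => hterm j, sum_add_distrib, sum_add_distrib, sum_add_distrib,
          ← mul_sum, ← mul_sum, hrowk] at h
        simp only [sum_ite_eq', mem_univ, if_true, mul_zero, add_zero] at h
        rw [← hS] at h
        linarith
    have hv'0 := hs.rank v' (fun j hj => by
      have : j ≠ k := fun h => hj (h ▸ hk)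
      rw [hv', Function.update_of_ne this]
      exact hv j hj) hker
    have hvj : ∀ j, j ≠ k → v j = 0 := by
      intro j hj
      have := congrFun hv'0 j
      rwa [hv', Function.update_of_ne hj] at this
    have hS0 : S = 0 := by
      rw [hS]
      refine sum_eq_zero fun j _ => ?_
      by_cases hj : j = k
      · subst hj; rw [hkk]; simp
      · rw [hvj j hj, mul_zero]
    funext j
    by_cases hj : j = k
    · subst hj
      have := congrFun hv'0 j
      rw [hv', Function.update_self, hS0] at this
      simpa using this
    · exact hvj j hj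

end Pool.Agent.H489R3
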