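import Mathlib
import Pool.Agent.H489R3.Seeds

set_option autoImplicit false
set_option linter.unusedSectionVars false

/-!
# Local rings at a prime of a domain `Q` inside a field `K`
-/

namespace Pool.Agent.H489R3

open Finset

section Val

variable {K : Type*} [Field K] {Q : Type*} [CommRing Q] [IsDomain Q] (φ : Q →+* K)

/-- a prime, or zero -/
structure IsP (π : Q) : Prop where
  one : ¬ π ∣ 1
  mul : ∀ a b, π ∣ a * b → π ∣ a ∨ π ∣ b

theorem IsP.of_prime {π : Q} (h : Prime π) : IsP π :=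
  ⟨fun h1 => h.not_isUnit (isUnit_of_dvd_one h1), fun _ _ => h.dvd_or_dvd⟩

theorem IsP.zero : IsP (0 : Q) :=
  ⟨fun h => one_ne_zero (zero_dvd_iff.1 h), fun a b h => by
    simpa only [zero_dvd_iff, mul_eq_zero] using h⟩

theorem IsP.not_dvd_mul {π : Q} (h : IsP π) {a b : Q} (ha : ¬ π ∣ a) (hb : ¬ π ∣ b) :
    ¬ π ∣ a * b := fun hab => (h.mul a b hab).elim ha hb

/-- `z` lies in the local ring of `Q` at `π`. -/
def LO (π : Q) (z : K) : Prop := ∃ f g : Q, ¬ π ∣ g ∧ z * φ g = φ f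

/-- `z` is a unit of the local ring of `Q` at `π`. -/
def LU (π : Q) (z : K) : Prop := ∃ f g : Q, ¬ π ∣ f ∧ ¬ π ∣ g ∧ z * φ g = φ f

/-- `z` lies in the maximal ideal of the local ring of `Q` at `π`. -/
def LM (π : Q) (z : K) : Prop := ∃ f g : Q, π ∣ f ∧ ¬ π ∣ g ∧ z * φ g = φ f

variable {φ} (hφ : Function.Injective φ) {π : Q} (hπ : IsP π)
include hπ

theorem LO_map (f : Q) : LO φ π (φ f) := ⟨f, 1, hπ.one, by simp⟩

theorem LU_map {f : Q} (hf : ¬ π ∣ f) : LU φ π (φ f) := ⟨f, 1, hf, hπ.one, by simp⟩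

theorem LM_map {f : Q} (hf : π ∣ f) : LM φ π (φ f) := ⟨f, 1, hf, hπ.one, by simp⟩

omit hπ in
theorem LU.lo {z : K} (h : LU φ π z) : LO φ π z := by
  obtain ⟨f, g, _, hg, h⟩ := h
  exact ⟨f, g, hg, h⟩

omit hπ in
theorem LM.lo {z : K} (h : LM φ π z) : LO φ π z := by
  obtain ⟨f, g, _, hg, h⟩ := h
  exact ⟨f, g, hg, h⟩

theorem LO.add {z w : K} (hz : LO φ π z) (hw : LO φ π w) : LO φ π (z + w) := by
  obtain ⟨f, g, hg, h⟩ := hz
  obtain ⟨f', g', hg', h'⟩ := hw
  exact ⟨f * g' + f' * g, g * g', hπ.not_dvd_mul hg hg', by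
    simp only [map_add, map_mul, ← h, ← h']; ring⟩

theorem LO.mul {z w : K} (hz : LO φ π z) (hw : LO φ π w) : LO φ π (z * w) := by
  obtain ⟨f, g, hg, h⟩ := hz
  obtain ⟨f', g', hg', h'⟩ := hw
  exact ⟨f * f', g * g', hπ.not_dvd_mul hg hg', by
    simp only [map_mul, ← h, ← h']; ring⟩

omit hπ in
theorem LO.neg {z : K} (hz : LO φ π z) : LO φ π (-z) := by
  obtain ⟨f, g, hg, h⟩ := hz
  exact ⟨-f, g, hg, by simp only [map_neg, ← h]; ring⟩

/-- The local ring as a subring of `K`. -/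
def LOsub (φ : Q →+* K) (hπ : IsP π) : Subring K where
  carrier := {z | LO φ π z}
  mul_mem' := fun h h' => h.mul hπ h'
  one_mem' := by simpa using LO_map hπ (φ := φ) 1
  add_mem' := fun h h' => h.add hπ h'
  zero_mem' := by simpa using LO_map hπ (φ := φ) 0
  neg_mem' := fun h => h.neg

theorem LU.mul {z w : K} (hz : LU φ π z) (hw : LU φ π w) : LU φ π (z * w) := by
  obtain ⟨f, g, hf, hg, h⟩ := hz
  obtain ⟨f', g', hf', hg', h'⟩ := hw
  exact ⟨f * f', g * g', hπ.not_dvd_mul hf hf', hπ.not_dvd_mul hg hg', by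
    simp only [map_mul, ← h, ← h']; ring⟩

theorem LU.one : LU φ π (1 : K) := ⟨1, 1, hπ.one, hπ.one, by simp⟩

theorem LU.pow {z : K} (hz : LU φ π z) (n : ℕ) : LU φ π (z ^ n) := by
  induction n with
  | zero => rw [pow_zero]; exact LU.one hπ
  | succ n ih => rw [pow_succ]; exact ih.mul hπ hz

theorem LU.prod {ι : Type*} (s : Finset ι) (f : ι → K) (h : ∀ i ∈ s, LU φ π (f i)) :
    LU φ π (∏ i ∈ s, f i) := by
  classical
  induction s using Finset.induction_on with
  | empty => rw [prod_empty]; exact LU.one hπ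
  | insert a s ha ih =>
    rw [prod_insert ha]
    exact (h a (mem_insert_self a s)).mul hπ (ih fun i hi => h i (mem_insert_of_mem hi))

theorem LO.pow {z : K} (hz : LO φ π z) (n : ℕ) : LO φ π (z ^ n) := by
  induction n with
  | zero => rw [pow_zero]; exact (LU.one hπ).lo
  | succ n ih => rw [pow_succ]; exact ih.mul hπ hz

theorem LM.mul {z w : K} (hz : LM φ π z) (hw : LO φ π w) : LM φ π (z * w) := by
  obtain ⟨f, g, hf, hg, h⟩ := hz
  obtain ⟨f', g', hg', h'⟩ := hw
  exact ⟨f * f', g * g', hf.mul_right _, hπ.not_dvd_mul hg hg', by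
    simp only [map_mul, ← h, ← h']; ring⟩

theorem LM.pow {z : K} (hz : LM φ π z) {n : ℕ} (hn : n ≠ 0) : LM φ π (z ^ n) := by
  obtain ⟨m, rfl⟩ := Nat.exists_eq_succ_of_ne_zero hn
  rw [Nat.succ_eq_add_one, pow_succ, mul_comm]
  exact hz.mul hπ (hz.lo.pow hπ m)

theorem LU.add_LM {z w : K} (hz : LU φ π z) (hw : LM φ π w) : LU φ π (z + w) := by
  obtain ⟨f, g, hf, hg, h⟩ := hz
  obtain ⟨f', g', hf', hg', h'⟩ := hw
  refine ⟨f * g' + f' * g, g * g', ?_, hπ.not_dvd_mul hg hg', by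
    simp only [map_add, map_mul, ← h, ← h']; ring⟩
  intro hd
  have : π ∣ f * g' := (dvd_add_left (hf'.mul_right g)).1 hd
  exact hπ.not_dvd_mul hf hg' this

omit hπ in
theorem LU.inv {z : K} (h0 : z ≠ 0) (hz : LU φ π z) : LU φ π z⁻¹ := by
  obtain ⟨f, g, hf, hg, h⟩ := hz
  exact ⟨g, f, hg, hf, by rw [← h]; field_simp⟩

include hφ in
theorem LU.ne_zero {z : K} (hz : LU φ π z) : z ≠ 0 := by
  obtain ⟨f, g, hf, hg, h⟩ := hz
  rintro rfl
  rw [zero_mul] at h
  have : f = 0 := hφ (by rw [← h, map_zero])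
  exact hf (this ▸ dvd_zero π)

omit hπ in
theorem LO.lm_or_lu {z : K} (hz : LO φ π z) : LM φ π z ∨ LU φ π z := by
  obtain ⟨f, g, hg, h⟩ := hz
  by_cases hf : π ∣ f
  · exact Or.inl ⟨f, g, hf, hg, h⟩
  · exact Or.inr ⟨f, g, hf, hg, h⟩

end Val

section LemmaA

variable {K : Type*} [Field K] {Q : Type*} [CommRing Q] [IsDomain Q]
  [UniqueFactorizationMonoid Q] {φ : Q →+* K}

/-- A fraction that is integral at every prime not dividing any of the `y i` lies in the ring
generated by `Q` and the inverses of the `y i`. -/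
theorem mem_closure_of_forall_LO (hφ : Function.Injective φ) {ι : Type*} (y : ι → Q)
    (hy : ∀ i, y i ≠ 0) (g : Q) : g ≠ 0 → ∀ (z : K) (f : Q), z * φ g = φ f →
    (∀ π, Prime π → (∀ i, ¬ π ∣ y i) → LO φ π z) →
    z ∈ Subring.closure (Set.range φ ∪ Set.range fun i => (φ (y i))⁻¹) := by
  refine UniqueFactorizationMonoid.induction_on_prime g ?_ ?_ ?_
  · intro h; exact absurd rfl h
  · intro u hu _ z f hz _
    obtain ⟨v, hv⟩ := hu.exists_left_inv
    have h1 : z = φ (f * v) := by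
      have h2 : φ v * φ u = 1 := by rw [← map_mul, hv, map_one]
      calc z = z * (φ v * φ u) := by rw [h2, mul_one]
        _ = (z * φ u) * φ v := by ring
        _ = φ (f * v) := by rw [hz, map_mul]
    rw [h1]
    exact Subring.subset_closure (Or.inl ⟨_, rfl⟩)
  · intro a p ha hp ih _ z f hz hO
    have hp0 : φ p ≠ 0 := fun h => hp.ne_zero (hφ (by rw [h, map_zero]))
    rw [map_mul] at hz
    by_cases hdiv : ∃ i, p ∣ y i
    · obtain ⟨i, c, hc⟩ := hdiv
      have h1 := ih ha (z * φ p) f (by rw [← hz]; ring) fun π hπ hi =>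
        (hO π hπ hi).mul (IsP.of_prime hπ) (LO_map (IsP.of_prime hπ) p)
      have h2 : z = z * φ p * φ c * (φ (y i))⁻¹ := by
        have h3 : φ (y i) ≠ 0 := fun h => hy i (hφ (by rw [h, map_zero]))
        have h4 : φ p * φ c = φ (y i) := by rw [hc, map_mul]
        rw [mul_assoc z, h4]
        field_simp
      rw [h2]
      exact Subring.mul_mem _ (Subring.mul_mem _ h1 (Subring.subset_closure (Or.inl ⟨c, rfl⟩)))
        (Subring.subset_closure (Or.inr ⟨i, rfl⟩))
    · push Not at hdiv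
      obtain ⟨f1, g1, hg1, h1⟩ := hO p hp hdiv
      have h2 : f1 * (p * a) = f * g1 := by
        apply hφ
        simp only [map_mul, ← h1, ← hz]
        ring
      have h3 : p ∣ f * g1 := ⟨f1 * a, by rw [← h2]; ring⟩
      obtain ⟨f', hf'⟩ := (hp.dvd_or_dvd h3).resolve_right hg1
      refine ih ha z f' ?_ hO
      have h4 : φ p * (z * φ a) = φ p * φ f' := by
        rw [← map_mul, ← hf', ← hz]; ring
      exact mul_left_cancel₀ hp0 h4

end LemmaA

section Laurent

variable {I : Type*} [Fintype I] [DecidableEq I] {K : Type*} [Field K]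

/-- The Laurent ring `ℤ[x_i^{±1}]` of a seed. -/
def LRing (x : I → K) : Subring K :=
  Subring.closure (Set.range x ∪ Set.range fun i => (x i)⁻¹)

theorem x_mem_LRing (x : I → K) (i : I) : x i ∈ LRing x :=
  Subring.subset_closure (Or.inl ⟨i, rfl⟩)

theorem inv_mem_LRing (x : I → K) (i : I) : (x i)⁻¹ ∈ LRing x :=
  Subring.subset_closure (Or.inr ⟨i, rfl⟩)

theorem aeval_mem_LRing (x : I → K) (f : MvPolynomial I ℤ) :
    MvPolynomial.aeval x f ∈ LRing x := by
  induction f using MvPolynomial.induction_on with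
  | C a => simp
  | add p q hp hq => rw [map_add]; exact Subring.add_mem _ hp hq
  | mul_X p i hp =>
    rw [map_mul, MvPolynomial.aeval_X]
    exact Subring.mul_mem _ hp (x_mem_LRing x i)

theorem LRing_le_LO {Q : Type*} [CommRing Q] [IsDomain Q] {φ : Q →+* K}
    (hφ : Function.Injective φ) {π : Q} (hπ : IsP π) {x : I → K} (hx : ∀ i, LU φ π (x i))
    {z : K} (hz : z ∈ LRing x) : LO φ π z := by
  have : LRing x ≤ LOsub φ hπ := by
    refine Subring.closure_le.2 ?_
    rintro w (⟨i, rfl⟩ | ⟨i, rfl⟩)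
    · exact (hx i).lo
    · exact (LU.inv ((hx i).ne_zero hφ hπ) (hx i)).lo
  exact this hz

/-- Criterion for membership in the Laurent ring of an algebraically independent family. -/
theorem mem_LRing {y : I → K} (hy : AlgebraicIndependent ℤ y) {z : K}
    (h0 : LO (MvPolynomial.aeval (R := ℤ) y).toRingHom 0 z)
    (h : ∀ π : MvPolynomial I ℤ, Prime π → (∀ i, ¬ π ∣ MvPolynomial.X i) →
      LO (MvPolynomial.aeval (R := ℤ) y).toRingHom π z) : z ∈ LRing y := by
  set φ := (MvPolynomial.aeval (R := ℤ) y).toRingHom with hφdef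
  have hφ : Function.Injective φ := hy
  obtain ⟨f, g, hg, hz⟩ := h0
  have hg0 : g ≠ 0 := fun h => hg (h ▸ dvd_refl _)
  have h1 := mem_closure_of_forall_LO hφ (fun i : I => (MvPolynomial.X i : MvPolynomial I ℤ))
    (fun i => MvPolynomial.X_ne_zero i) g hg0 z f hz h
  have h2 : Subring.closure (Set.range φ ∪ Set.range fun i : I =>
      (φ (MvPolynomial.X i))⁻¹) ≤ LRing y := by
    refine Subring.closure_le.2 ?_
    rintro w (⟨f, rfl⟩ | ⟨i, rfl⟩)
    · exact aeval_mem_LRing y f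
    · have : φ (MvPolynomial.X i) = y i := by simp [hφdef]
      simp only [this]
      exact inv_mem_LRing y i
  exact h2 h1

end Laurent

end Pool.Agent.H489R3
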