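import Mathlib
import Pool.Agent.H489R3.Val

set_option autoImplicit false
set_option linter.unusedSectionVars false

/-!
# Coprimality of exchange polynomials when the mutable columns are linearly independent
-/

namespace Pool.Agent.H489R3

open Finset MvPolynomial

variable {I : Type*} [Fintype I] [DecidableEq I]

theorem prod_X_pow (e : I → ℕ) : ∏ i, (X i : MvPolynomial I ℤ) ^ e i =
    monomial (Finsupp.equivFunOnFinite.symm e) 1 := by
  rw [monomial_eq, C_1, one_mul, Finsupp.prod_fintype _ _ (by simp)]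
  rfl

theorem degreeOf_eq_zero_of_dvd {π f : MvPolynomial I ℤ} (hf : f ≠ 0) (h : π ∣ f) {i : I}
    (hi : degreeOf i f = 0) : degreeOf i π = 0 := by
  obtain ⟨e, rfl⟩ := h
  rw [degreeOf_mul_eq (left_ne_zero_of_mul hf) (right_ne_zero_of_mul hf)] at hi
  omega

theorem degreeOf_prod_X_pow (e : I → ℕ) (i : I) (hi : e i = 0) :
    degreeOf i (∏ j, (X j : MvPolynomial I ℤ) ^ e j) = 0 := by
  rw [← Nat.le_zero]
  refine (degreeOf_prod_le i _ _).trans ?_
  rw [Nat.le_zero]
  refine sum_eq_zero fun j _ => ?_
  by_cases h : j = i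
  · subst h; rw [hi, pow_zero]; exact degreeOf_one _
  · rw [← Nat.le_zero]
    refine (degreeOf_pow_le _ _ _).trans ?_
    rw [degreeOf_X, if_neg (fun h' => h h'.symm)]
    simp

theorem degreeOf_exchP (B : I → I → ℤ) (k i : I) (h : B i k = 0) :
    degreeOf i (exchP B k) = 0 := by
  unfold exchP exch
  rw [← Nat.le_zero]
  refine (degreeOf_add_le _ _ _).trans ?_
  rw [degreeOf_prod_X_pow _ _ (by simp [h]), degreeOf_prod_X_pow _ _ (by simp [h])]
  simp

theorem exch_coprime {N : Set I} {B : I → I → ℤ}
    (hrank : ∀ v : I → ℤ, (∀ j, j ∉ N → v j = 0) → (∀ i, ∑ j, B i j * v j = 0) → v = 0)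
    {j l : I} (hj : j ∈ N) (hl : l ∈ N) (hjl : j ≠ l) {π : MvPolynomial I ℤ} (hπ : Prime π)
    (hX : ∀ i, ¬ π ∣ X i) (h1 : π ∣ exchP B j) (h2 : π ∣ exchP B l) : False := by
  classical
  have hind : ∀ α β : ℤ, (∀ i, α * B i j + β * B i l = 0) → α = 0 ∧ β = 0 := by
    intro α β h
    have h3 := hrank (fun i => if i = j then α else if i = l then β else 0) (by
      intro i hi
      have h4 : i ≠ j := fun h => hi (h ▸ hj)
      have h5 : i ≠ l := fun h => hi (h ▸ hl)
      simp [h4, h5]) (by
      intro i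
      have h4 : ∀ i', B i i' * (if i' = j then α else if i' = l then β else 0) =
          (if i' = j then α * B i j else 0) + (if i' = l then β * B i l else 0) := by
        intro i'
        by_cases h5 : i' = j
        · subst h5; simp [hjl, mul_comm]
        · by_cases h6 : i' = l
          · subst h6; simp [h5, mul_comm]
          · simp [h5, h6]
      rw [sum_congr rfl fun i' _ => h4 i', sum_add_distrib]
      simp [h i])
    have h4 := congrFun h3 j
    have h5 := congrFun h3 l
    simp [hjl.symm] at h4 h5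
    exact ⟨h4, h5⟩
  -- the residue field
  have hprime : (Ideal.span {π} : Ideal (MvPolynomial I ℤ)).IsPrime :=
    (Ideal.span_singleton_prime hπ.ne_zero).2 hπ
  let F := FractionRing (MvPolynomial I ℤ ⧸ Ideal.span {π})
  let ψ : MvPolynomial I ℤ →+* F := (algebraMap (MvPolynomial I ℤ ⧸ Ideal.span {π}) F).comp
    (Ideal.Quotient.mk (Ideal.span {π}))
  have hψ : ∀ f, ψ f = 0 ↔ π ∣ f := by
    intro f
    simp only [ψ, RingHom.coe_comp, Function.comp_apply]
    rw [map_eq_zero_iff _ (IsFractionRing.injective (MvPolynomial I ℤ ⧸ Ideal.span {π}) F),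
      Ideal.Quotient.eq_zero_iff_mem, Ideal.mem_span_singleton]
  let u : I → F := fun i => ψ (X i)
  have hu : ∀ i, u i ≠ 0 := fun i h => hX i ((hψ _).1 h)
  let zp : (I → ℤ) → F := fun e => ∏ i, u i ^ e i
  have hzp : ∀ e : I → ℤ, zp e * ∏ i, u i ^ (-e i).toNat = ∏ i, u i ^ (e i).toNat := by
    intro e
    rw [← prod_mul_distrib]
    refine prod_congr rfl fun i _ => ?_
    rw [← zpow_natCast, ← zpow_natCast, ← zpow_add₀ (hu i)]
    congr 1
    omega
  have hcol : ∀ k, π ∣ exchP B k → zp (fun i => B i k) = -1 := by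
    intro k hk
    have h3 := (hψ _).2 hk
    have h4 : ψ (exchP B k) = ∏ i, u i ^ (B i k).toNat + ∏ i, u i ^ (-B i k).toNat := by
      simp [exchP, exch, u]
    rw [h4, ← hzp (fun i => B i k)] at h3
    have h5 : ∏ i, u i ^ (-B i k).toNat ≠ 0 := prod_ne_zero_iff.2 fun i _ => pow_ne_zero _ (hu i)
    have h6 : (zp (fun i => B i k) + 1) * ∏ i, u i ^ (-B i k).toNat = 0 := by
      rw [add_mul, one_mul]; exact h3
    have h7 := (mul_eq_zero.1 h6).resolve_right h5
    exact eq_neg_of_add_eq_zero_left h7
  have hj1 := hcol j h1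
  have hl1 := hcol l h2
  have hne : ∀ k, exchP B k ≠ 0 := fun k => exchP_ne_zero B k
  -- `π` involves no variable
  have hdeg : ∀ i, degreeOf i π = 0 := by
    intro i
    by_cases hij : B i j = 0
    · exact degreeOf_eq_zero_of_dvd (hne j) h1 (degreeOf_exchP B j i hij)
    by_cases hil : B i l = 0
    · exact degreeOf_eq_zero_of_dvd (hne l) h2 (degreeOf_exchP B l i hil)
    set α := B i l with hα
    set β := -B i j with hβ
    set e : I → ℤ := fun i' => α * B i' j + β * B i' l with he
    have hei : e i = 0 := by simp only [he, hα, hβ]; ring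
    have hzpe : zp e = (-1) ^ α * (-1) ^ β := by
      suffices hh : zp e = (zp fun i => B i j) ^ α * (zp fun i => B i l) ^ β by
        rw [hh, hj1, hl1]
      simp only [zp, he]
      rw [← prod_zpow, ← prod_zpow, ← prod_mul_distrib]
      refine prod_congr rfl fun i' _ => ?_
      rw [← zpow_mul, ← zpow_mul, ← zpow_add₀ (hu i')]
      congr 1
      ring
    obtain ⟨ε, hε⟩ : ∃ ε : ℤ, zp e = (ε : F) := by
      rw [hzpe]
      rcases Int.even_or_odd α with ha | ha <;> rcases Int.even_or_odd β with hb | hb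
      · exact ⟨1, by rw [ha.neg_one_zpow, hb.neg_one_zpow]; simp⟩
      · exact ⟨-1, by rw [ha.neg_one_zpow, hb.neg_one_zpow]; simp⟩
      · exact ⟨-1, by rw [ha.neg_one_zpow, hb.neg_one_zpow]; simp⟩
      · exact ⟨1, by rw [ha.neg_one_zpow, hb.neg_one_zpow]; simp⟩
    set f : MvPolynomial I ℤ := ∏ i', X i' ^ (e i').toNat - C ε * ∏ i', X i' ^ (-e i').toNat with hf
    have hfdvd : π ∣ f := by
      rw [← hψ, hf]
      have h3 := hzp e
      rw [hε] at h3
      simp only [map_sub, map_mul, map_prod, map_pow]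
      have h4 : ψ (C ε) = (ε : F) := by
        have : (C ε : MvPolynomial I ℤ) = (ε : MvPolynomial I ℤ) := by simp
        rw [this, map_intCast]
      rw [h4]
      change ∏ i', u i' ^ (e i').toNat - ε * ∏ i', u i' ^ (-e i').toNat = 0
      rw [h3, sub_self]
    have hf0 : f ≠ 0 := by
      intro h0
      have hcoef := congrArg (coeff (Finsupp.equivFunOnFinite.symm fun i' => (e i').toNat)) h0
      rw [hf, prod_X_pow (fun i' => (e i').toNat), prod_X_pow (fun i' => (-e i').toNat), coeff_sub, coeff_C_mul,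
        coeff_monomial, coeff_monomial, if_pos rfl, coeff_zero] at hcoef
      have hne' : (Finsupp.equivFunOnFinite.symm fun i' => (-e i').toNat) ≠
          (Finsupp.equivFunOnFinite.symm fun i' => (e i').toNat) := by
        intro heq
        have h3 : (fun i' => (-e i').toNat) = (fun i' => (e i').toNat) :=
          Finsupp.equivFunOnFinite.symm.injective heq
        have h4 : ∀ i', e i' = 0 := by
          intro i'
          have h3' : (-e i').toNat = (e i').toNat := congrFun h3 i'
          omega
        have h5 := hind α β h4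
        exact hil (hα ▸ h5.1)
      rw [if_neg hne'] at hcoef
      simp at hcoef
    refine degreeOf_eq_zero_of_dvd hf0 hfdvd ?_
    rw [← Nat.le_zero, hf]
    refine (degreeOf_sub_le _ _ _).trans ?_
    rw [degreeOf_prod_X_pow (fun i' => (e i').toNat) _ (by simp [hei])]
    refine max_le (le_refl 0) ?_
    refine (degreeOf_mul_le _ _ _).trans ?_
    rw [degreeOf_C, degreeOf_prod_X_pow (fun i' => (-e i').toNat) _ (by simp [hei])]
  have hvars : π.vars = ∅ := by
    ext i
    rw [mem_vars_iff_degreeOf_ne_zero, hdeg i]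
    simp
  have hC : π = C (π.coeff 0) := vars_eq_empty_iff_eq_C.1 hvars
  have hCd : C (π.coeff 0) ∣ exchP B j := hC ▸ h1
  rw [C_dvd_iff_dvd_coeff] at hCd
  have hc := hCd (Finsupp.equivFunOnFinite.symm fun i' => (B i' j).toNat)
  unfold exchP exch at hc
  rw [prod_X_pow (fun i' => (B i' j).toNat), prod_X_pow (fun i' => (-B i' j).toNat), coeff_add, coeff_monomial, coeff_monomial, if_pos rfl] at hc
  have hne' : (Finsupp.equivFunOnFinite.symm fun i' => (-B i' j).toNat) ≠
      (Finsupp.equivFunOnFinite.symm fun i' => (B i' j).toNat) := by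
    intro heq
    have h3 : (fun i' => (-B i' j).toNat) = (fun i' => (B i' j).toNat) :=
      Finsupp.equivFunOnFinite.symm.injective heq
    have h4 : ∀ i', B i' j = 0 := by
      intro i'
      have h3' : (-B i' j).toNat = (B i' j).toNat := congrFun h3 i'
      omega
    have h5 := hind 1 0 (fun i => by rw [h4]; ring)
    exact one_ne_zero h5.1
  rw [if_neg hne', add_zero] at hc
  apply hπ.not_isUnit
  rw [hC]
  exact (isUnit_of_dvd_one hc).map C

end Pool.Agent.H489R3
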