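import Mathlib
import Pool.Agent.H489R3.Defs

set_option autoImplicit false
set_option linter.unusedSectionVars false

/-!
# Maximal minors of the generic matrix
-/

namespace Pool.Agent.H489R3

open Finset

variable {k n : ℕ}

theorem plucker_eq {S : Finset (Fin n)} (h : S.card = k) :
    plucker k n S = ((gen k n).submatrix id (S.orderEmbOfFin h)).det := dif_pos h

/-- A minor with arbitrarily ordered columns is `±` a Plücker coordinate. -/
theorem minor_eq {S : Finset (Fin n)} (h : S.card = k) (c : Fin k → Fin n)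
    (hc : Function.Injective c) (hS : ∀ a, c a ∈ S) :
    ∃ ε : ℤ, (ε = 1 ∨ ε = -1) ∧
      ((gen k n).submatrix id c).det = (ε : MvPolynomial (Fin k × Fin n) ℤ) * plucker k n S := by
  classical
  let σ' : Fin k → Fin k := fun a => (S.orderIsoOfFin h).symm ⟨c a, hS a⟩
  have hσ : Function.Injective σ' := by
    intro a b hab
    apply hc
    have := (S.orderIsoOfFin h).symm.injective hab
    exact congrArg Subtype.val this
  let σ : Equiv.Perm (Fin k) := Equiv.ofBijective σ' (Finite.injective_iff_bijective.1 hσ)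
  have hcσ : ∀ a, c a = S.orderEmbOfFin h (σ a) := by
    intro a
    change c a = S.orderEmbOfFin h ((S.orderIsoOfFin h).symm ⟨c a, hS a⟩)
    rw [← Finset.coe_orderIsoOfFin_apply, OrderIso.apply_symm_apply]
  have h1 : (gen k n).submatrix id c =
      ((gen k n).submatrix id (S.orderEmbOfFin h)).submatrix id σ := by
    ext i a
    simp [hcσ a]
  rw [h1, Matrix.det_permute', plucker_eq h]
  rcases Int.units_eq_one_or (Equiv.Perm.sign σ) with h2 | h2
  · exact ⟨1, Or.inl rfl, by rw [h2]; simp⟩
  · exact ⟨-1, Or.inr rfl, by rw [h2]; simp⟩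

/-! ### The three-term relation -/

section ThreeTerm

variable {A : Type*} [CommRing A]

/-- Cramer's relation between `K + 1` vectors of length `K`. -/
theorem cramer {K : ℕ} (W : Fin (K + 1) → Fin K → A) (r : Fin K) :
    ∑ i : Fin (K + 1), (-1) ^ (i : ℕ) * W i r *
      (Matrix.of fun a => W (i.succAbove a)).det = 0 := by
  let M : Matrix (Fin (K + 1)) (Fin (K + 1)) A :=
    Matrix.of fun i => (Fin.cons (W i r) (W i) : Fin (K + 1) → A)
  have h1 : M.det = 0 :=
    Matrix.det_zero_of_column_eq (i := 0) (j := r.succ) (Fin.succ_ne_zero r).symm (by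
      intro i; simp [M])
  rw [Matrix.det_succ_column_zero] at h1
  rw [← h1]
  refine sum_congr rfl fun i _ => ?_
  have h2 : M i 0 = W i r := by simp [M]
  have h3 : M.submatrix i.succAbove Fin.succ = Matrix.of fun a => W (i.succAbove a) := by
    ext a b; simp [M]
  rw [h2, h3]

/-- The bracket `[u, v, N]`. -/
def br {K : ℕ} (N : Fin K → Fin (K + 2) → A) (u v : Fin (K + 2) → A) : A :=
  (Matrix.of (Matrix.vecCons u (Matrix.vecCons v N))).det

theorem br_linear {K : ℕ} (N : Fin K → Fin (K + 2) → A) (v : Fin (K + 2) → A) :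
    ∃ C : Fin (K + 2) → A, ∀ u, br N u v = ∑ r, u r * C r := by
  refine ⟨fun r => (-1) ^ (r : ℕ) *
    (Matrix.of fun (a : Fin (K + 1)) (b : Fin (K + 1)) =>
      (Matrix.vecCons v N : Fin (K + 1) → Fin (K + 2) → A) a (r.succAbove b)).det, fun u => ?_⟩
  rw [br, Matrix.det_succ_row_zero]
  refine sum_congr rfl fun r _ => ?_
  simp only [Matrix.of_apply, Matrix.cons_val_zero]
  have : (Matrix.of (Matrix.vecCons u (Matrix.vecCons v N))).submatrix Fin.succ r.succAbove =
      Matrix.of fun (a : Fin (K + 1)) (b : Fin (K + 1)) =>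
      (Matrix.vecCons v N : Fin (K + 1) → Fin (K + 2) → A) a (r.succAbove b) := by
    ext a b; simp
  rw [this]
  ring

theorem br_self {K : ℕ} (N : Fin K → Fin (K + 2) → A) (v : Fin (K + 2) → A) :
    br N v v = 0 := by
  refine Matrix.det_zero_of_row_eq (i := 0) (j := 1) (by simp) ?_
  rfl

theorem br_mem {K : ℕ} (N : Fin K → Fin (K + 2) → A) (v : Fin (K + 2) → A) (s : Fin K) :
    br N (N s) v = 0 := by
  refine Matrix.det_zero_of_row_eq (i := 0) (j := s.succ.succ) (Fin.succ_ne_zero _).symm ?_
  rfl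

/-- The three-term Plücker relation. -/
theorem three_term {K : ℕ} (N : Fin K → Fin (K + 2) → A) (a b c d : Fin (K + 2) → A) :
    br N a c * br N b d = br N a b * br N c d + br N a d * br N b c := by
  obtain ⟨C, hC⟩ := br_linear N d
  let W : Fin (K + 3) → Fin (K + 2) → A := Matrix.vecCons a (Matrix.vecCons b (Matrix.vecCons c N))
  have h1 : ∑ i : Fin (K + 3), (-1) ^ (i : ℕ) * (Matrix.of fun a => W (i.succAbove a)).det *
      br N (W i) d = 0 := by
    have h2 : ∀ i : Fin (K + 3), (-1) ^ (i : ℕ) * (Matrix.of fun a => W (i.succAbove a)).det *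
        br N (W i) d = ∑ r, C r * ((-1) ^ (i : ℕ) * W i r *
          (Matrix.of fun a => W (i.succAbove a)).det) := by
      intro i
      rw [hC, mul_sum]
      exact sum_congr rfl fun r _ => by ring
    rw [sum_congr rfl fun i _ => h2 i, sum_comm]
    refine sum_eq_zero fun r _ => ?_
    rw [← mul_sum, cramer W r, mul_zero]
  rw [Fin.sum_univ_succ, Fin.sum_univ_succ, Fin.sum_univ_succ] at h1
  have h3 : ∑ i : Fin K, (-1) ^ ((i.succ.succ.succ : Fin (K + 3)) : ℕ) *
      (Matrix.of fun a => W ((i.succ.succ.succ : Fin (K + 3)).succAbove a)).det *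
      br N (W i.succ.succ.succ) d = 0 := by
    refine sum_eq_zero fun i _ => ?_
    have : W i.succ.succ.succ = N i := rfl
    rw [this, br_mem, mul_zero]
  rw [h3] at h1
  have e0 : (Matrix.of fun s => W ((0 : Fin (K + 3)).succAbove s)).det = br N b c := by
    rw [br]; congr 1
  have e1 : (Matrix.of fun s => W ((Fin.succ (0 : Fin (K + 2))).succAbove s)).det = br N a c := by
    rw [br]; congr 1
    ext s r
    refine Fin.cases ?_ (fun s => ?_) s
    · rfl
    · refine Fin.cases ?_ (fun s => ?_) s
      · rfl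
      · rfl
  have e2 : (Matrix.of fun s => W ((Fin.succ (Fin.succ (0 : Fin (K + 1)))).succAbove s)).det =
      br N a b := by
    rw [br]; congr 1
    ext s r
    refine Fin.cases ?_ (fun s => ?_) s
    · rfl
    · refine Fin.cases ?_ (fun s => ?_) s
      · rfl
      · rfl
  have w0 : W 0 = a := rfl
  have w1 : W (Fin.succ 0) = b := rfl
  have w2 : W (Fin.succ (Fin.succ 0)) = c := rfl
  rw [e0, e1, e2, w0, w1, w2] at h1
  simp only [Fin.val_zero, pow_zero, Fin.val_succ, zero_add, pow_one, one_mul, add_zero] at h1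
  have hsq : ((-1 : A)) ^ (1 + 1) = 1 := by norm_num
  rw [hsq] at h1
  linear_combination -h1

end ThreeTerm

/-! ### Signs and positivity -/

/-- Evaluation at the Vandermonde matrix `((j + 1) ^ i)`. -/
noncomputable def evV (k n : ℕ) : MvPolynomial (Fin k × Fin n) ℤ →+* ℤ :=
  (MvPolynomial.aeval (R := ℤ) fun p : Fin k × Fin n => ((p.2 : ℤ) + 1) ^ (p.1 : ℕ)).toRingHom

theorem evV_X (p : Fin k × Fin n) :
    evV k n (MvPolynomial.X p) = ((p.2 : ℤ) + 1) ^ (p.1 : ℕ) := by
  simp [evV]

theorem evV_minor (c : Fin k → Fin n) :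
    evV k n ((gen k n).submatrix id c).det = ∏ i : Fin k, ∏ j ∈ Ioi i,
      (((c j : ℕ) : ℤ) - ((c i : ℕ) : ℤ)) := by
  rw [RingHom.map_det, ← Matrix.det_transpose]
  have : ((evV k n).mapMatrix ((gen k n).submatrix id c)).transpose =
      Matrix.vandermonde (fun i : Fin k => ((c i : ℕ) : ℤ) + 1) := by
    ext a i
    simp [gen, evV_X, Matrix.vandermonde_apply]
  rw [this, Matrix.det_vandermonde]
  refine prod_congr rfl fun i _ => prod_congr rfl fun j _ => ?_
  ring

theorem evV_plucker_pos {S : Finset (Fin n)} (h : S.card = k) : 0 < evV k n (plucker k n S) := by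
  rw [plucker_eq h, evV_minor]
  refine prod_pos fun i _ => prod_pos fun j hj => ?_
  have h1 : S.orderEmbOfFin h i < S.orderEmbOfFin h j :=
    (S.orderEmbOfFin h).strictMono (mem_Ioi.1 hj)
  have h2 : ((S.orderEmbOfFin h i : ℕ) : ℤ) < ((S.orderEmbOfFin h j : ℕ) : ℤ) := by
    exact_mod_cast h1
  linarith

/-- columns of the generic matrix -/
noncomputable def gcol (k n : ℕ) (j : Fin n) : Fin k → MvPolynomial (Fin k × Fin n) ℤ :=
  fun i => MvPolynomial.X (i, j)

/-- The sign of `x` with respect to `N`. -/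
noncomputable def eta {K : ℕ} (N : Fin K → Fin n) (x : Fin n) : ℤ :=
  Int.sign (∏ s : Fin K, (((N s : ℕ) : ℤ) - ((x : ℕ) : ℤ)))

theorem plucker_insert {K : ℕ} {N : Finset (Fin n)} (hN : N.card = K) {x y : Fin n} (hxy : x < y)
    (hx : x ∉ N) (hy : y ∉ N) :
    plucker (K + 2) n (insert x (insert y N)) =
      ((eta (N.orderEmbOfFin hN) x * eta (N.orderEmbOfFin hN) y : ℤ) :
        MvPolynomial (Fin (K + 2) × Fin n) ℤ) *
      br (fun s => gcol (K + 2) n (N.orderEmbOfFin hN s)) (gcol (K + 2) n x)
        (gcol (K + 2) n y) := by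
  classical
  set o := N.orderEmbOfFin hN with ho
  have hoN : ∀ s, o s ∈ N := fun s => N.orderEmbOfFin_mem hN s
  have hcard : (insert x (insert y N)).card = K + 2 := by
    rw [card_insert_of_notMem, card_insert_of_notMem hy, hN]
    rw [mem_insert, not_or]
    exact ⟨hxy.ne, hx⟩
  let c : Fin (K + 2) → Fin n := Matrix.vecCons x (Matrix.vecCons y o)
  have hcinj : Function.Injective c := by
    intro a b
    refine Fin.cases ?_ (fun a => ?_) a <;> refine Fin.cases ?_ (fun b => ?_) b
    · intro _; rfl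
    · refine Fin.cases ?_ (fun b => ?_) b
      · intro h; exact absurd h hxy.ne
      · intro h; exact absurd (show x = o b from h) (fun h => hx (h ▸ hoN b))
    · refine Fin.cases ?_ (fun a => ?_) a
      · intro h; exact absurd h hxy.ne'
      · intro h; exact absurd (show o a = x from h) (fun h => hx (h ▸ hoN a))
    · refine Fin.cases ?_ (fun a => ?_) a <;> refine Fin.cases ?_ (fun b => ?_) b
      · intro _; rfl
      · intro h; exact absurd (show y = o b from h) (fun h => hy (h ▸ hoN b))
      · intro h; exact absurd (show o a = y from h) (fun h => hy (h ▸ hoN a))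
      · intro h
        rw [o.injective (show o a = o b from h)]
  have hcS : ∀ a, c a ∈ insert x (insert y N) := by
    intro a
    refine Fin.cases ?_ (fun a => ?_) a
    · exact mem_insert_self _ _
    · refine Fin.cases ?_ (fun a => ?_) a
      · exact mem_insert_of_mem (mem_insert_self _ _)
      · exact mem_insert_of_mem (mem_insert_of_mem (hoN a))
  obtain ⟨ε, hε, hdet⟩ := minor_eq hcard c hcinj hcS
  have hbr : br (fun s => gcol (K + 2) n (o s)) (gcol (K + 2) n x) (gcol (K + 2) n y) =
      ((gen (K + 2) n).submatrix id c).det := by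
    rw [br, ← Matrix.det_transpose]
    congr 1
    ext i a
    refine Fin.cases ?_ (fun a => ?_) a
    · simp [gcol, gen, c]
    · refine Fin.cases ?_ (fun a => ?_) a
      · simp [gcol, gen, c]
      · simp [gcol, gen, c]
  -- the sign
  have hpos := evV_plucker_pos (k := K + 2) hcard
  have hev := evV_minor (k := K + 2) c
  rw [hdet, map_mul, map_intCast] at hev
  have hsign : ε = eta o x * eta o y := by
    have h1 : Int.sign (∏ i : Fin (K + 2), ∏ j ∈ Ioi i, (((c j : ℕ) : ℤ) - ((c i : ℕ) : ℤ))) =
        eta o x * eta o y := by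
      rw [Fin.prod_univ_succ, Fin.prod_univ_succ]
      rw [Fin.prod_Ioi_zero, Fin.prod_univ_succ, Fin.prod_Ioi_succ, Fin.prod_Ioi_zero]
      have hc0 : c 0 = x := rfl
      have hc1 : c (Fin.succ 0) = y := rfl
      have hc2 : ∀ s : Fin K, c (Fin.succ (Fin.succ s)) = o s := fun s => rfl
      simp only [hc0, hc1, hc2]
      have hpp : 0 < ∏ i : Fin K, ∏ j ∈ Ioi (Fin.succ (Fin.succ i)),
          (((c j : ℕ) : ℤ) - ((o i : ℕ) : ℤ)) := by
        refine prod_pos fun i _ => ?_
        rw [Fin.prod_Ioi_succ, Fin.prod_Ioi_succ]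
        refine prod_pos fun j hj => ?_
        rw [hc2]
        have h2 : o i < o j := o.strictMono (mem_Ioi.1 hj)
        have h3 : ((o i : ℕ) : ℤ) < ((o j : ℕ) : ℤ) := by exact_mod_cast h2
        linarith
      have hxy' : (0 : ℤ) < ((y : ℕ) : ℤ) - ((x : ℕ) : ℤ) := by
        have : ((x : ℕ) : ℤ) < ((y : ℕ) : ℤ) := by exact_mod_cast hxy
        linarith
      rw [Int.sign_mul, Int.sign_mul, Int.sign_mul, Int.sign_eq_one_of_pos hpp,
        Int.sign_eq_one_of_pos hxy']
      simp only [one_mul, mul_one]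
      rfl
    rw [← h1, ← hev, Int.sign_mul, Int.sign_eq_one_of_pos hpos, mul_one]
    rcases hε with rfl | rfl <;> rfl
  rw [hbr, hdet, ← hsign]
  have hεε : (ε : MvPolynomial (Fin (K + 2) × Fin n) ℤ) * ε = 1 := by
    rcases hε with rfl | rfl <;> simp
  rw [← mul_assoc, hεε, one_mul]

/-- The three-term Plücker relation for sorted minors. -/
theorem plucker_three_term {K : ℕ} {N : Finset (Fin n)} (hN : N.card = K) {a b c d : Fin n}
    (hab : a < b) (hbc : b < c) (hcd : c < d) (ha : a ∉ N) (hb : b ∉ N) (hc : c ∉ N)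
    (hd : d ∉ N) :
    plucker (K + 2) n (insert a (insert c N)) * plucker (K + 2) n (insert b (insert d N)) =
      plucker (K + 2) n (insert a (insert b N)) * plucker (K + 2) n (insert c (insert d N)) +
      plucker (K + 2) n (insert a (insert d N)) * plucker (K + 2) n (insert b (insert c N)) := by
  rw [plucker_insert hN (hab.trans hbc) ha hc, plucker_insert hN (hbc.trans hcd) hb hd,
    plucker_insert hN hab ha hb, plucker_insert hN hcd hc hd,
    plucker_insert hN (hab.trans (hbc.trans hcd)) ha hd, plucker_insert hN hbc hb hc]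
  have h := three_term (fun s => gcol (K + 2) n (N.orderEmbOfFin hN s)) (gcol (K + 2) n a)
    (gcol (K + 2) n b) (gcol (K + 2) n c) (gcol (K + 2) n d)
  simp only [Int.cast_mul]
  linear_combination ((eta (N.orderEmbOfFin hN) a : MvPolynomial (Fin (K + 2) × Fin n) ℤ) *
    eta (N.orderEmbOfFin hN) b * eta (N.orderEmbOfFin hN) c * eta (N.orderEmbOfFin hN) d) * h

end Pool.Agent.H489R3
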