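import Mathlib
import Pool.Agent.H489R3.Minors

set_option autoImplicit false
set_option linter.unusedSectionVars false

/-!
# Different Plücker coordinates are coprime
-/

namespace Pool.Agent.H489R3

open Finset MvPolynomial

section General

variable {σ : Type*}

/-- polynomials not involving the variable `v` -/
noncomputable def noVar (v : σ) : Subring (MvPolynomial σ ℤ) where
  carrier := {f | degreeOf v f = 0}
  mul_mem' := by
    intro a b ha hb
    simp only [Set.mem_setOf_eq] at *
    have := degreeOf_mul_le v a b
    omega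
  one_mem' := degreeOf_one _
  add_mem' := by
    intro a b ha hb
    simp only [Set.mem_setOf_eq] at *
    have := degreeOf_add_le v a b
    rw [ha, hb] at this
    simpa using this
  zero_mem' := degreeOf_zero _
  neg_mem' := by
    intro a ha
    simp only [Set.mem_setOf_eq] at *
    have := degreeOf_sub_le v 0 a
    rw [ha, degreeOf_zero, zero_sub] at this
    simpa using this

theorem mem_noVar {v : σ} {f : MvPolynomial σ ℤ} : f ∈ noVar v ↔ degreeOf v f = 0 := Iff.rfl

theorem X_mem_noVar {v w : σ} (h : v ≠ w) : (X w : MvPolynomial σ ℤ) ∈ noVar v := by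
  classical
  rw [mem_noVar, degreeOf_X, if_neg h]

theorem det_mem {m : Type*} [Fintype m] [DecidableEq m] {A : Type*} [CommRing A]
    (S : Subring A) (M : Matrix m m A) (h : ∀ i j, M i j ∈ S) : M.det ∈ S := by
  rw [Matrix.det_apply]
  refine S.sum_mem fun τ _ => ?_
  rw [Units.smul_def]
  exact S.zsmul_mem (S.prod_mem fun i _ => h _ _) _

theorem dvd_noVar {v : σ} {π f : MvPolynomial σ ℤ} (hf : f ≠ 0) (h : π ∣ f) (hv : f ∈ noVar v) :
    π ∈ noVar v := by
  obtain ⟨e, rfl⟩ := h
  rw [mem_noVar, degreeOf_mul_eq (left_ne_zero_of_mul hf) (right_ne_zero_of_mul hf)] at hv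
  rw [mem_noVar]
  omega

theorem pderiv_noVar {v : σ} {f : MvPolynomial σ ℤ} (h : f ∈ noVar v) : pderiv v f = 0 := by
  refine pderiv_eq_zero_of_notMem_vars ?_
  rw [mem_vars_iff_degreeOf_ne_zero, mem_noVar.1 h]
  simp

theorem eq_C_of_noVar {f : MvPolynomial σ ℤ} (h : ∀ v, f ∈ noVar v) : f = C (f.coeff 0) := by
  refine vars_eq_empty_iff_eq_C.1 ?_
  ext v
  rw [mem_vars_iff_degreeOf_ne_zero, mem_noVar.1 (h v)]
  simp

end General

variable {k n : ℕ}

theorem plucker_ne_zero {S : Finset (Fin n)} (h : S.card = k) : plucker k n S ≠ 0 := by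
  intro h0
  have := evV_plucker_pos h
  rw [h0, map_zero] at this
  exact lt_irrefl _ this

theorem plucker_noVar {S : Finset (Fin n)} {j : Fin n} (hj : j ∉ S) (i : Fin k) :
    plucker k n S ∈ noVar (i, j) := by
  by_cases h : S.card = k
  · rw [plucker_eq h]
    refine det_mem _ _ fun a b => ?_
    refine X_mem_noVar ?_
    intro hh
    have h1 : j = S.orderEmbOfFin h b := congrArg Prod.snd hh
    exact hj (h1 ▸ S.orderEmbOfFin_mem h b)
  · rw [plucker, dif_neg h]
    exact Subring.zero_mem _

theorem plucker_coprime {S S' : Finset (Fin n)} (h : S.card = k) (h' : S'.card = k)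
    (hne : S ≠ S') {π : MvPolynomial (Fin k × Fin n) ℤ} (hπ : Prime π)
    (h1 : π ∣ plucker k n S) (h2 : π ∣ plucker k n S') : False := by
  classical
  obtain ⟨j, hjS, hjS'⟩ : ∃ j ∈ S, j ∉ S' := by
    by_contra hcon
    push Not at hcon
    exact hne (eq_of_subset_of_card_le hcon (by rw [h, h']))
  have hcol : ∀ i, π ∈ noVar (i, j) := fun i =>
    dvd_noVar (plucker_ne_zero h') h2 (plucker_noVar hjS' i)
  cases k with
  | zero => rw [card_eq_zero] at h; rw [h] at hjS; simp at hjS
  | succ K =>
    set o := S.orderEmbOfFin h with ho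
    obtain ⟨c0, hc0⟩ : ∃ c, o c = j := by
      have : j ∈ Set.range o := by rw [ho, range_orderEmbOfFin]; exact hjS
      exact this
    let E : Fin (K + 1) → MvPolynomial (Fin (K + 1) × Fin n) ℤ := fun i =>
      (((gen (K + 1) n).submatrix id o).submatrix i.succAbove c0.succAbove).det
    have hexp : plucker (K + 1) n S = ∑ i : Fin (K + 1),
        (-1) ^ ((i : ℕ) + (c0 : ℕ)) * X (i, j) * E i := by
      rw [plucker_eq h, Matrix.det_succ_column _ c0]
      refine sum_congr rfl fun i _ => ?_
      simp only [Matrix.submatrix_apply, id_eq, gen, Matrix.of_apply]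
      rw [← ho, hc0]
      rfl
    have hEcol : ∀ i i', E i ∈ noVar (i', j) := by
      intro i i'
      refine det_mem _ _ fun a b => ?_
      refine X_mem_noVar ?_
      intro hh
      have h3 : j = o (c0.succAbove b) := congrArg Prod.snd hh
      rw [← hc0] at h3
      exact (Fin.succAbove_ne c0 b) (o.injective h3).symm
    have hErow : ∀ i j', E i ∈ noVar (i, j') := by
      intro i j'
      refine det_mem _ _ fun a b => ?_
      refine X_mem_noVar ?_
      intro hh
      have h3 : i = i.succAbove a := congrArg Prod.fst hh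
      exact (Fin.succAbove_ne i a) h3.symm
    have hE0 : ∀ i, E i ≠ 0 := by
      intro i h0
      let ev : MvPolynomial (Fin (K + 1) × Fin n) ℤ →+* ℤ :=
        (aeval (R := ℤ) fun p : Fin (K + 1) × Fin n =>
          if ∃ a, p = (i.succAbove a, o (c0.succAbove a)) then (1 : ℤ) else 0).toRingHom
      have hev : ev (E i) = 1 := by
        simp only [E]
        rw [RingHom.map_det]
        have : ev.mapMatrix (((gen (K + 1) n).submatrix id o).submatrix
            i.succAbove c0.succAbove) = 1 := by
          ext a b
          simp only [RingHom.mapMatrix_apply, Matrix.map_apply, Matrix.submatrix_apply, gen,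
            Matrix.of_apply, id_eq, Matrix.one_apply]
          have hX : ev (X (i.succAbove a, o (c0.succAbove b))) =
              if ∃ a', (i.succAbove a, o (c0.succAbove b)) =
                (i.succAbove a', o (c0.succAbove a')) then (1 : ℤ) else 0 := by
            simp [ev]
          rw [hX]
          by_cases hab : a = b
          · subst hab
            rw [if_pos ⟨a, rfl⟩, if_pos rfl]
          · rw [if_neg hab, if_neg]
            rintro ⟨a', ha'⟩
            have h3 := Fin.succAbove_right_injective (congrArg Prod.fst ha')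
            have h4 := Fin.succAbove_right_injective (o.injective (congrArg Prod.snd ha'))
            exact hab (h3.trans h4.symm)
        rw [this, Matrix.det_one]
      rw [h0, map_zero] at hev
      exact zero_ne_one hev
    have hπE : ∀ i, π ∣ E i := by
      intro i
      obtain ⟨q, hq⟩ := h1
      have h3 := congrArg (pderiv (i, j)) hq
      rw [Derivation.leibniz, pderiv_noVar (hcol i), smul_zero, add_zero, smul_eq_mul,
        hexp, map_sum] at h3
      have h4 : ∀ i' : Fin (K + 1), pderiv (i, j)
          ((-1 : MvPolynomial (Fin (K + 1) × Fin n) ℤ) ^ ((i' : ℕ) + (c0 : ℕ)) * X (i', j) * E i') =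
          if i' = i then (-1) ^ ((i : ℕ) + (c0 : ℕ)) * E i else 0 := by
        intro i'
        rw [Derivation.leibniz, Derivation.leibniz, pderiv_noVar (hEcol i' i),
          pderiv_noVar (Subring.pow_mem _ (Subring.neg_mem _ (Subring.one_mem _)) _), pderiv_X]
        by_cases hi : i' = i
        · subst hi
          simp
          ring
        · have : (i', j) ≠ (i, j) := fun hh => hi (congrArg Prod.fst hh)
          simp [Pi.single_apply, hi]
      rw [sum_congr rfl fun i' _ => h4 i', sum_ite_eq' univ i, if_pos (mem_univ i)] at h3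
      have h5 : π ∣ (-1) ^ ((i : ℕ) + (c0 : ℕ)) * E i := ⟨_, h3⟩
      have hu : IsUnit ((-1 : MvPolynomial (Fin (K + 1) × Fin n) ℤ) ^ ((i : ℕ) + (c0 : ℕ))) :=
        (isUnit_one.neg).pow _
      exact (hu.dvd_mul_left).1 h5
    have hall : ∀ v, π ∈ noVar v := by
      rintro ⟨i, j'⟩
      exact dvd_noVar (hE0 i) (hπE i) (hErow i j')
    have hC := eq_C_of_noVar hall
    let ev' : MvPolynomial (Fin (K + 1) × Fin n) ℤ →+* ℤ :=
      (aeval (R := ℤ) fun p : Fin (K + 1) × Fin n => if p.2 = o p.1 then (1 : ℤ) else 0).toRingHom
    have hev' : ev' (plucker (K + 1) n S) = 1 := by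
      rw [plucker_eq h, RingHom.map_det]
      have : ev'.mapMatrix ((gen (K + 1) n).submatrix id o) = 1 := by
        ext a b
        simp only [RingHom.mapMatrix_apply, Matrix.map_apply, Matrix.submatrix_apply, gen,
          Matrix.of_apply, id_eq, Matrix.one_apply]
        have hX : ev' (X (a, o b)) = if o b = o a then (1 : ℤ) else 0 := by simp [ev']
        rw [hX]
        by_cases hab : a = b
        · subst hab; simp
        · rw [if_neg hab, if_neg]
          intro hh
          exact hab (o.injective hh).symm
      rw [this, Matrix.det_one]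
    have h3 : ev' π ∣ 1 := by rw [← hev']; exact map_dvd ev' h1
    have h4 : ev' π = π.coeff 0 := by
      conv_lhs => rw [hC]
      simp [ev']
    rw [h4] at h3
    apply hπ.not_isUnit
    rw [hC]
    exact (isUnit_of_dvd_one h3).map C

/-! ### Replacing a column -/

/-- The substitution replacing column `b` by column `d`. -/
noncomputable def subst (k : ℕ) {n : ℕ} (b d : Fin n) :
    MvPolynomial (Fin k × Fin n) ℤ →+* MvPolynomial (Fin k × Fin n) ℤ :=
  (aeval (R := ℤ) fun p : Fin k × Fin n => X (p.1, if p.2 = b then d else p.2)).toRingHom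

theorem subst_X (b d : Fin n) (i : Fin k) (j : Fin n) :
    subst k b d (X (i, j)) = X (i, if j = b then d else j) := by simp [subst]

theorem subst_of_noVar {b d : Fin n} {f : MvPolynomial (Fin k × Fin n) ℤ}
    (h : ∀ i, f ∈ noVar (i, b)) : subst k b d f = f := by
  have := hom_congr_vars (f₁ := subst k b d) (f₂ := RingHom.id _) (p₁ := f) (p₂ := f) (by
    ext a; simp) (by
    rintro ⟨i, j⟩ hij _
    have hjb : j ≠ b := by
      rintro rfl
      rw [mem_vars_iff_degreeOf_ne_zero] at hij
      exact hij (h i)
    rw [subst_X, if_neg hjb]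
    rfl) rfl
  simpa using this

theorem subst_plucker {S : Finset (Fin n)} (h : S.card = k) (b d : Fin n) :
    subst k b d (plucker k n S) =
      ((gen k n).submatrix id fun a => if S.orderEmbOfFin h a = b then d
        else S.orderEmbOfFin h a).det := by
  rw [plucker_eq h, RingHom.map_det]
  congr 1
  ext a c
  simp only [RingHom.mapMatrix_apply, Matrix.map_apply, Matrix.submatrix_apply, gen,
    Matrix.of_apply, id_eq]
  rw [subst_X]

theorem subst_plucker_zero {S : Finset (Fin n)} (h : S.card = k) {b d : Fin n} (hb : b ∈ S)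
    (hd : d ∈ S) (hbd : b ≠ d) : subst k b d (plucker k n S) = 0 := by
  rw [subst_plucker h]
  obtain ⟨a, ha⟩ : ∃ a, S.orderEmbOfFin h a = b := by
    have : b ∈ Set.range (S.orderEmbOfFin h) := by rw [range_orderEmbOfFin]; exact hb
    exact this
  obtain ⟨c, hc⟩ : ∃ c, S.orderEmbOfFin h c = d := by
    have : d ∈ Set.range (S.orderEmbOfFin h) := by rw [range_orderEmbOfFin]; exact hd
    exact this
  refine Matrix.det_zero_of_column_eq (i := a) (j := c) ?_ fun i => ?_
  · rintro rfl
    exact hbd (ha.symm.trans hc)
  · simp only [Matrix.submatrix_apply, ha, hc, if_true]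
    rw [if_neg hbd.symm]

theorem subst_plucker_insert {T : Finset (Fin n)} {b d : Fin n} (hb : b ∉ T) (hd : d ∉ T)
    (hbd : b ≠ d) (h : (insert b T).card = k) :
    ∃ ε : ℤ, (ε = 1 ∨ ε = -1) ∧ subst k b d (plucker k n (insert b T)) =
      (ε : MvPolynomial (Fin k × Fin n) ℤ) * plucker k n (insert d T) := by
  classical
  rw [subst_plucker h]
  have h' : (insert d T).card = k := by
    rw [card_insert_of_notMem hd, ← h, card_insert_of_notMem hb]
  refine minor_eq h' _ ?_ ?_
  · intro x y hxy
    have hm : ∀ x, (insert b T).orderEmbOfFin h x ∈ insert b T := fun x =>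
      (insert b T).orderEmbOfFin_mem h x
    simp only at hxy
    split_ifs at hxy with h1 h2 h2
    · exact ((insert b T).orderEmbOfFin h).injective (h1.trans h2.symm)
    · exfalso
      have h3 := hm y
      rw [← hxy, mem_insert] at h3
      rcases h3 with h3 | h3
      · exact hbd h3.symm
      · exact hd h3
    · exfalso
      have h3 := hm x
      rw [hxy, mem_insert] at h3
      rcases h3 with h3 | h3
      · exact hbd h3.symm
      · exact hd h3
    · exact ((insert b T).orderEmbOfFin h).injective hxy
  · intro a
    have h3 := (insert b T).orderEmbOfFin_mem h a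
    rw [mem_insert] at h3
    split_ifs with h1
    · exact mem_insert_self _ _
    · exact mem_insert_of_mem (h3.resolve_left h1)

end Pool.Agent.H489R3
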