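import Mathlib
import Pool.Agent.H489R3.Coprime

set_option autoImplicit false
set_option linter.unusedSectionVars false

/-!
# The rank two step in the proof of the Laurent phenomenon
-/

namespace Pool.Agent.H489R3

open Finset

variable {I : Type*} [Fintype I] [DecidableEq I] {K : Type*} [Field K]

/-- a monomial -/
def pm {A : Type*} [CommMonoid A] (x : I → A) (e : I → ℕ) : A := ∏ i, x i ^ e i

/-- forget the exponent of `l` -/
def off (l : I) (e : I → ℕ) : I → ℕ := fun i => if i = l then 0 else e i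

theorem pm_split {A : Type*} [CommMonoid A] (x : I → A) (e : I → ℕ) (l : I) :
    pm x e = x l ^ e l * pm x (off l e) := by
  unfold pm
  rw [← mul_prod_erase univ _ (mem_univ l), ← mul_prod_erase univ (fun i => x i ^ off l e i)
    (mem_univ l)]
  simp only [off, if_true, pow_zero, one_mul]
  congr 1
  refine prod_congr rfl fun i hi => ?_
  rw [if_neg (ne_of_mem_erase hi)]

theorem pm_congr {A : Type*} [CommMonoid A] {x x' : I → A} {e e' : I → ℕ}
    (he : ∀ i, e i = e' i) (h : ∀ i, e i ≠ 0 → x i = x' i) : pm x e = pm x' e' := by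
  unfold pm
  refine prod_congr rfl fun i _ => ?_
  rw [← he]
  by_cases h0 : e i = 0
  · rw [h0, pow_zero, pow_zero]
  · rw [h i h0]

theorem pm_mul {A : Type*} [CommMonoid A] (x : I → A) (e e' : I → ℕ) :
    pm x e * pm x e' = pm x (fun i => e i + e' i) := by
  unfold pm
  rw [← prod_mul_distrib]
  exact prod_congr rfl fun i _ => (pow_add _ _ _).symm

theorem pm_pow {A : Type*} [CommMonoid A] (x : I → A) (e : I → ℕ) (n : ℕ) :
    pm x e ^ n = pm x (fun i => e i * n) := by
  unfold pm
  rw [← prod_pow]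
  exact prod_congr rfl fun i _ => (pow_mul _ _ _).symm

theorem exch_eq_pm {A : Type*} [CommSemiring A] (B : I → I → ℤ) (x : I → A) (k : I) :
    exch B x k = pm x (fun i => (B i k).toNat) + pm x (fun i => (-B i k).toNat) := rfl

theorem LU_pm {Q : Type*} [CommRing Q] [IsDomain Q] {φ : Q →+* K} {π : Q} (hπ : IsP π)
    {x : I → K} {e : I → ℕ} (h : ∀ i, e i ≠ 0 → LU φ π (x i)) : LU φ π (pm x e) := by
  refine LU.prod hπ _ _ fun i _ => ?_
  by_cases h0 : e i = 0
  · rw [h0, pow_zero]; exact LU.one hπ
  · exact (h i h0).pow hπ _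

/-- The common set-up: either `π` does not divide the exchange polynomial of the second mutation,
and then `z` is integral at `π`, or the old variable `x l` lies in the maximal ideal. -/
theorem first_case {N : Set I} {s : Seed I K} (hs : Good N s) {j l : I} (hj : j ∈ N) (hl : l ∈ N)
    {z : K} (h1 : z ∈ LRing (s.mutate j).x)
    {π : MvPolynomial I ℤ} (hπ : IsP π) (hX : ∀ i, ¬ π ∣ MvPolynomial.X i)
    (hd : ¬ π ∣ exchP (s.mutate j).B l) :
    LO (MvPolynomial.aeval (R := ℤ) ((s.mutate j).mutate l).x).toRingHom π z := by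
  set s1 := s.mutate j with hs1
  set y := (s1.mutate l).x with hy
  set φ := (MvPolynomial.aeval (R := ℤ) y).toRingHom with hφdef
  have hs1' : Good N s1 := hs.mutate hj
  have ht : Good N (s1.mutate l) := hs1'.mutate hl
  have hφ : Function.Injective φ := ht.alg
  have hφX : ∀ i, φ (MvPolynomial.X i) = y i := fun i => by simp [hφdef]
  have hll : s1.B l l = 0 := skew_diag hs1'.skew l
  refine LRing_le_LO hφ hπ (fun i => ?_) h1
  by_cases hi : i = l
  · subst hi
    refine ⟨exchP s1.B i, MvPolynomial.X i, hd, hX i, ?_⟩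
    rw [hφX, hy, mutate_x_self]
    have h3 : φ (exchP s1.B i) = exch s1.B s1.x i := by
      change MvPolynomial.aeval y (exchP s1.B i) = _
      rw [aeval_exchP]
      refine exch_congr (fun _ => rfl) fun i' hi' => ?_
      rw [hy, mutate_x_ne]
      rintro rfl
      exact hi' hll
    rw [h3]
    have := x_ne_zero hs1'.alg i
    field_simp
  · have h3 : s1.x i = φ (MvPolynomial.X i) := by rw [hφX, hy, mutate_x_ne hi]
    rw [h3]
    exact LU_map hπ (hX i)

/-- The monomial part of the two-step mutation identity. -/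
theorem star {s : Seed I K} {j l : I} (hjl : j ≠ l) (hskew : ∀ i j, s.B i j = -s.B j i)
    (n : ℕ) (hn : s.B l j = n) (i : I) (hi : i ≠ j) :
    ((s.mutate j).B i l).toNat + (-s.B i l).toNat + (-s.B i j).toNat * n =
      (s.B i l).toNat + (-(s.mutate j).B i l).toNat := by
  have h1 : (s.mutate j).B i l = s.B i l - ((-s.B i j).toNat : ℤ) * n := by
    rw [mutate_B, mutMat_ne hi hjl.symm, hskew j l, hn]
    have h2 : max (-(n : ℤ)) 0 = 0 := by omega
    have h3 : max (-(-(n : ℤ))) 0 = n := by omega
    rw [h2, h3]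
    have h4 : ((-s.B i j).toNat : ℤ) = max (-s.B i j) 0 := by omega
    rw [h4]
    ring
  have h5 : ((-s.B i j).toNat : ℤ) * n = (((-s.B i j).toNat * n : ℕ) : ℤ) := by push_cast; ring
  rw [h5] at h1
  rw [h1]
  generalize (-s.B i j).toNat * n = w
  omega

theorem second_case_pos {N : Set I} {s : Seed I K} (hs : Good N s) {j l : I} (hj : j ∈ N)
    (hl : l ∈ N) (hjl : j ≠ l) (hc : 0 < s.B l j) {z : K}
    (h2 : z ∈ LRing (s.mutate l).x)
    {π : MvPolynomial I ℤ} (hpr : Prime π) (hX : ∀ i, ¬ π ∣ MvPolynomial.X i)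
    (hd : π ∣ exchP (s.mutate j).B l) :
    LO (MvPolynomial.aeval (R := ℤ) ((s.mutate j).mutate l).x).toRingHom π z := by
  have hπ : IsP π := IsP.of_prime hpr
  obtain ⟨n, hn⟩ : ∃ n : ℕ, s.B l j = n := ⟨(s.B l j).toNat, by omega⟩
  have hn0 : n ≠ 0 := by rintro rfl; omega
  have hBjl : s.B j l = -n := by rw [hs.skew, hn]
  set s1 := s.mutate j with hs1
  set y := (s1.mutate l).x with hy
  set φ := (MvPolynomial.aeval (R := ℤ) y).toRingHom with hφdef
  have hs1' : Good N s1 := hs.mutate hj
  have ht : Good N (s1.mutate l) := hs1'.mutate hl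
  have hφ : Function.Injective φ := ht.alg
  have hφX : ∀ i, φ (MvPolynomial.X i) = y i := fun i => by simp [hφdef]
  have hll : s1.B l l = 0 := skew_diag hs1'.skew l
  have hll0 : s.B l l = 0 := skew_diag hs.skew l
  have hjj0 : s.B j j = 0 := skew_diag hs.skew j
  have hyU : ∀ i, LU φ π (y i) := fun i => by rw [← hφX]; exact LU_map hπ (hX i)
  have hy0 : ∀ i, y i ≠ 0 := fun i => x_ne_zero ht.alg i
  have hyi : ∀ i, i ≠ j → i ≠ l → y i = s.x i := by
    intro i hij hil
    rw [hy, mutate_x_ne hil, hs1, mutate_x_ne hij]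
  have hs1l : s1.x l = s.x l := by rw [hs1, mutate_x_ne hjl.symm]
  have hyj : s.x j * y j = exch s.B s.x j := by
    rw [hy, mutate_x_ne hjl, hs1, mutate_x_self]
    have := x_ne_zero hs.alg j
    field_simp
  have hyl : s.x l * y l = exch s1.B s1.x l := by
    rw [hy, mutate_x_self, hs1l]
    have := x_ne_zero hs.alg l
    field_simp
  -- the monomials
  set pA := pm y (off l fun i => (s.B i j).toNat) with hpA
  set pB := pm y (fun i => (-s.B i j).toNat) with hpB
  set qP := pm y (fun i => (s.B i l).toNat) with hqP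
  set qM := pm y (off j fun i => (-s.B i l).toNat) with hqM
  set rP := pm y (off j fun i => (s1.B i l).toNat) with hrP
  set rM := pm y (fun i => (-s1.B i l).toNat) with hrM
  have hB1jl : s1.B j l = n := by rw [hs1, mutate_B, mutMat_left, hBjl, neg_neg]
  have hU : ∀ e : I → ℕ, LU φ π (pm y e) := fun e => LU_pm hπ fun i _ => hyU i
  have hne : ∀ e : I → ℕ, pm y e ≠ 0 := fun e => (hU e).ne_zero hφ hπ
  -- exchange relations
  have hEj : exch s.B s.x j = s.x l ^ n * pA + pB := by
    rw [exch_eq_pm, pm_split s.x _ l]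
    simp only [hn, Int.toNat_natCast]
    congr 1
    · congr 1
      refine pm_congr (fun _ => rfl) fun i hi => (hyi i ?_ ?_).symm
      · rintro rfl
        apply hi
        simp [off, hjj0]
      · rintro rfl
        apply hi
        simp [off]
    · refine pm_congr (fun _ => rfl) fun i hi => (hyi i ?_ ?_).symm
      · rintro rfl
        apply hi
        simp [hjj0]
      · rintro rfl
        apply hi
        simp [hn]
  have hEl : exch s.B s.x l = qP + s.x j ^ n * qM := by
    rw [exch_eq_pm, pm_split s.x (fun i => (-s.B i l).toNat) j]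
    simp only [hBjl, neg_neg, Int.toNat_natCast]
    congr 1
    · refine pm_congr (fun _ => rfl) fun i hi => (hyi i ?_ ?_).symm
      · rintro rfl
        apply hi
        simp [hBjl]
      · rintro rfl
        apply hi
        simp [hll0]
    · congr 1
      refine pm_congr (fun _ => rfl) fun i hi => (hyi i ?_ ?_).symm
      · rintro rfl
        apply hi
        simp [off]
      · rintro rfl
        apply hi
        simp [off, hll0]
  have hs1y : ∀ i, i ≠ l → s1.x i = y i := fun i hi => by rw [hy, mutate_x_ne hi]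
  have hE1 : exch s1.B s1.x l = y j ^ n * rP + rM := by
    rw [exch_eq_pm, pm_split s1.x (fun i => (s1.B i l).toNat) j]
    simp only [hB1jl, Int.toNat_natCast]
    rw [hs1y j hjl]
    congr 1
    · congr 1
      refine pm_congr (fun _ => rfl) fun i hi => hs1y i ?_
      rintro rfl
      apply hi
      simp [off, hll]
    · refine pm_congr (fun _ => rfl) fun i hi => hs1y i ?_
      rintro rfl
      apply hi
      simp [hll]
  have hstar : rP * qM * pB ^ n = qP * rM := by
    rw [hrP, hqM, hpB, hqP, hrM, pm_pow, pm_mul, pm_mul, pm_mul]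
    refine pm_congr (fun i => ?_) fun _ _ => rfl
    by_cases hi : i = j
    · subst hi
      simp [off, hjj0, hBjl, hB1jl]
    · simp only [off, hi, if_false]
      exact star hjl hs.skew n hn i hi
  -- `x l` lies in the maximal ideal
  have hφp : φ (exchP s1.B l) = exch s1.B s1.x l := by
    change MvPolynomial.aeval y (exchP s1.B l) = _
    rw [aeval_exchP]
    refine exch_congr (fun _ => rfl) fun i' hi' => (hs1y i' ?_).symm
    rintro rfl
    exact hi' hll
  have hxlM : LM φ π (s.x l) :=
    ⟨exchP s1.B l, MvPolynomial.X l, hd, hX l, by rw [hφX, hφp, hyl]⟩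
  have hxl0 : s.x l ≠ 0 := x_ne_zero hs.alg l
  have hxj : s.x j = (pB + s.x l ^ n * pA) * (y j)⁻¹ := by
    have h3 : s.x j * y j = pB + s.x l ^ n * pA := by rw [hyj, hEj, add_comm]
    rw [← h3]
    have := hy0 j
    field_simp
  have hxjU : LU φ π (s.x j) := by
    rw [hxj]
    exact ((hU _).add_LM hπ ((hxlM.pow hπ hn0).mul hπ (hU _).lo)).mul hπ
      (LU.inv (hy0 j) (hyU j))
  -- the main computation
  have hmain : LU φ π ((s.mutate l).x l) := by
    rw [mutate_x_self, hEl]
    set H := ∑ i ∈ range n, (s.x l ^ n * pA + pB) ^ i * pB ^ (n - 1 - i) with hH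
    have hHeq : (s.x l ^ n * pA + pB) ^ n = H * (s.x l ^ n * pA) + pB ^ n :=
      (geom_sum₂_mul_add (s.x l ^ n * pA) pB n).symm
    set w := qM * pB ^ n * ((y j) ^ n)⁻¹ * rM⁻¹ with hw
    have hxjn : s.x j ^ n = (H * (s.x l ^ n * pA) + pB ^ n) * ((y j) ^ n)⁻¹ := by
      rw [hxj, mul_pow, inv_pow, add_comm pB, hHeq]
    have hyjn : (y j) ^ n ≠ 0 := pow_ne_zero _ (hy0 j)
    have hrM0 : rM ≠ 0 := hne _
    have hwy : s.x l * (w * y l) = qP + qM * pB ^ n * ((y j) ^ n)⁻¹ := by
      have h3 : s.x l * (w * y l) = w * (s.x l * y l) := by ring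
      rw [h3, hyl, hE1, hw]
      have h4 : qM * pB ^ n * ((y j) ^ n)⁻¹ * rM⁻¹ * (y j ^ n * rP + rM) =
          (rP * qM * pB ^ n) * rM⁻¹ + qM * pB ^ n * ((y j) ^ n)⁻¹ := by
        field_simp
      rw [h4, hstar]
      field_simp
    have hwU : LU φ π w := by
      have hwU1 := ((hU (off j fun i => (-s.B i l).toNat)).mul hπ
        ((hU (fun i => (-s.B i j).toNat)).pow hπ n)).mul hπ
        (LU.inv hyjn ((hyU j).pow hπ n))
      exact hwU1.mul hπ (LU.inv hrM0 (hU _))
    have key : (qP + s.x j ^ n * qM) / s.x l =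
        w * y l + s.x l ^ (n - 1) * (qM * pA * H * ((y j) ^ n)⁻¹) := by
      rw [div_eq_iff hxl0]
      have h5 : s.x l ^ n = s.x l * s.x l ^ (n - 1) := by
        rw [← pow_succ']; congr 1; omega
      have h6 : (w * y l + s.x l ^ (n - 1) * (qM * pA * H * ((y j) ^ n)⁻¹)) * s.x l =
          s.x l * (w * y l) + (s.x l * s.x l ^ (n - 1)) * (qM * pA * H * ((y j) ^ n)⁻¹) := by
        ring
      rw [h6, hwy, ← h5, hxjn]
      ring
    rw [key]
    rcases Nat.lt_or_ge 1 n with hn1 | hn1
    · -- `n ≥ 2`
      refine (hwU.mul hπ (hyU l)).add_LM hπ ((hxlM.pow hπ (by omega)).mul hπ ?_)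
      have hHO : LO φ π H := by
        have : H ∈ LOsub φ hπ := by
          refine Subring.sum_mem _ fun i _ => Subring.mul_mem _ (Subring.pow_mem _ ?_ _)
            (Subring.pow_mem _ ?_ _)
          · exact Subring.add_mem _ (Subring.mul_mem _ (Subring.pow_mem _ hxlM.lo _)
              (hU _).lo) (hU _).lo
          · exact (hU _).lo
        exact this
      exact (((hU _).mul hπ (hU _)).lo.mul hπ hHO).mul hπ (LU.inv hyjn ((hyU j).pow hπ n)).lo
    · -- `n = 1`
      have hn1' : n = 1 := by omega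
      subst hn1'
      have hH1 : H = 1 := by simp [hH]
      rw [hH1]
      simp only [pow_one, Nat.sub_self, pow_zero, mul_one, one_mul] at *
      have h7 : w * y l + qM * pA * (y j)⁻¹ = (qM * (y j)⁻¹ * rM⁻¹) * (pB * y l + pA * rM) := by
        rw [hw]; field_simp
      rw [h7]
      refine (((hU _).mul hπ (LU.inv (hy0 j) (hyU j))).mul hπ (LU.inv hrM0 (hU _))).mul hπ ?_
      have hpmφ : ∀ e : I → ℕ, φ (pm MvPolynomial.X e) = pm y e := by
        intro e
        simp only [pm, map_prod, map_pow, hφX]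
      rw [hpA, hpB, hrM, ← hpmφ, ← hpmφ, ← hpmφ, ← hφX l, ← map_mul, ← map_mul, ← map_add]
      refine LU_map hπ ?_
      intro hdiv
      -- `π` does not involve `X l`
      have hdl : MvPolynomial.degreeOf l π = 0 :=
        degreeOf_eq_zero_of_dvd (exchP_ne_zero _ _) hd (degreeOf_exchP _ _ _ hll)
      have hder : ∀ f : MvPolynomial I ℤ, MvPolynomial.degreeOf l f = 0 →
          MvPolynomial.pderiv l f = 0 := by
        intro f hf
        refine MvPolynomial.pderiv_eq_zero_of_notMem_vars ?_
        rw [MvPolynomial.mem_vars_iff_degreeOf_ne_zero, hf]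
        simp
      have hpm0 : ∀ e : I → ℕ, e l = 0 →
          MvPolynomial.pderiv l (pm (MvPolynomial.X : I → MvPolynomial I ℤ) e) = 0 :=
        fun e he => hder _ (degreeOf_prod_X_pow e l he)
      obtain ⟨h, hh⟩ := hdiv
      have hh' := congrArg (MvPolynomial.pderiv l) hh
      rw [map_add, Derivation.leibniz, Derivation.leibniz, Derivation.leibniz,
        hpm0 (fun i => (-s.B i j).toNat) (by simp [hn]),
        hpm0 (off l fun i => (s.B i j).toNat) (by simp [off]),
        hpm0 (fun i => (-s1.B i l).toNat) (by simp [hll]), hder π hdl,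
        MvPolynomial.pderiv_X_self] at hh'
      simp only [smul_eq_mul, mul_zero, add_zero, mul_one] at hh'
      have hdvd : π ∣ pm (MvPolynomial.X : I → MvPolynomial I ℤ) (fun i => (-s.B i j).toNat) :=
        ⟨_, hh'⟩
      obtain ⟨i, _, hi⟩ := (Prime.dvd_finsetProd_iff hpr _).1 hdvd
      exact hX i (hpr.dvd_of_dvd_pow hi)
  refine LRing_le_LO hφ hπ (fun i => ?_) h2
  by_cases hil : i = l
  · subst hil; exact hmain
  · rw [mutate_x_ne hil]
    by_cases hij : i = j
    · subst hij; exact hxjU
    · rw [← hyi i hij hil]; exact hyU i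

/-- the case of commuting mutations -/
theorem second_case_zero {N : Set I} {s : Seed I K} (hs : Good N s) {j l : I} (hj : j ∈ N)
    (hl : l ∈ N) (hjl : j ≠ l) (hc : s.B l j = 0) {z : K}
    (h2 : z ∈ LRing (s.mutate l).x)
    {π : MvPolynomial I ℤ} (hpr : Prime π) (hX : ∀ i, ¬ π ∣ MvPolynomial.X i)
    (hd : π ∣ exchP (s.mutate j).B l) :
    LO (MvPolynomial.aeval (R := ℤ) ((s.mutate j).mutate l).x).toRingHom π z := by
  have hπ : IsP π := IsP.of_prime hpr
  have hBjl : s.B j l = 0 := by rw [hs.skew, hc, neg_zero]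
  set s1 := s.mutate j with hs1
  set y := (s1.mutate l).x with hy
  set φ := (MvPolynomial.aeval (R := ℤ) y).toRingHom with hφdef
  have hs1' : Good N s1 := hs.mutate hj
  have ht : Good N (s1.mutate l) := hs1'.mutate hl
  have hφ : Function.Injective φ := ht.alg
  have hφX : ∀ i, φ (MvPolynomial.X i) = y i := fun i => by simp [hφdef]
  have hll0 : s.B l l = 0 := skew_diag hs.skew l
  have hjj0 : s.B j j = 0 := skew_diag hs.skew j
  have hyU : ∀ i, LU φ π (y i) := fun i => by rw [← hφX]; exact LU_map hπ (hX i)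
  have hyi : ∀ i, i ≠ j → i ≠ l → y i = s.x i := by
    intro i hij hil
    rw [hy, mutate_x_ne hil, hs1, mutate_x_ne hij]
  have hcol : ∀ i, s1.B i l = s.B i l := by
    intro i
    by_cases hij : i = j
    · subst hij; rw [hs1, mutate_B, mutMat_left, hBjl, neg_zero]
    · rw [hs1, mutate_B, mutMat_ne hij hjl.symm, hBjl]
      simp
  have hexP : exchP s1.B l = exchP s.B l :=
    exch_congr (fun i => hcol i) fun _ _ => rfl
  have hyl : y l = (s.mutate l).x l := by
    rw [hy, mutate_x_self, mutate_x_self, hs1, mutate_x_ne hjl.symm]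
    congr 1
    refine exch_congr (fun i => hcol i) fun i hi => ?_
    rw [mutate_x_ne]
    rintro rfl
    apply hi
    have := hcol i
    rw [hs1] at this
    rw [this, hBjl]
  have hyj : s.x j * y j = exch s.B s.x j := by
    rw [hy, mutate_x_ne hjl, hs1, mutate_x_self]
    have := x_ne_zero hs.alg j
    field_simp
  rw [hexP] at hd
  by_cases hdj : π ∣ exchP s.B j
  · exact (exch_coprime hs.rank hj hl hjl hpr hX hdj hd).elim
  · have hφp : φ (exchP s.B j) = exch s.B s.x j := by
      change MvPolynomial.aeval y (exchP s.B j) = _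
      rw [aeval_exchP]
      refine exch_congr (fun _ => rfl) fun i hi => hyi i ?_ ?_
      · rintro rfl; exact hi hjj0
      · rintro rfl; exact hi hc
    have hxjU : LU φ π (s.x j) :=
      ⟨exchP s.B j, MvPolynomial.X j, hdj, hX j, by rw [hφX, hφp, hyj]⟩
    refine LRing_le_LO hφ hπ (fun i => ?_) h2
    by_cases hil : i = l
    · subst hil; rw [← hyl]; exact hyU i
    · rw [mutate_x_ne hil]
      by_cases hij : i = j
      · subst hij; exact hxjU
      · rw [← hyi i hij hil]; exact hyU i

/-- Reverse all arrows. -/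
def Seed.neg (s : Seed I K) : Seed I K := ⟨s.x, fun i j => -s.B i j⟩

theorem neg_mutate (s : Seed I K) (k : I) : s.neg.mutate k = (s.mutate k).neg := by
  have h1 : exch (fun i j => -s.B i j) s.x k = exch s.B s.x k :=
    (exch_neg (B := s.B) (B' := fun i j => -s.B i j) (x := s.x) (x' := s.x)
      (fun _ => rfl) fun _ _ => rfl).symm
  refine Seed.ext ?_ ?_
  · simp only [Seed.mutate, Seed.neg, h1]
  · funext i j
    simp only [Seed.mutate, Seed.neg, mutMat]
    split_ifs with h
    · rfl
    · simp only [neg_neg]; ring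

theorem Good.neg {N : Set I} {s : Seed I K} (hs : Good N s) : Good N s.neg := by
  refine ⟨hs.alg, fun i j => ?_, fun v hv h => hs.rank v hv fun i => ?_⟩
  · simp only [Seed.neg]; rw [hs.skew i j]
  · have := h i
    simp only [Seed.neg, neg_mul, sum_neg_distrib, neg_eq_zero] at this
    exact this

theorem second_case {N : Set I} {s : Seed I K} (hs : Good N s) {j l : I} (hj : j ∈ N)
    (hl : l ∈ N) (hjl : j ≠ l) {z : K} (h2 : z ∈ LRing (s.mutate l).x)
    {π : MvPolynomial I ℤ} (hpr : Prime π) (hX : ∀ i, ¬ π ∣ MvPolynomial.X i)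
    (hd : π ∣ exchP (s.mutate j).B l) :
    LO (MvPolynomial.aeval (R := ℤ) ((s.mutate j).mutate l).x).toRingHom π z := by
  rcases lt_trichotomy (s.B l j) 0 with h | h | h
  · have h3 := second_case_pos hs.neg hj hl hjl (by simp only [Seed.neg]; omega) (z := z)
      (by rw [neg_mutate]; exact h2) hpr hX (by
        rw [neg_mutate]
        have : exchP (s.mutate j).neg.B l = exchP (s.mutate j).B l :=
          (exch_neg (B := (s.mutate j).B) (B' := (s.mutate j).neg.B)
            (fun _ => rfl) fun _ _ => rfl).symm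
        rw [this]; exact hd)
    rw [neg_mutate, neg_mutate] at h3
    exact h3
  · exact second_case_zero hs hj hl hjl h h2 hpr hX hd
  · exact second_case_pos hs hj hl hjl h h2 hpr hX hd

/-- The rank two step. -/
theorem rank2 {N : Set I} {s : Seed I K} (hs : Good N s) {j l : I} (hj : j ∈ N) (hl : l ∈ N)
    (hjl : j ≠ l) {z : K} (h1 : z ∈ LRing (s.mutate j).x) (h2 : z ∈ LRing (s.mutate l).x) :
    z ∈ LRing ((s.mutate j).mutate l).x := by
  refine mem_LRing ((hs.mutate hj).mutate hl).alg ?_ ?_
  · refine first_case hs hj hl h1 IsP.zero (fun i => ?_) ?_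
    · rw [zero_dvd_iff]; exact MvPolynomial.X_ne_zero i
    · rw [zero_dvd_iff]; exact exchP_ne_zero _ _
  · intro π hpr hX
    by_cases hd : π ∣ exchP (s.mutate j).B l
    · exact second_case hs hj hl hjl h2 hpr hX hd
    · exact first_case hs hj hl h1 (IsP.of_prime hpr) hX hd

end Pool.Agent.H489R3
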