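import Mathlib
import Pool.Agent.H489R3.Rank2

set_option autoImplicit false
set_option linter.unusedSectionVars false

/-!
# The Laurent phenomenon, and regularity of cluster variables in a factorial ring
-/

namespace Pool.Agent.H489R3

open Finset

variable {I : Type*} [Fintype I] [DecidableEq I] {K : Type*} [Field K]

/-- The upper bound of a seed. -/
def Upper (N : Set I) (s : Seed I K) (z : K) : Prop :=
  z ∈ LRing s.x ∧ ∀ k ∈ N, z ∈ LRing (s.mutate k).x

theorem Upper.mutate {N : Set I} {s : Seed I K} (hs : Good N s) {j : I} (hj : j ∈ N) {z : K}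
    (h : Upper N s z) : Upper N (s.mutate j) z := by
  refine ⟨h.2 j hj, fun l hl => ?_⟩
  by_cases hjl : j = l
  · subst hjl
    rw [mutate_mutate hs.alg hs.skew]
    exact h.1
  · exact rank2 hs hj hl hjl (h.2 j hj) (h.2 l hl)

theorem Upper.of_mutate {N : Set I} {s : Seed I K} (hs : Good N s) {j : I} (hj : j ∈ N) {z : K}
    (h : Upper N (s.mutate j) z) : Upper N s z := by
  have := h.mutate (hs.mutate hj) hj
  rwa [mutate_mutate hs.alg hs.skew] at this

theorem exch_mem_LRing (B : I → I → ℤ) (x : I → K) (k : I) : exch B x k ∈ LRing x := by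
  rw [← aeval_exchP]
  exact aeval_mem_LRing x _

theorem upper_x {N : Set I} {s : Seed I K} (hs : Good N s) (i : I) : Upper N s (s.x i) := by
  refine ⟨x_mem_LRing _ i, fun k hk => ?_⟩
  by_cases hik : i = k
  · subst hik
    have h1 := mutate_mutate (k := i) hs.alg hs.skew
    have h2 : s.x i = exch (s.mutate i).B (s.mutate i).x i / (s.mutate i).x i := by
      rw [← mutate_x_self, h1]
    rw [h2, div_eq_mul_inv]
    exact Subring.mul_mem _ (exch_mem_LRing _ _ _) (inv_mem_LRing _ i)
  · rw [← mutate_x_ne hik s]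
    exact x_mem_LRing _ i

theorem reach_good {N : Set I} {s₀ s : Seed I K} (h0 : Good N s₀) (h : Reach N s₀ s) :
    Good N s := by
  induction h with
  | refl => exact h0
  | step _ hk ih => exact ih.mutate hk

theorem reach_upper {N : Set I} {s₀ s : Seed I K} (h0 : Good N s₀) (h : Reach N s₀ s) {z : K} :
    Upper N s z → Upper N s₀ z := by
  induction h with
  | refl => exact id
  | step hr hk ih => exact fun hz => ih (hz.of_mutate (reach_good h0 hr) hk)

/-- **Laurent phenomenon.** -/
theorem laurent {N : Set I} {s₀ s : Seed I K} (h0 : Good N s₀) (h : Reach N s₀ s) (i : I) :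
    Upper N s₀ (s.x i) :=
  reach_upper h0 h (upper_x (reach_good h0 h) i)

/-! ### Positivity -/

section Pos

variable {Q : Type*} [CommRing Q] [IsDomain Q] (φ : Q →+* K) (ev : Q →+* ℤ)

/-- `z` is a quotient of elements with positive evaluation. -/
def PosP (z : K) : Prop := ∃ f g : Q, 0 < ev f ∧ 0 < ev g ∧ z * φ g = φ f

/-- `z` is a quotient of an element with nonnegative and one with positive evaluation. -/
def NNP (z : K) : Prop := ∃ f g : Q, 0 ≤ ev f ∧ 0 < ev g ∧ z * φ g = φ f

variable {φ ev}

theorem PosP.nn {z : K} (h : PosP φ ev z) : NNP φ ev z := by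
  obtain ⟨f, g, hf, hg, h⟩ := h
  exact ⟨f, g, hf.le, hg, h⟩

theorem PosP.mul {z w : K} (hz : PosP φ ev z) (hw : PosP φ ev w) : PosP φ ev (z * w) := by
  obtain ⟨f, g, hf, hg, h⟩ := hz
  obtain ⟨f', g', hf', hg', h'⟩ := hw
  exact ⟨f * f', g * g', by rw [map_mul]; positivity, by rw [map_mul]; positivity, by
    simp only [map_mul, ← h, ← h']; ring⟩

theorem NNP.mul {z w : K} (hz : NNP φ ev z) (hw : NNP φ ev w) : NNP φ ev (z * w) := by
  obtain ⟨f, g, hf, hg, h⟩ := hz
  obtain ⟨f', g', hf', hg', h'⟩ := hw
  exact ⟨f * f', g * g', by rw [map_mul]; positivity, by rw [map_mul]; positivity, by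
    simp only [map_mul, ← h, ← h']; ring⟩

theorem PosP.one : PosP φ ev (1 : K) := ⟨1, 1, by simp, by simp, by simp⟩

theorem PosP.add {z w : K} (hz : PosP φ ev z) (hw : NNP φ ev w) : PosP φ ev (z + w) := by
  obtain ⟨f, g, hf, hg, h⟩ := hz
  obtain ⟨f', g', hf', hg', h'⟩ := hw
  refine ⟨f * g' + f' * g, g * g', ?_, by rw [map_mul]; positivity, by
    simp only [map_add, map_mul, ← h, ← h']; ring⟩
  rw [map_add, map_mul, map_mul]
  positivity

theorem PosP.pow {z : K} (hz : PosP φ ev z) (n : ℕ) : PosP φ ev (z ^ n) := by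
  induction n with
  | zero => rw [pow_zero]; exact PosP.one
  | succ n ih => rw [pow_succ]; exact ih.mul hz

theorem NNP.pow {z : K} (hz : NNP φ ev z) (n : ℕ) : NNP φ ev (z ^ n) := by
  induction n with
  | zero => rw [pow_zero]; exact PosP.one.nn
  | succ n ih => rw [pow_succ]; exact ih.mul hz

theorem PosP.pm {x : I → K} {e : I → ℕ} (h : ∀ i, e i ≠ 0 → PosP φ ev (x i)) :
    PosP φ ev (∏ i, x i ^ e i) := by
  have : ∀ s : Finset I, PosP φ ev (∏ i ∈ s, x i ^ e i) := by
    intro s
    induction s using Finset.induction_on with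
    | empty => rw [prod_empty]; exact PosP.one
    | insert a s ha ih =>
      rw [prod_insert ha]
      refine PosP.mul ?_ ih
      by_cases h0 : e a = 0
      · rw [h0, pow_zero]; exact PosP.one
      · exact (h a h0).pow _
  exact this univ

theorem NNP.pm {x : I → K} {e : I → ℕ} (h : ∀ i, NNP φ ev (x i)) :
    NNP φ ev (∏ i, x i ^ e i) := by
  have : ∀ s : Finset I, NNP φ ev (∏ i ∈ s, x i ^ e i) := by
    intro s
    induction s using Finset.induction_on with
    | empty => rw [prod_empty]; exact PosP.one.nn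
    | insert a s ha ih =>
      rw [prod_insert ha]
      exact ((h a).pow _).mul ih
  exact this univ

theorem PosP.ne_zero (hφ : Function.Injective φ) {z : K} (hz : PosP φ ev z) : z ≠ 0 := by
  obtain ⟨f, g, hf, hg, h⟩ := hz
  rintro rfl
  rw [zero_mul] at h
  have : f = 0 := hφ (by rw [← h, map_zero])
  rw [this, map_zero] at hf
  exact lt_irrefl _ hf

theorem PosP.div (hφ : Function.Injective φ) {z w : K} (hz : PosP φ ev z) (hw : PosP φ ev w) :
    PosP φ ev (z / w) := by
  have hw0 := hw.ne_zero hφ
  obtain ⟨f, g, hf, hg, h⟩ := hz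
  obtain ⟨f', g', hf', hg', h'⟩ := hw
  refine ⟨f * g', g * f', by rw [map_mul]; positivity, by rw [map_mul]; positivity, ?_⟩
  simp only [map_mul, ← h, ← h']
  field_simp

/-- All cluster variables are positive if the initial ones are; one frozen variable may
be only nonnegative. -/
theorem pos_reach (hφ : Function.Injective φ) {N : Set I} {s₀ s : Seed I K} {f : I} (hf : f ∉ N)
    (h1 : ∀ i, i ≠ f → PosP φ ev (s₀.x i)) (h2 : NNP φ ev (s₀.x f)) (h : Reach N s₀ s) :
    (∀ i, i ≠ f → PosP φ ev (s.x i)) ∧ s.x f = s₀.x f := by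
  induction h with
  | refl => exact ⟨h1, rfl⟩
  | @step s k hr hk ih =>
    obtain ⟨ih1, ih2⟩ := ih
    have hkf : k ≠ f := fun h => hf (h ▸ hk)
    have hNN : ∀ i, NNP φ ev (s.x i) := by
      intro i
      by_cases hi : i = f
      · subst hi; rw [ih2]; exact h2
      · exact (ih1 i hi).nn
    have hexch : PosP φ ev (exch s.B s.x k) := by
      unfold exch
      rcases le_total (s.B f k) 0 with hb | hb
      · refine PosP.add (PosP.pm fun i hi => ih1 i ?_) (NNP.pm hNN)
        rintro rfl
        apply hi
        simpa using hb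
      · rw [add_comm]
        refine PosP.add (PosP.pm fun i hi => ih1 i ?_) (NNP.pm hNN)
        rintro rfl
        apply hi
        simpa using hb
    refine ⟨fun i hi => ?_, ?_⟩
    · by_cases hik : i = k
      · subst hik
        rw [mutate_x_self]
        exact hexch.div hφ (ih1 i hi)
      · rw [mutate_x_ne hik]
        exact ih1 i hi
    · rw [mutate_x_ne hkf.symm, ih2]

end Pos

/-- The ring `ℤ[x_i (all i), x_i⁻¹ (i ∈ N)]`. -/
def NRing (N : Set I) (x : I → K) : Subring K :=
  Subring.closure (Set.range x ∪ (fun i => (x i)⁻¹) '' N)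

theorem aeval_mem_NRing (N : Set I) (x : I → K) (f : MvPolynomial I ℤ) :
    MvPolynomial.aeval x f ∈ NRing N x := by
  induction f using MvPolynomial.induction_on with
  | C a => simp
  | add p q hp hq => rw [map_add]; exact Subring.add_mem _ hp hq
  | mul_X p i hp =>
    rw [map_mul, MvPolynomial.aeval_X]
    exact Subring.mul_mem _ hp (Subring.subset_closure (Or.inl ⟨i, rfl⟩))

/-- Cluster variables have no frozen variable in the denominator. -/
theorem laurent_frozen {N : Set I} {s₀ s : Seed I K} (h0 : Good N s₀)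
    (h : Reach N s₀ s) (i : I) : s.x i ∈ NRing N s₀.x := by
  classical
  set φ := (MvPolynomial.aeval (R := ℤ) s₀.x).toRingHom with hφdef
  have hφ : Function.Injective φ := h0.alg
  have hφX : ∀ i, φ (MvPolynomial.X i) = s₀.x i := fun i => by simp [hφdef]
  have hL := (laurent h0 h i).1
  -- a fraction
  obtain ⟨f, g, hg, hz⟩ : LO φ 0 (s.x i) := by
    refine LRing_le_LO hφ IsP.zero (fun i => ?_) hL
    rw [← hφX]
    refine LU_map IsP.zero ?_
    rw [zero_dvd_iff]; exact MvPolynomial.X_ne_zero i
  have hg0 : g ≠ 0 := fun h => hg (h ▸ dvd_refl _)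
  have key := mem_closure_of_forall_LO hφ (fun i : N => (MvPolynomial.X i.1 : MvPolynomial I ℤ))
    (fun i => MvPolynomial.X_ne_zero i.1) g hg0 (s.x i) f hz ?_
  · have h2 : Subring.closure (Set.range φ ∪ Set.range fun i : N =>
        (φ (MvPolynomial.X i.1))⁻¹) ≤ NRing N s₀.x := by
      refine Subring.closure_le.2 ?_
      rintro w (⟨f, rfl⟩ | ⟨i, rfl⟩)
      · exact aeval_mem_NRing N s₀.x f
      · simp only [hφX]
        exact Subring.subset_closure (Or.inr ⟨i.1, i.2, rfl⟩)
    exact h2 key
  · intro π hπ hN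
    by_cases hall : ∀ j : I, ¬ π ∣ MvPolynomial.X j
    · refine LRing_le_LO hφ (IsP.of_prime hπ) (fun j => ?_) hL
      rw [← hφX]
      exact LU_map (IsP.of_prime hπ) (hall j)
    · push Not at hall
      obtain ⟨j, hj⟩ := hall
      have hjN : j ∉ N := fun h => hN ⟨j, h⟩ hj
      -- `π` is associated to `X j`
      have hassoc : (MvPolynomial.X j : MvPolynomial I ℤ) ∣ π :=
        (hπ.irreducible.dvd_symm (MvPolynomial.X_prime (i := j) (R := ℤ)).irreducible hj)
      let ev : MvPolynomial I ℤ →+* ℤ :=
        (MvPolynomial.aeval (R := ℤ) (fun i : I => if i = j then (0 : ℤ) else 1)).toRingHom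
      have hevX : ∀ i, ev (MvPolynomial.X i) = if i = j then 0 else 1 := fun i => by simp [ev]
      by_cases hij : i = j
      · subst hij
        have : s.x i = s₀.x i := by
          clear * - h hjN
          induction h with
          | refl => rfl
          | @step s k _ hk ih =>
            have hne : i ≠ k := by
              rintro rfl
              exact hjN hk
            rw [mutate_x_ne hne, ih]
        rw [this, ← hφX]
        exact LO_map (IsP.of_prime hπ) _
      · have hpos := (pos_reach (φ := φ) (ev := ev) hφ hjN (fun i hi => by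
          rw [← hφX]
          exact ⟨MvPolynomial.X i, 1, by rw [hevX, if_neg hi]; norm_num, by simp, by simp⟩) (by
          rw [← hφX]
          exact ⟨MvPolynomial.X j, 1, by rw [hevX]; simp, by simp, by simp⟩) h).1 i hij
        obtain ⟨f', g', _, hg', h'⟩ := hpos
        refine ⟨f', g', ?_, h'⟩
        intro hd
        obtain ⟨c, rfl⟩ := hassoc.trans hd
        rw [map_mul, hevX, if_pos rfl, zero_mul] at hg'
        exact lt_irrefl _ hg'

end Pool.Agent.H489R3
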