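import Mathlib
import Pool.Agent.H489R3.Laurent

set_option autoImplicit false
set_option linter.unusedSectionVars false

/-!
# Cluster variables are elements of a factorial ring
-/

namespace Pool.Agent.H489R3

open Finset

variable {I : Type*} [Fintype I] [DecidableEq I]

section Sp

variable {K₀ K₁ : Type*} [Field K₀] [Field K₁]

/-- `w` is the specialisation of `z` under `x i ↦ x' i`. -/
def Sp (x : I → K₀) (x' : I → K₁) (z : K₀) (w : K₁) : Prop :=
  ∃ g h : MvPolynomial I ℤ, MvPolynomial.aeval x' h ≠ 0 ∧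
    z * MvPolynomial.aeval x h = MvPolynomial.aeval x g ∧
    w * MvPolynomial.aeval x' h = MvPolynomial.aeval x' g

variable {x : I → K₀} {x' : I → K₁}

theorem Sp.var (i : I) : Sp x x' (x i) (x' i) :=
  ⟨MvPolynomial.X i, 1, by simp, by simp, by simp⟩

theorem Sp.one : Sp x x' 1 1 := ⟨1, 1, by simp, by simp, by simp⟩

theorem Sp.zero : Sp x x' 0 0 := ⟨0, 1, by simp, by simp, by simp⟩

theorem Sp.add {z z' : K₀} {w w' : K₁} (h : Sp x x' z w) (h' : Sp x x' z' w') :
    Sp x x' (z + z') (w + w') := by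
  obtain ⟨g, h, h0, h1, h2⟩ := h
  obtain ⟨g', h', h0', h1', h2'⟩ := h'
  refine ⟨g * h' + g' * h, h * h', ?_, ?_, ?_⟩
  · rw [map_mul]; exact mul_ne_zero h0 h0'
  · simp only [map_add, map_mul, ← h1, ← h1']; ring
  · simp only [map_add, map_mul, ← h2, ← h2']; ring

theorem Sp.mul {z z' : K₀} {w w' : K₁} (h : Sp x x' z w) (h' : Sp x x' z' w') :
    Sp x x' (z * z') (w * w') := by
  obtain ⟨g, h, h0, h1, h2⟩ := h
  obtain ⟨g', h', h0', h1', h2'⟩ := h'
  refine ⟨g * g', h * h', ?_, ?_, ?_⟩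
  · rw [map_mul]; exact mul_ne_zero h0 h0'
  · simp only [map_mul, ← h1, ← h1']; ring
  · simp only [map_mul, ← h2, ← h2']; ring

theorem Sp.neg {z : K₀} {w : K₁} (h : Sp x x' z w) : Sp x x' (-z) (-w) := by
  obtain ⟨g, h, h0, h1, h2⟩ := h
  exact ⟨-g, h, h0, by simp only [map_neg, ← h1]; ring, by simp only [map_neg, ← h2]; ring⟩

theorem Sp.pow {z : K₀} {w : K₁} (h : Sp x x' z w) (n : ℕ) : Sp x x' (z ^ n) (w ^ n) := by
  induction n with
  | zero => rw [pow_zero, pow_zero]; exact Sp.one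
  | succ n ih => rw [pow_succ, pow_succ]; exact ih.mul h

theorem Sp.prod {ι : Type*} (s : Finset ι) {z : ι → K₀} {w : ι → K₁}
    (h : ∀ i, Sp x x' (z i) (w i)) : Sp x x' (∏ i ∈ s, z i) (∏ i ∈ s, w i) := by
  classical
  induction s using Finset.induction_on with
  | empty => simpa using Sp.one
  | insert a s ha ih => rw [prod_insert ha, prod_insert ha]; exact (h a).mul ih

theorem Sp.exch {z : I → K₀} {w : I → K₁} (h : ∀ i, Sp x x' (z i) (w i)) (B : I → I → ℤ)
    (k : I) : Sp x x' (exch B z k) (exch B w k) :=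
  (Sp.prod _ fun i => (h i).pow _).add (Sp.prod _ fun i => (h i).pow _)

theorem Sp.inv (hx : AlgebraicIndependent ℤ x) {z : K₀} {w : K₁} (h : Sp x x' z w)
    (hw : w ≠ 0) : Sp x x' z⁻¹ w⁻¹ := by
  obtain ⟨g, h, h0, h1, h2⟩ := h
  have hg : MvPolynomial.aeval x' g ≠ 0 := by rw [← h2]; exact mul_ne_zero hw h0
  have hz : z ≠ 0 := by
    rintro rfl
    rw [zero_mul] at h1
    have : g = 0 := (injective_iff_map_eq_zero _).1 hx _ h1.symm
    rw [this, map_zero] at hg
    exact hg rfl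
  refine ⟨h, g, hg, ?_, ?_⟩
  · rw [← h1]; field_simp
  · rw [← h2]; field_simp

theorem Sp.unique (hx : AlgebraicIndependent ℤ x) {z : K₀} {w w' : K₁} (h : Sp x x' z w)
    (h' : Sp x x' z w') : w = w' := by
  obtain ⟨g, h, h0, h1, h2⟩ := h
  obtain ⟨g', h', h0', h1', h2'⟩ := h'
  have h3 : g * h' = g' * h := by
    have hinj : Function.Injective (MvPolynomial.aeval (R := ℤ) x) := hx
    apply hinj
    simp only [map_mul, ← h1, ← h1']
    ring
  have h4 := congrArg (MvPolynomial.aeval x') h3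
  simp only [map_mul, ← h2, ← h2'] at h4
  have h5 : w * (MvPolynomial.aeval x' h * MvPolynomial.aeval x' h') =
      w' * (MvPolynomial.aeval x' h * MvPolynomial.aeval x' h') := by
    linear_combination h4
  exact mul_right_cancel₀ (mul_ne_zero h0 h0') h5

/-- Transfer from a Laurent ring to its specialisation. -/
theorem Sp.closure {S : Set K₀} {S' : Set K₁} (h : ∀ z ∈ S, ∃ w ∈ S', Sp x x' z w) {z : K₀}
    (hz : z ∈ Subring.closure S) : ∃ w ∈ Subring.closure S', Sp x x' z w := by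
  induction hz using Subring.closure_induction with
  | mem z hz => obtain ⟨w, hw, h⟩ := h z hz; exact ⟨w, Subring.subset_closure hw, h⟩
  | zero => exact ⟨0, Subring.zero_mem _, Sp.zero⟩
  | one => exact ⟨1, Subring.one_mem _, Sp.one⟩
  | add a b _ _ iha ihb =>
    obtain ⟨w, hw, h⟩ := iha
    obtain ⟨w', hw', h'⟩ := ihb
    exact ⟨w + w', Subring.add_mem _ hw hw', h.add h'⟩
  | neg a _ iha => obtain ⟨w, hw, h⟩ := iha; exact ⟨-w, Subring.neg_mem _ hw, h.neg⟩
  | mul a b _ _ iha ihb =>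
    obtain ⟨w, hw, h⟩ := iha
    obtain ⟨w', hw', h'⟩ := ihb
    exact ⟨w * w', Subring.mul_mem _ hw hw', h.mul h'⟩

theorem Sp.LRing (hx : AlgebraicIndependent ℤ x) {y : I → K₀} {y' : I → K₁}
    (h : ∀ i, Sp x x' (y i) (y' i)) (h0 : ∀ i, y' i ≠ 0) {z : K₀} (hz : z ∈ LRing y) :
    ∃ w ∈ LRing y', Sp x x' z w := by
  refine Sp.closure ?_ hz
  rintro z (⟨i, rfl⟩ | ⟨i, rfl⟩)
  · exact ⟨_, Or.inl ⟨i, rfl⟩, h i⟩
  · exact ⟨_, Or.inr ⟨i, rfl⟩, (h i).inv hx (h0 i)⟩

theorem Sp.NRing (hx : AlgebraicIndependent ℤ x) {N : Set I} {y : I → K₀} {y' : I → K₁}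
    (h : ∀ i, Sp x x' (y i) (y' i)) (h0 : ∀ i, y' i ≠ 0) {z : K₀} (hz : z ∈ NRing N y) :
    ∃ w ∈ NRing N y', Sp x x' z w := by
  refine Sp.closure ?_ hz
  rintro z (⟨i, rfl⟩ | ⟨i, hi, rfl⟩)
  · exact ⟨_, Or.inl ⟨i, rfl⟩, h i⟩
  · exact ⟨_, Or.inr ⟨i, hi, rfl⟩, (h i).inv hx (h0 i)⟩

/-- Every reachable concrete seed is the specialisation of a reachable formal seed. -/
theorem partner {N : Set I} {s₀ : Seed I K₀} (h0 : Good N s₀) {s₀' : Seed I K₁}
    (hB : s₀.B = s₀'.B) (hne : ∀ s', Reach N s₀' s' → ∀ i, s'.x i ≠ 0) {s' : Seed I K₁}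
    (h : Reach N s₀' s') :
    ∃ s, Reach N s₀ s ∧ s.B = s'.B ∧ ∀ i, Sp s₀.x s₀'.x (s.x i) (s'.x i) := by
  induction h with
  | refl => exact ⟨s₀, Reach.refl, hB, fun i => Sp.var i⟩
  | @step s' k hr hk ih =>
    obtain ⟨s, h1, h2, h3⟩ := ih
    refine ⟨s.mutate k, h1.step hk, by rw [mutate_B, mutate_B, h2], fun i => ?_⟩
    by_cases hik : i = k
    · subst hik
      rw [mutate_x_self, mutate_x_self, h2, div_eq_mul_inv, div_eq_mul_inv]
      exact (Sp.exch h3 _ _).mul ((h3 i).inv h0.alg (hne _ hr i))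
    · rw [mutate_x_ne hik, mutate_x_ne hik]; exact h3 i

end Sp

section Main

variable {K : Type*} [Field K] {R : Type*} [CommRing R] [IsDomain R]
  [UniqueFactorizationMonoid R] {ψ : R →+* K}

theorem algebraicIndependent_of_injective {I : Type*} {K₀ : Type*} [Field K₀]
    (θ : MvPolynomial I ℤ →+* K₀) (hθ : Function.Injective θ) :
    AlgebraicIndependent ℤ (fun i => θ (MvPolynomial.X i)) := by
  rw [algebraicIndependent_iff_injective_aeval]
  have h : ∀ p, MvPolynomial.aeval (R := ℤ) (fun i => θ (MvPolynomial.X i)) p = θ p := by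
    intro p
    induction p using MvPolynomial.induction_on with
    | C a => simp
    | add p q hp hq => rw [map_add, map_add, hp, hq]
    | mul_X p i hp => rw [map_mul, map_mul, hp, MvPolynomial.aeval_X]
  intro p q hpq
  rw [h, h] at hpq
  exact hθ hpq

/-- A field with an algebraically independent family. -/
theorem exists_algebraicIndependent.{u} (I : Type u) :
    ∃ (K₀ : Type u) (_ : Field K₀) (x : I → K₀), AlgebraicIndependent ℤ x :=
  ⟨FractionRing (MvPolynomial I ℤ), inferInstance, _,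
    algebraicIndependent_of_injective (algebraMap (MvPolynomial I ℤ)
      (FractionRing (MvPolynomial I ℤ))) (IsFractionRing.injective _ _)⟩

theorem integral_aux {K₀ : Type*} [Field K₀] {x : I → K₀} (hx : AlgebraicIndependent ℤ x)
    (hψ : Function.Injective ψ) {N : Set I} {B : I → I → ℤ}
    (hskew : ∀ i j, B i j = -B j i)
    (hrank : ∀ v : I → ℤ, (∀ j, j ∉ N → v j = 0) → (∀ i, ∑ j, B i j * v j = 0) → v = 0)
    {r : I → R} {f : I} (hf : f ∉ N) (ev : R →+* ℤ) (hpos : ∀ i, 0 < ev (r i))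
    (hcop : ∀ k ∈ N, ∀ i, i ≠ k → ∀ π, Prime π → π ∣ r k → ¬ π ∣ r i)
    (hmut : ∀ k ∈ N, ∃ r', r k * r' = exch B r k ∧ ∀ π, Prime π → π ∣ r k → ¬ π ∣ r')
    {s' : Seed I K} (h : Reach N ⟨fun i => ψ (r i), B⟩ s') (i : I) : ∃ F : R, s'.x i = ψ F := by
  classical
  set s₀' : Seed I K := ⟨fun i => ψ (r i), B⟩ with hs₀'
  -- nonvanishing
  have hne : ∀ s', Reach N s₀' s' → ∀ i, s'.x i ≠ 0 := by
    intro s' hs' i
    have hp : ∀ i, PosP ψ ev (s₀'.x i) := fun i => ⟨r i, 1, hpos i, by simp, by simp [hs₀']⟩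
    obtain ⟨h1, h2⟩ := pos_reach hψ hf (fun i _ => hp i) (hp f).nn hs'
    by_cases hi : i = f
    · subst hi; rw [h2]; exact (hp i).ne_zero hψ
    · exact (h1 i hi).ne_zero hψ
  -- the formal seed
  let s₀ : Seed I K₀ := ⟨x, B⟩
  have h0 : Good N s₀ := ⟨hx, hskew, hrank⟩
  obtain ⟨s, hs, -, hsp⟩ := partner h0 (s₀' := s₀') rfl hne h
  -- `z'` lies in all the specialised rings
  have hL1 : ∀ k ∈ N, s'.x i ∈ LRing (s₀'.mutate k).x := by
    intro k hk
    have hk0 : Reach N s₀' (s₀'.mutate k) := Reach.refl.step hk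
    have hsp' : ∀ i, Sp s₀.x s₀'.x ((s₀.mutate k).x i) ((s₀'.mutate k).x i) := by
      intro i
      by_cases hik : i = k
      · subst hik
        rw [mutate_x_self, mutate_x_self, div_eq_mul_inv, div_eq_mul_inv]
        exact (Sp.exch (fun i => Sp.var i) _ _).mul ((Sp.var i).inv hx (hne _ Reach.refl i))
      · rw [mutate_x_ne hik, mutate_x_ne hik]; exact Sp.var i
    obtain ⟨w, hw, hzw⟩ := Sp.LRing hx hsp' (hne _ hk0) ((laurent h0 hs i).2 k hk)
    rw [(hsp i).unique hx hzw]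
    exact hw
  have hL2 : s'.x i ∈ NRing N s₀'.x := by
    obtain ⟨w, hw, hzw⟩ := Sp.NRing hx (fun i => Sp.var (x := s₀.x) (x' := s₀'.x) i)
      (hne _ Reach.refl) (laurent_frozen h0 hs i)
    rw [(hsp i).unique hx hzw]
    exact hw
  -- integrality at every prime
  have hO : ∀ π : R, Prime π → LO ψ π (s'.x i) := by
    intro π hπ
    have hP := IsP.of_prime hπ
    by_cases hall : ∀ k ∈ N, ¬ π ∣ r k
    · have hle : NRing N s₀'.x ≤ LOsub ψ hP := by
        refine Subring.closure_le.2 ?_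
        rintro w (⟨j, rfl⟩ | ⟨j, hj, rfl⟩)
        · exact LO_map hP (r j)
        · exact (LU.inv (hne _ Reach.refl j) (LU_map hP (hall j hj))).lo
      exact hle hL2
    · push Not at hall
      obtain ⟨k, hk, hπk⟩ := hall
      refine LRing_le_LO hψ hP (fun j => ?_) (hL1 k hk)
      by_cases hjk : j = k
      · subst hjk
        obtain ⟨r', hr', hr'π⟩ := hmut j hk
        have h1 : (s₀'.mutate j).x j = ψ r' := by
          rw [mutate_x_self]
          have h2 : exch s₀'.B s₀'.x j = ψ (r j) * ψ r' := by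
            rw [← map_mul, hr']
            simp [exch, hs₀']
          have h3 : s₀'.x j = ψ (r j) := rfl
          rw [h2, h3]
          have h4 : ψ (r j) ≠ 0 := hne _ Reach.refl j
          field_simp
        rw [h1]
        exact LU_map hP (hr'π π hπ hπk)
      · rw [mutate_x_ne hjk]
        exact LU_map hP (hcop k hk j hjk π hπ hπk)
  -- a fraction
  obtain ⟨p, q, hq, hz⟩ : LO ψ 0 (s'.x i) := by
    have hle : NRing N s₀'.x ≤ LOsub ψ IsP.zero := by
      refine Subring.closure_le.2 ?_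
      rintro w (⟨j, rfl⟩ | ⟨j, hj, rfl⟩)
      · exact LO_map IsP.zero (r j)
      · refine (LU.inv (hne _ Reach.refl j) (LU_map IsP.zero ?_)).lo
        rw [zero_dvd_iff]
        intro h0
        have := hne _ Reach.refl j
        rw [hs₀'] at this
        simp [h0] at this
    exact hle hL2
  have hq0 : q ≠ 0 := fun h => hq (h ▸ dvd_refl _)
  have key := mem_closure_of_forall_LO hψ (fun i : Empty => (i.elim : R)) (fun i => i.elim) q hq0
    (s'.x i) p hz (fun π hπ _ => hO π hπ)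
  have hle : Subring.closure (Set.range ψ ∪ Set.range fun i : Empty => (ψ (i.elim : R))⁻¹) ≤
      ψ.range := by
    refine Subring.closure_le.2 ?_
    rintro w (⟨j, rfl⟩ | ⟨j, rfl⟩)
    · exact ⟨j, rfl⟩
    · exact j.elim
  obtain ⟨F, hF⟩ := hle key
  exact ⟨F, hF.symm⟩

/-- If the variables `r i` of a seed lie in a factorial ring `R`, each mutable `r k` is coprime to
all other `r i` and to its mutation, which lies in `R`, and all `r i` have positive values at some
point, then all cluster variables lie in `R`. -/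
theorem integral (hψ : Function.Injective ψ) {N : Set I} {B : I → I → ℤ}
    (hskew : ∀ i j, B i j = -B j i)
    (hrank : ∀ v : I → ℤ, (∀ j, j ∉ N → v j = 0) → (∀ i, ∑ j, B i j * v j = 0) → v = 0)
    {r : I → R} {f : I} (hf : f ∉ N) (ev : R →+* ℤ) (hpos : ∀ i, 0 < ev (r i))
    (hcop : ∀ k ∈ N, ∀ i, i ≠ k → ∀ π, Prime π → π ∣ r k → ¬ π ∣ r i)
    (hmut : ∀ k ∈ N, ∃ r', r k * r' = exch B r k ∧ ∀ π, Prime π → π ∣ r k → ¬ π ∣ r')
    {s' : Seed I K} (h : Reach N ⟨fun i => ψ (r i), B⟩ s') (i : I) : ∃ F : R, s'.x i = ψ F := by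
  obtain ⟨K₀, _, x, hx⟩ := exists_algebraicIndependent I
  exact integral_aux hx hψ hskew hrank hf ev hpos hcop hmut h i

end Main

end Pool.Agent.H489R3
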