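import Mathlib
import Pool.Agent.H489R3.MinorsCoprime
import Pool.Agent.H489R3.Starfish

set_option autoImplicit false
set_option linter.unusedSectionVars false

/-!
# The rectangles seed of the Grassmannian `Gr(k, k + m)`
-/

namespace Pool.Agent.H489R3

open Finset

variable {k m : ℕ}

noncomputable instance : DecidableRel (arrow (k := k) (m := m)) := fun _ _ =>
  Classical.propDecidable _

/-- The Plücker coordinate at a vertex. -/
noncomputable def rvar (k m : ℕ) (v : Vtx k m) : MvPolynomial (Fin k × Fin (k + m)) ℤ :=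
  plucker k (k + m) (vset k m v)

theorem rectB_skew (u v : Vtx k m) : rectB k m u v = -rectB k m v u := by
  simp only [rectB]; ring

theorem arrow_some {a a' : Fin k} {b b' : Fin m} :
    arrow (some (a, b)) (some (a', b')) ↔ ((a' : ℕ) = a ∧ (b' : ℕ) = b + 1) ∨
      ((a' : ℕ) = a + 1 ∧ (b' : ℕ) = b) ∨ ((a : ℕ) = a' + 1 ∧ (b : ℕ) = b' + 1) := by
  constructor
  · rintro (⟨_, _, h, _⟩ | ⟨a1, b1, a2, b2, h1, h2, h3⟩)
    · exact absurd h (by simp)
    · rw [Option.some.injEq, Prod.mk.injEq] at h1 h2
      obtain ⟨rfl, rfl⟩ := h1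
      obtain ⟨rfl, rfl⟩ := h2
      exact h3
  · intro h
    exact Or.inr ⟨a, b, a', b', rfl, rfl, h⟩

theorem arrow_none_some {a' : Fin k} {b' : Fin m} :
    arrow none (some (a', b')) ↔ (a' : ℕ) = 0 ∧ (b' : ℕ) = 0 := by
  constructor
  · rintro (⟨a2, b2, _, h2, h3⟩ | ⟨_, _, _, _, h1, _, _⟩)
    · rw [Option.some.injEq, Prod.mk.injEq] at h2
      obtain ⟨rfl, rfl⟩ := h2
      exact h3
    · exact absurd h1 (by simp)
  · intro h
    exact Or.inl ⟨a', b', rfl, rfl, h⟩

theorem not_arrow_none (u : Vtx k m) : ¬ arrow u none := by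
  rintro (⟨_, _, _, h, _⟩ | ⟨_, _, _, _, _, h, _⟩)
  · exact absurd h (by simp)
  · exact absurd h (by simp)

theorem arrow_asymm {u v : Vtx k m} (h : arrow u v) : ¬ arrow v u := by
  rcases u with _ | ⟨a, b⟩ <;> rcases v with _ | ⟨a', b'⟩
  · exact not_arrow_none _
  · exact not_arrow_none _
  · exact absurd h (not_arrow_none _)
  · rw [arrow_some] at h ⊢
    omega

theorem mem_rect {a b : ℕ} {j : Fin (k + m)} :
    j ∈ rect k m a b ↔ (j : ℕ) < k - a ∨ (k - a + b ≤ (j : ℕ) ∧ (j : ℕ) < k + b) := by
  simp [rect]

theorem rect_card {a b : ℕ} (ha : a ≤ k) (hb : b ≤ m) : (rect k m a b).card = k := by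
  classical
  have h1 : (rect k m a b).map ⟨Fin.val, Fin.val_injective⟩ =
      range (k - a) ∪ Ico (k - a + b) (k + b) := by
    ext j
    simp only [mem_map, mem_rect, Function.Embedding.coeFn_mk, mem_union, mem_range, mem_Ico]
    constructor
    · rintro ⟨j, hj, rfl⟩; exact hj
    · intro hj
      refine ⟨⟨j, by omega⟩, hj, rfl⟩
  rw [← card_map, h1, card_union_of_disjoint, card_range, Nat.card_Ico]
  · omega
  · rw [disjoint_left]
    intro j hj hj'
    rw [mem_range] at hj
    rw [mem_Ico] at hj'
    omega

theorem vset_card (v : Vtx k m) : (vset k m v).card = k := by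
  rcases v with _ | ⟨a, b⟩
  · exact rect_card (by omega) (by omega)
  · exact rect_card (by omega) (by omega)

theorem vset_injective (hm : 0 < m) : Function.Injective (vset k m) := by
  have key : ∀ (a b a' b' : ℕ), a ≤ k → b ≤ m → a' ≤ k → b' ≤ m → 0 < a → 0 < b →
      rect k m a b = rect k m a' b' → a = a' ∧ b = b' := by
    intro a b a' b' ha hb ha' hb' h0 h0' heq
    have hiff : ∀ j : ℕ, j < k + m →
        ((j < k - a ∨ (k - a + b ≤ j ∧ j < k + b)) ↔
          (j < k - a' ∨ (k - a' + b' ≤ j ∧ j < k + b'))) := by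
      intro j hj
      have := Finset.ext_iff.1 heq ⟨j, hj⟩
      rw [mem_rect, mem_rect] at this
      exact this
    have e1 := hiff (k - a) (by omega)
    have e2 := hiff (k - a') (by omega)
    have e3 := hiff (k + b - 1) (by omega)
    have e4 := hiff (k + b' - 1) (by omega)
    omega
  intro u v huv
  rcases u with _ | ⟨a, b⟩ <;> rcases v with _ | ⟨a', b'⟩
  · rfl
  · exfalso
    have := key (a' + 1) (b' + 1) 0 0 (by omega) (by omega) (by omega) (by omega) (by omega)
      (by omega) huv.symm
    omega
  · exfalso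
    have := key (a + 1) (b + 1) 0 0 (by omega) (by omega) (by omega) (by omega) (by omega)
      (by omega) huv
    omega
  · have := key (a + 1) (b + 1) (a' + 1) (b' + 1) (by omega) (by omega) (by omega) (by omega)
      (by omega) (by omega) huv
    have h1 : a = a' := Fin.ext (by omega)
    have h2 : b = b' := Fin.ext (by omega)
    rw [h1, h2]

theorem rect_zero_right (a : ℕ) (ha : a ≤ k) : rect k m a 0 = rect k m 0 0 := by
  ext j
  rw [mem_rect, mem_rect]
  omega

theorem rect_zero_left (b : ℕ) : rect k m 0 b = rect k m 0 0 := by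
  ext j
  rw [mem_rect, mem_rect]
  omega

/-- The mutable columns of the rectangles quiver are linearly independent. -/
theorem rectB_rank (v : Vtx k m → ℤ) (hv : ∀ j, j ∉ mutable k m → v j = 0)
    (h : ∀ i, ∑ j, rectB k m i j * v j = 0) : v = 0 := by
  classical
  have key : ∀ s : ℕ, ∀ (a : Fin k) (b : Fin m), k + m - ((a : ℕ) + b) ≤ s → v (some (a, b)) = 0 := by
    intro s
    induction s with
    | zero => intro a b hs; omega
    | succ s ih =>
      intro a b hs
      by_cases hab : (a : ℕ) + 1 < k ∧ (b : ℕ) + 1 < m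
      · obtain ⟨ha, hb⟩ := hab
        have h1 := h (some (⟨(a : ℕ) + 1, ha⟩, ⟨(b : ℕ) + 1, hb⟩))
        rw [sum_eq_single (some (a, b))] at h1
        · have h2 : rectB k m (some (⟨(a : ℕ) + 1, ha⟩, ⟨(b : ℕ) + 1, hb⟩)) (some (a, b)) = 1 := by
            have ha1 : arrow (some ((⟨(a : ℕ) + 1, ha⟩, ⟨(b : ℕ) + 1, hb⟩) : Fin k × Fin m))
                (some (a, b)) := arrow_some.2 (Or.inr (Or.inr ⟨rfl, rfl⟩))
            simp only [rectB]
            rw [if_pos ha1, if_neg (arrow_asymm ha1)]
            rfl
          rw [h2, one_mul] at h1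
          exact h1
        · intro j _ hj
          rcases j with _ | ⟨c, d⟩
          · rw [hv none, mul_zero]
            rintro ⟨_, _, h3, _⟩
            exact absurd h3 (by simp)
          · by_cases hB : rectB k m (some (⟨(a : ℕ) + 1, ha⟩, ⟨(b : ℕ) + 1, hb⟩)) (some (c, d)) = 0
            · rw [hB, zero_mul]
            · have hne : ¬ ((c : ℕ) = a ∧ (d : ℕ) = b) := by
                rintro ⟨h3, h4⟩
                apply hj
                rw [Fin.ext h3, Fin.ext h4]
              have hgt : (a : ℕ) + b < c + d := by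
                by_contra hle
                apply hB
                have n1 : ¬ arrow (some ((⟨(a : ℕ) + 1, ha⟩, ⟨(b : ℕ) + 1, hb⟩) : Fin k × Fin m))
                    (some (c, d)) := by
                  rw [arrow_some]; simp only; omega
                have n2 : ¬ arrow (some (c, d))
                    (some ((⟨(a : ℕ) + 1, ha⟩, ⟨(b : ℕ) + 1, hb⟩) : Fin k × Fin m)) := by
                  rw [arrow_some]; simp only; omega
                simp only [rectB]
                rw [if_neg n1, if_neg n2]
                rfl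
              rw [ih c d (by omega), mul_zero]
        · intro h3; exact absurd (mem_univ _) h3
      · refine hv _ ?_
        rintro ⟨a', b', h3, h4, h5⟩
        rw [Option.some.injEq, Prod.mk.injEq] at h3
        rw [← h3.1] at h4
        rw [← h3.2] at h5
        exact hab ⟨h4, h5⟩
  funext j
  rcases j with _ | ⟨a, b⟩
  · refine hv _ ?_
    rintro ⟨_, _, h3, _⟩
    exact absurd h3 (by simp)
  · exact key (k + m) a b (by omega)

/-- The exchange binomial of the rectangles quiver as a sum of products over arrows. -/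
theorem exch_rect {A : Type*} [CommSemiring A] (x : Vtx k m → A) (v : Vtx k m) :
    exch (rectB k m) x v = ∏ u ∈ univ.filter (fun u => arrow u v), x u +
      ∏ u ∈ univ.filter (fun u => arrow v u), x u := by
  unfold exch
  rw [prod_filter, prod_filter]
  congr 1 <;> refine prod_congr rfl fun u _ => ?_
  · simp only [rectB]
    by_cases h : arrow u v
    · rw [if_pos h, if_pos h, if_neg (arrow_asymm h)]; simp
    · rw [if_neg h, if_neg h]
      split_ifs <;> simp
  · simp only [rectB]
    by_cases h : arrow v u
    · rw [if_pos h, if_pos h, if_neg (arrow_asymm h)]; simp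
    · rw [if_neg h, if_neg h]
      split_ifs <;> simp

end Pool.Agent.H489R3
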