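import Mathlib
import Pool.Agent.H489R3.Grass

set_option autoImplicit false
set_option linter.unusedSectionVars false

/-!
# The mutations of the rectangles seed
-/

namespace Pool.Agent.H489R3

open Finset

variable {k m : ℕ}

/-- `{0, …, l₁ - 1} ∪ {l₂, …, l₃ - 1}` -/
def core (n l₁ l₂ l₃ : ℕ) : Finset (Fin n) :=
  univ.filter fun j => (j : ℕ) < l₁ ∨ (l₂ ≤ (j : ℕ) ∧ (j : ℕ) < l₃)

theorem mem_core {n l₁ l₂ l₃ : ℕ} {j : Fin n} :
    j ∈ core n l₁ l₂ l₃ ↔ (j : ℕ) < l₁ ∨ (l₂ ≤ (j : ℕ) ∧ (j : ℕ) < l₃) := by
  simp [core]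

theorem core_card {n l₁ l₂ l₃ : ℕ} (h1 : l₁ ≤ l₂) (h2 : l₂ ≤ l₃) (h3 : l₃ ≤ n) :
    (core n l₁ l₂ l₃).card = l₁ + (l₃ - l₂) := by
  classical
  have h4 : (core n l₁ l₂ l₃).map ⟨Fin.val, Fin.val_injective⟩ = range l₁ ∪ Ico l₂ l₃ := by
    ext j
    simp only [mem_map, mem_core, Function.Embedding.coeFn_mk, mem_union, mem_range, mem_Ico]
    constructor
    · rintro ⟨j, hj, rfl⟩; exact hj
    · intro hj
      exact ⟨⟨j, by omega⟩, hj, rfl⟩
  rw [← card_map, h4, card_union_of_disjoint, card_range, Nat.card_Ico]
  rw [disjoint_left]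
  intro j hj hj'
  rw [mem_range] at hj
  rw [mem_Ico] at hj'
  omega

/-- Plücker coordinates of rectangles, with natural number indices. -/
noncomputable def rv (k m a b : ℕ) : MvPolynomial (Fin k × Fin (k + m)) ℤ :=
  plucker k (k + m) (rect k m a b)

theorem rvar_some (a : Fin k) (b : Fin m) : rvar k m (some (a, b)) = rv k m (a + 1) (b + 1) := rfl

theorem rvar_none : rvar k m none = rv k m 0 0 := rfl

section Products

variable {a : Fin k} {b : Fin m} (ha : (a : ℕ) + 1 < k) (hb : (b : ℕ) + 1 < m)

include ha hb in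
theorem out_boundary (h0 : (a : ℕ) = 0 ∨ (b : ℕ) = 0) :
    ∏ u ∈ univ.filter (fun u => arrow (some (a, b)) u), rvar k m u =
      rv k m (a + 1) (b + 2) * rv k m (a + 2) (b + 1) := by
  classical
  have : univ.filter (fun u => arrow (some (a, b)) u) =
      {some (a, ⟨b + 1, hb⟩), some (⟨a + 1, ha⟩, b)} := by
    ext u
    rcases u with _ | ⟨c, d⟩
    · simp [not_arrow_none]
    · simp only [mem_filter, mem_univ, true_and, arrow_some, mem_insert, mem_singleton,
        Option.some.injEq, Prod.mk.injEq, Fin.ext_iff]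
      omega
  rw [this, prod_pair]
  · rfl
  · simp only [ne_eq, Option.some.injEq, Prod.mk.injEq, Fin.ext_iff]
    omega

include ha hb in
theorem out_interior (h0 : 0 < (a : ℕ)) (h0' : 0 < (b : ℕ)) :
    ∏ u ∈ univ.filter (fun u => arrow (some (a, b)) u), rvar k m u =
      rv k m (a + 1) (b + 2) * (rv k m (a + 2) (b + 1) * rv k m a b) := by
  classical
  have : univ.filter (fun u => arrow (some (a, b)) u) =
      {some (a, ⟨b + 1, hb⟩), some (⟨a + 1, ha⟩, b), some (⟨a - 1, by omega⟩, ⟨b - 1, by omega⟩)} := by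
    ext u
    rcases u with _ | ⟨c, d⟩
    · simp [not_arrow_none]
    · simp only [mem_filter, mem_univ, true_and, arrow_some, mem_insert, mem_singleton,
        Option.some.injEq, Prod.mk.injEq, Fin.ext_iff]
      omega
  rw [this, prod_insert, prod_pair]
  · simp only [rvar_some]
    have e1 : (a : ℕ) - 1 + 1 = a := by omega
    have e2 : (b : ℕ) - 1 + 1 = b := by omega
    rw [e1, e2]
  · simp only [ne_eq, Option.some.injEq, Prod.mk.injEq, Fin.ext_iff]
    omega
  · simp only [mem_insert, mem_singleton, Option.some.injEq, Prod.mk.injEq, Fin.ext_iff]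
    omega

include ha hb in
theorem in_left (h0 : (a : ℕ) = 0) :
    ∏ u ∈ univ.filter (fun u => arrow u (some (a, b))), rvar k m u =
      rv k m (a + 1) b * rv k m (a + 2) (b + 2) := by
  classical
  rcases Nat.eq_zero_or_pos (b : ℕ) with hb0 | hb0
  · have : univ.filter (fun u => arrow u (some (a, b))) =
        {none, some (⟨a + 1, ha⟩, ⟨b + 1, hb⟩)} := by
      ext u
      rcases u with _ | ⟨c, d⟩
      · simp [arrow_none_some, h0, hb0]
      · simp only [mem_filter, mem_univ, true_and, arrow_some, mem_insert, mem_singleton,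
          Option.some.injEq, Prod.mk.injEq, Fin.ext_iff, reduceCtorEq, false_or]
        omega
    have e : rv k m 0 0 = rv k m (a + 1) b := by
      rw [rv, rv, hb0, rect_zero_right ((a : ℕ) + 1) (by omega)]
    rw [this, prod_pair (by simp), rvar_none, rvar_some, e]
  · have : univ.filter (fun u => arrow u (some (a, b))) =
        {some (a, ⟨b - 1, by omega⟩), some (⟨a + 1, ha⟩, ⟨b + 1, hb⟩)} := by
      ext u
      rcases u with _ | ⟨c, d⟩
      · simp only [mem_filter, mem_univ, true_and, arrow_none_some, mem_insert, mem_singleton,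
          reduceCtorEq, or_false, iff_false]
        omega
      · simp only [mem_filter, mem_univ, true_and, arrow_some, mem_insert, mem_singleton,
          Option.some.injEq, Prod.mk.injEq, Fin.ext_iff]
        omega
    rw [this, prod_pair]
    · simp only [rvar_some]
      have e2 : (b : ℕ) - 1 + 1 = b := by omega
      rw [e2]
    · simp only [ne_eq, Option.some.injEq, Prod.mk.injEq, Fin.ext_iff]
      omega

include ha hb in
theorem in_top (h0 : (b : ℕ) = 0) :
    ∏ u ∈ univ.filter (fun u => arrow u (some (a, b))), rvar k m u =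
      rv k m a (b + 1) * rv k m (a + 2) (b + 2) := by
  classical
  rcases Nat.eq_zero_or_pos (a : ℕ) with ha0 | ha0
  · have : univ.filter (fun u => arrow u (some (a, b))) =
        {none, some (⟨a + 1, ha⟩, ⟨b + 1, hb⟩)} := by
      ext u
      rcases u with _ | ⟨c, d⟩
      · simp [arrow_none_some, h0, ha0]
      · simp only [mem_filter, mem_univ, true_and, arrow_some, mem_insert, mem_singleton,
          Option.some.injEq, Prod.mk.injEq, Fin.ext_iff, reduceCtorEq, false_or]
        omega
    have e : rv k m 0 0 = rv k m a (b + 1) := by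
      rw [rv, rv, ha0, rect_zero_left ((b : ℕ) + 1)]
    rw [this, prod_pair (by simp), rvar_none, rvar_some, e]
  · have : univ.filter (fun u => arrow u (some (a, b))) =
        {some (⟨a - 1, by omega⟩, b), some (⟨a + 1, ha⟩, ⟨b + 1, hb⟩)} := by
      ext u
      rcases u with _ | ⟨c, d⟩
      · simp only [mem_filter, mem_univ, true_and, arrow_none_some, mem_insert, mem_singleton,
          reduceCtorEq, or_false, iff_false]
        omega
      · simp only [mem_filter, mem_univ, true_and, arrow_some, mem_insert, mem_singleton,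
          Option.some.injEq, Prod.mk.injEq, Fin.ext_iff]
        omega
    rw [this, prod_pair]
    · simp only [rvar_some]
      have e2 : (a : ℕ) - 1 + 1 = a := by omega
      rw [e2]
    · simp only [ne_eq, Option.some.injEq, Prod.mk.injEq, Fin.ext_iff]
      omega

include ha hb in
theorem in_interior (h0 : 0 < (a : ℕ)) (h0' : 0 < (b : ℕ)) :
    ∏ u ∈ univ.filter (fun u => arrow u (some (a, b))), rvar k m u =
      rv k m (a + 2) (b + 2) * (rv k m (a + 1) b * rv k m a (b + 1)) := by
  classical
  have : univ.filter (fun u => arrow u (some (a, b))) =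
      {some (⟨a + 1, ha⟩, ⟨b + 1, hb⟩), some (a, ⟨b - 1, by omega⟩), some (⟨a - 1, by omega⟩, b)} := by
    ext u
    rcases u with _ | ⟨c, d⟩
    · simp only [mem_filter, mem_univ, true_and, arrow_none_some, mem_insert, mem_singleton,
        reduceCtorEq, or_false, iff_false]
      omega
    · simp only [mem_filter, mem_univ, true_and, arrow_some, mem_insert, mem_singleton,
        Option.some.injEq, Prod.mk.injEq, Fin.ext_iff]
      omega
  rw [this, prod_insert, prod_pair]
  · simp only [rvar_some]
    have e1 : (a : ℕ) - 1 + 1 = a := by omega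
    have e2 : (b : ℕ) - 1 + 1 = b := by omega
    rw [e1, e2]
  · simp only [ne_eq, Option.some.injEq, Prod.mk.injEq, Fin.ext_iff]
    omega
  · simp only [mem_insert, mem_singleton, Option.some.injEq, Prod.mk.injEq, Fin.ext_iff]
    omega

end Products

/-- the three-term relation on the left boundary -/
theorem rel_left {K m b : ℕ} (hb : b + 1 < m) :
    ∃ S : Finset (Fin (K + 2 + m)), S.card = K + 2 ∧ (∃ j ∈ S, (j : ℕ) = K + 2 + (b + 1)) ∧
      rv (K + 2) m 1 (b + 1) * plucker (K + 2) (K + 2 + m) S =
        rv (K + 2) m 1 b * rv (K + 2) m 2 (b + 2) + rv (K + 2) m 1 (b + 2) * rv (K + 2) m 2 (b + 1) := by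
  classical
  let al : Fin (K + 2 + m) := ⟨K, by omega⟩
  let be : Fin (K + 2 + m) := ⟨K + 2 + (b + 1) - 2, by omega⟩
  let ga : Fin (K + 2 + m) := ⟨K + 2 + (b + 1) - 1, by omega⟩
  let de : Fin (K + 2 + m) := ⟨K + 2 + (b + 1), by omega⟩
  let N : Finset (Fin (K + 2 + m)) := core (K + 2 + m) K K K
  have hN : N.card = K := by
    rw [core_card le_rfl le_rfl (by omega)]; omega
  have hα : al ∉ N := by simp only [N, mem_core, al]; omega
  have hβ : be ∉ N := by simp only [N, mem_core, be]; omega
  have hγ : ga ∉ N := by simp only [N, mem_core, ga]; omega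
  have hδ : de ∉ N := by simp only [N, mem_core, de]; omega
  have h1 : al < be := by simp only [Fin.lt_def, al, be]; omega
  have h2 : be < ga := by simp only [Fin.lt_def, ga, be]; omega
  have h3 : ga < de := by simp only [Fin.lt_def, ga, de]; omega
  have key := plucker_three_term hN h1 h2 h3 hα hβ hγ hδ
  refine ⟨insert be (insert de N), ?_, ⟨de, by simp, rfl⟩, ?_⟩
  · rw [card_insert_of_notMem, card_insert_of_notMem hδ, hN]
    rw [mem_insert, not_or]
    exact ⟨(h2.trans h3).ne, hβ⟩
  · have e1 : insert al (insert ga N) = rect (K + 2) m 1 (b + 1) := by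
      ext j
      simp only [mem_insert, N, mem_core, mem_rect, al, ga, Fin.ext_iff]
      omega
    have e2 : insert al (insert be N) = rect (K + 2) m 1 b := by
      ext j
      simp only [mem_insert, N, mem_core, mem_rect, al, be, Fin.ext_iff]
      omega
    have e3 : insert ga (insert de N) = rect (K + 2) m 2 (b + 2) := by
      ext j
      simp only [mem_insert, N, mem_core, mem_rect, ga, de, Fin.ext_iff]
      omega
    have e4 : insert al (insert de N) = rect (K + 2) m 1 (b + 2) := by
      ext j
      simp only [mem_insert, N, mem_core, mem_rect, al, de, Fin.ext_iff]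
      omega
    have e5 : insert be (insert ga N) = rect (K + 2) m 2 (b + 1) := by
      ext j
      simp only [mem_insert, N, mem_core, mem_rect, be, ga, Fin.ext_iff]
      omega
    rw [e1, e2, e3, e4, e5] at key
    exact key

/-- the three-term relation on the top boundary -/
theorem rel_top {K m a : ℕ} (ha : a + 1 < K + 2) (hm : 1 < m) :
    ∃ S : Finset (Fin (K + 2 + m)), S.card = K + 2 ∧ (∃ j ∈ S, (j : ℕ) = K + 2 + 1) ∧
      rv (K + 2) m (a + 1) 1 * plucker (K + 2) (K + 2 + m) S =
        rv (K + 2) m a 1 * rv (K + 2) m (a + 2) 2 + rv (K + 2) m (a + 1) 2 * rv (K + 2) m (a + 2) 1 := by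
  classical
  obtain ⟨p, hp⟩ : ∃ p, p + (a + 1) = K + 2 := ⟨K + 2 - (a + 1), by omega⟩
  let al : Fin (K + 2 + m) := ⟨p - 1, by omega⟩
  let be : Fin (K + 2 + m) := ⟨p, by omega⟩
  let ga : Fin (K + 2 + m) := ⟨p + 1, by omega⟩
  let de : Fin (K + 2 + m) := ⟨K + 2 + 1, by omega⟩
  let N : Finset (Fin (K + 2 + m)) := core (K + 2 + m) (p - 1) (p + 2) (K + 2 + 1)
  have hN : N.card = K := by
    rw [core_card (by omega) (by omega) (by omega)]; omega
  have hα : al ∉ N := by simp only [N, mem_core, al]; omega
  have hβ : be ∉ N := by simp only [N, mem_core, be]; omega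
  have hγ : ga ∉ N := by simp only [N, mem_core, ga]; omega
  have hδ : de ∉ N := by simp only [N, mem_core, de]; omega
  have h1 : al < be := by simp only [Fin.lt_def, al, be]; omega
  have h2 : be < ga := by simp only [Fin.lt_def, ga, be]; omega
  have h3 : ga < de := by simp only [Fin.lt_def, ga, de]; omega
  have key := plucker_three_term hN h1 h2 h3 hα hβ hγ hδ
  refine ⟨insert be (insert de N), ?_, ⟨de, by simp, rfl⟩, ?_⟩
  · rw [card_insert_of_notMem, card_insert_of_notMem hδ, hN]
    rw [mem_insert, not_or]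
    exact ⟨(h2.trans h3).ne, hβ⟩
  · have e1 : insert al (insert ga N) = rect (K + 2) m (a + 1) 1 := by
      ext j
      simp only [mem_insert, N, mem_core, mem_rect, al, ga, Fin.ext_iff]
      omega
    have e2 : insert al (insert be N) = rect (K + 2) m a 1 := by
      ext j
      simp only [mem_insert, N, mem_core, mem_rect, al, be, Fin.ext_iff]
      omega
    have e3 : insert ga (insert de N) = rect (K + 2) m (a + 2) 2 := by
      ext j
      simp only [mem_insert, N, mem_core, mem_rect, ga, de, Fin.ext_iff]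
      omega
    have e4 : insert al (insert de N) = rect (K + 2) m (a + 1) 2 := by
      ext j
      simp only [mem_insert, N, mem_core, mem_rect, al, de, Fin.ext_iff]
      omega
    have e5 : insert be (insert ga N) = rect (K + 2) m (a + 2) 1 := by
      ext j
      simp only [mem_insert, N, mem_core, mem_rect, be, ga, Fin.ext_iff]
      omega
    rw [e1, e2, e3, e4, e5] at key
    exact key

/-- the mutation in the interior -/
theorem rel_interior {K m a b : ℕ} (ha : a + 1 < K + 2) (hb : b + 1 < m) (ha0 : 0 < a)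
    (hb0 : 0 < b) :
    ∃ r' : MvPolynomial (Fin (K + 2) × Fin (K + 2 + m)) ℤ,
      rv (K + 2) m (a + 1) (b + 1) * r' =
        rv (K + 2) m (a + 2) (b + 2) * (rv (K + 2) m (a + 1) b * rv (K + 2) m a (b + 1)) +
        rv (K + 2) m (a + 1) (b + 2) * (rv (K + 2) m (a + 2) (b + 1) * rv (K + 2) m a b) ∧
      ∀ π, Prime π → π ∣ rv (K + 2) m (a + 1) (b + 1) → ¬ π ∣ r' := by
  classical
  obtain ⟨p, hp⟩ : ∃ p, p + (a + 1) = K + 2 := ⟨K + 2 - (a + 1), by omega⟩
  let A : Fin (K + 2 + m) := ⟨p - 1, by omega⟩
  let B : Fin (K + 2 + m) := ⟨p, by omega⟩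
  let C : Fin (K + 2 + m) := ⟨p + b, by omega⟩
  let D : Fin (K + 2 + m) := ⟨p + b + 1, by omega⟩
  let E : Fin (K + 2 + m) := ⟨K + 2 + b, by omega⟩
  let F : Fin (K + 2 + m) := ⟨K + 2 + b + 1, by omega⟩
  let N1 : Finset (Fin (K + 2 + m)) := core (K + 2 + m) (p - 1) (p + b + 2) (K + 2 + b + 1)
  let N2 : Finset (Fin (K + 2 + m)) := core (K + 2 + m) (p - 1) (p + b + 1) (K + 2 + b)
  have hN1 : N1.card = K := by
    rw [core_card (by omega) (by omega) (by omega)]; omega
  have hN2 : N2.card = K := by
    rw [core_card (by omega) (by omega) (by omega)]; omega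
  have hA1 : A ∉ N1 := by simp only [N1, mem_core, A]; omega
  have hB1 : B ∉ N1 := by simp only [N1, mem_core, B]; omega
  have hD1 : D ∉ N1 := by simp only [N1, mem_core, D]; omega
  have hF1 : F ∉ N1 := by simp only [N1, mem_core, F]; omega
  have hA2 : A ∉ N2 := by simp only [N2, mem_core, A]; omega
  have hB2 : B ∉ N2 := by simp only [N2, mem_core, B]; omega
  have hC2 : C ∉ N2 := by simp only [N2, mem_core, C]; omega
  have hE2 : E ∉ N2 := by simp only [N2, mem_core, E]; omega
  have hAB : A < B := by simp only [Fin.lt_def, A, B]; omega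
  have hBC : B < C := by simp only [Fin.lt_def, B, C]; omega
  have hCE : C < E := by simp only [Fin.lt_def, C, E]; omega
  have hBD : B < D := by simp only [Fin.lt_def, B, D]; omega
  have hDF : D < F := by simp only [Fin.lt_def, D, F]; omega
  have key1 := plucker_three_term hN1 hAB hBD hDF hA1 hB1 hD1 hF1
  have key2 := plucker_three_term hN2 hAB hBC hCE hA2 hB2 hC2 hE2
  have e1 : insert A (insert D N1) = rect (K + 2) m (a + 1) (b + 1) := by
    ext j
    simp only [mem_insert, N1, mem_core, mem_rect, A, D, Fin.ext_iff]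
    omega
  have e2 : insert A (insert B N1) = rect (K + 2) m a (b + 1) := by
    ext j
    simp only [mem_insert, N1, mem_core, mem_rect, A, B, Fin.ext_iff]
    omega
  have e3 : insert D (insert F N1) = rect (K + 2) m (a + 2) (b + 2) := by
    ext j
    simp only [mem_insert, N1, mem_core, mem_rect, D, F, Fin.ext_iff]
    omega
  have e4 : insert A (insert F N1) = rect (K + 2) m (a + 1) (b + 2) := by
    ext j
    simp only [mem_insert, N1, mem_core, mem_rect, A, F, Fin.ext_iff]
    omega
  have f1 : insert A (insert C N2) = rect (K + 2) m (a + 1) b := by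
    ext j
    simp only [mem_insert, N2, mem_core, mem_rect, A, C, Fin.ext_iff]
    omega
  have f2 : insert A (insert B N2) = rect (K + 2) m a b := by
    ext j
    simp only [mem_insert, N2, mem_core, mem_rect, A, B, Fin.ext_iff]
    omega
  have f3 : insert C (insert E N2) = rect (K + 2) m (a + 2) (b + 1) := by
    ext j
    simp only [mem_insert, N2, mem_core, mem_rect, C, E, Fin.ext_iff]
    omega
  have f4 : insert A (insert E N2) = rect (K + 2) m (a + 1) (b + 1) := by
    ext j
    simp only [mem_insert, N2, mem_core, mem_rect, A, E, Fin.ext_iff]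
    omega
  have f5 : insert B (insert E N2) = insert B (insert D N1) := by
    ext j
    simp only [mem_insert, N1, N2, mem_core, B, D, E, Fin.ext_iff]
    omega
  rw [e1, e2, e3, e4] at key1
  rw [f1, f2, f3, f4, f5] at key2
  refine ⟨rv (K + 2) m (a + 1) b * plucker (K + 2) (K + 2 + m) (insert B (insert F N1)) -
    rv (K + 2) m (a + 1) (b + 2) * plucker (K + 2) (K + 2 + m) (insert B (insert C N2)), ?_, ?_⟩
  · simp only [rv] at *
    linear_combination plucker (K + 2) (K + 2 + m) (rect (K + 2) m (a + 1) b) * key1 +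
      plucker (K + 2) (K + 2 + m) (rect (K + 2) m (a + 1) (b + 2)) * key2
  · intro π hπ h1 h2
    have hcard : (rect (K + 2) m (a + 1) (b + 1)).card = K + 2 := rect_card (by omega) (by omega)
    have hBr : B ∉ rect (K + 2) m (a + 1) (b + 1) := by simp only [mem_rect, B]; omega
    have hπB : ∀ i, π ∈ noVar (i, B) := fun i =>
      dvd_noVar (plucker_ne_zero hcard) h1 (plucker_noVar hBr i)
    have h3 := map_dvd (subst (K + 2) B D) h2
    rw [subst_of_noVar hπB, map_sub, map_mul, map_mul] at h3
    have hz : subst (K + 2) B D (plucker (K + 2) (K + 2 + m) (insert B (insert C N2))) = 0 := by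
      refine subst_plucker_zero ?_ (mem_insert_self _ _) ?_ hBD.ne
      · rw [card_insert_of_notMem, card_insert_of_notMem hC2, hN2]
        rw [mem_insert, not_or]
        exact ⟨hBC.ne, hB2⟩
      · refine mem_insert_of_mem (mem_insert_of_mem ?_)
        simp only [N2, mem_core, D]
        omega
    have hfix : subst (K + 2) B D (rv (K + 2) m (a + 1) b) = rv (K + 2) m (a + 1) b := by
      refine subst_of_noVar fun i => plucker_noVar ?_ i
      simp only [mem_rect, B]
      omega
    have hBF : B ∉ insert F N1 := by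
      rw [mem_insert, not_or]
      exact ⟨(hBD.trans hDF).ne, hB1⟩
    have hDF' : D ∉ insert F N1 := by
      rw [mem_insert, not_or]
      exact ⟨hDF.ne, hD1⟩
    obtain ⟨ε, hε, hsub⟩ := subst_plucker_insert (k := K + 2) hBF hDF' hBD.ne (by
      rw [card_insert_of_notMem hBF, card_insert_of_notMem hF1, hN1])
    rw [hz, mul_zero, sub_zero, hfix, hsub, e3] at h3
    have hεu : IsUnit (ε : MvPolynomial (Fin (K + 2) × Fin (K + 2 + m)) ℤ) := by
      rcases hε with rfl | rfl
      · simp
      · simp
    rcases hπ.dvd_or_dvd h3 with h4 | h4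
    · refine plucker_coprime hcard (rect_card (by omega) (by omega)) ?_ hπ h1 h4
      intro heq
      have := Finset.ext_iff.1 heq E
      simp only [mem_rect, E] at this
      omega
    · rw [hεu.dvd_mul_left] at h4
      refine plucker_coprime hcard (rect_card (by omega) (by omega)) ?_ hπ h1 h4
      intro heq
      have := Finset.ext_iff.1 heq F
      simp only [mem_rect, F] at this
      omega

/-- Every mutation of the rectangles seed stays in the polynomial ring, and the new variable is
coprime to the old one. -/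
theorem rect_mut (v : Vtx k m) (hv : v ∈ mutable k m) :
    ∃ r', rvar k m v * r' = exch (rectB k m) (rvar k m) v ∧
      ∀ π, Prime π → π ∣ rvar k m v → ¬ π ∣ r' := by
  obtain ⟨a, b, rfl, ha, hb⟩ := hv
  obtain ⟨K, rfl⟩ : ∃ K, k = K + 2 := ⟨k - 2, by omega⟩
  have hcard : (rect (K + 2) m (a + 1) (b + 1)).card = K + 2 := rect_card (by omega) (by omega)
  rcases Nat.eq_zero_or_pos (a : ℕ) with ha0 | ha0
  · obtain ⟨S, hS, ⟨j, hjS, hj⟩, hrel⟩ := rel_left (K := K) hb
    refine ⟨plucker (K + 2) (K + 2 + m) S, ?_, ?_⟩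
    · rw [exch_rect, in_left ha hb ha0, out_boundary ha hb (Or.inl ha0), rvar_some, ha0]
      exact hrel
    · intro π hπ h1 h2
      refine plucker_coprime hcard hS ?_ hπ h1 h2
      rintro rfl
      rw [mem_rect] at hjS
      omega
  · rcases Nat.eq_zero_or_pos (b : ℕ) with hb0 | hb0
    · obtain ⟨S, hS, ⟨j, hjS, hj⟩, hrel⟩ := rel_top (K := K) (m := m) ha (by omega)
      refine ⟨plucker (K + 2) (K + 2 + m) S, ?_, ?_⟩
      · rw [exch_rect, in_top ha hb hb0, out_boundary ha hb (Or.inr hb0), rvar_some, hb0]
        exact hrel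
      · intro π hπ h1 h2
        refine plucker_coprime hcard hS ?_ hπ h1 h2
        rintro rfl
        rw [mem_rect] at hjS
        omega
    · obtain ⟨r', h1, h2⟩ := rel_interior (K := K) ha hb ha0 hb0
      refine ⟨r', ?_, h2⟩
      rw [exch_rect, in_interior ha hb ha0 hb0, out_interior ha hb ha0 hb0, rvar_some]
      exact h1

end Pool.Agent.H489R3
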