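import Mathlib
import Pool.Agent.H489R3.GrassMut

set_option autoImplicit false
set_option linter.unusedSectionVars false

/-!
# Cluster variables of the Grassmannian are polynomials with integer coefficients in the entries
of the generic matrix
-/

namespace Pool.Agent.H489R3

open Finset

section General

variable {I : Type*} [Fintype I] [DecidableEq I] {R T K : Type*} [CommRing R] [CommRing T]
  [IsDomain T] [Field K]

/-- Two homomorphisms agreeing on the initial variables agree on all cluster variables. -/
theorem agree_reach {ψ : R →+* K} (hψ : Function.Injective ψ) {N : Set I} {s₀ : Seed I K}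
    {σ ι : R →+* T} (hι : Function.Injective ι)
    (h0 : ∀ i F, s₀.x i = ψ F → σ F = ι F)
    (hex : ∀ s, Reach N s₀ s → ∀ i, ∃ F, s.x i = ψ F)
    (hne : ∀ s, Reach N s₀ s → ∀ i, s.x i ≠ 0)
    {s : Seed I K} (h : Reach N s₀ s) : ∀ i F, s.x i = ψ F → σ F = ι F := by
  induction h with
  | refl => exact h0
  | @step s k hs hk ih =>
    intro i F hF
    by_cases hik : i = k
    · subst hik
      choose G hG using hex s hs
      have h1 : ψ (F * G i) = ψ (exch s.B G i) := by
        rw [map_mul, ← hF, mutate_x_self, ← hG, div_mul_cancel₀ _ (hne s hs i)]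
        simp only [exch, map_add, map_prod, map_pow, hG]
      have h2 := hψ h1
      have hGag : ∀ j, σ (G j) = ι (G j) := fun j => ih j (G j) (hG j)
      have h3 : σ (exch s.B G i) = ι (exch s.B G i) := by
        simp only [exch, map_add, map_prod, map_pow, hGag]
      have h4 : σ F * ι (G i) = ι F * ι (G i) := by
        rw [← hGag i, ← map_mul, h2, h3, ← h2, map_mul, hGag i]
      have h5 : ι (G i) ≠ 0 := by
        intro h6
        have : G i = 0 := hι (by rw [h6, map_zero])
        exact hne s hs i (by rw [hG, this, map_zero])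
      exact mul_right_cancel₀ h5 h4
    · rw [mutate_x_ne hik] at hF
      exact ih i F hF

end General

variable {k m : ℕ}

theorem algMap_injective : Function.Injective
    (algebraMap (MvPolynomial (Fin k × Fin (k + m)) ℤ) (RatFun k m)) :=
  IsFractionRing.injective _ _

theorem none_not_mutable : (none : Vtx k m) ∉ mutable k m := by
  rintro ⟨_, _, h3, _⟩
  exact absurd h3 (by simp)

/-- All cluster variables are polynomials in the entries of the generic matrix. -/
theorem cluster_poly (hm : 0 < m) {s : Seed (Vtx k m) (RatFun k m)}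
    (h : Reach (mutable k m) (rectSeed k m) s) (v : Vtx k m) :
    ∃ F, s.x v = algebraMap (MvPolynomial (Fin k × Fin (k + m)) ℤ) (RatFun k m) F := by
  refine integral (ψ := algebraMap (MvPolynomial (Fin k × Fin (k + m)) ℤ) (RatFun k m))
    algMap_injective (B := rectB k m) rectB_skew rectB_rank (r := rvar k m) none_not_mutable
    (evV k (k + m)) (fun i => evV_plucker_pos (vset_card i)) ?_ rect_mut h v
  intro u _ i hi π hπ h1 h2
  exact plucker_coprime (vset_card u) (vset_card i) (fun h => hi (vset_injective hm h).symm) hπ h1 h2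

theorem cluster_ne_zero {s : Seed (Vtx k m) (RatFun k m)}
    (h : Reach (mutable k m) (rectSeed k m) s) (v : Vtx k m) : s.x v ≠ 0 := by
  have hp : ∀ i, PosP (algebraMap (MvPolynomial (Fin k × Fin (k + m)) ℤ) (RatFun k m))
      (evV k (k + m)) ((rectSeed k m).x i) := fun i =>
    ⟨rvar k m i, 1, evV_plucker_pos (vset_card i), by simp, by simp [rectSeed, rvar]⟩
  obtain ⟨h1, h2⟩ := pos_reach algMap_injective none_not_mutable (fun i _ => hp i) (hp none).nn h
  by_cases hi : v = none
  · subst hi; rw [h2]; exact (hp none).ne_zero algMap_injective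
  · exact (h1 v hi).ne_zero algMap_injective

/-! ### Evaluation at a matrix -/

theorem evalAt_X {k n : ℕ} (A : Matrix (Fin k) (Fin n) ℚ) (p : Fin k × Fin n) :
    evalAt A (MvPolynomial.X p) = A p.1 p.2 := by
  simp [evalAt]

theorem evalAt_plucker {k n : ℕ} (A : Matrix (Fin k) (Fin n) ℚ) {S : Finset (Fin n)}
    (h : S.card = k) : evalAt A (plucker k n S) = (A.submatrix id (S.orderEmbOfFin h)).det := by
  rw [plucker_eq h, RingHom.map_det]
  congr 1
  ext a b
  simp only [RingHom.mapMatrix_apply, Matrix.map_apply, Matrix.submatrix_apply, gen,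
    Matrix.of_apply, id_eq]
  rw [evalAt_X]

/-- `evalAt` at an integer matrix takes integer values. -/
theorem evalAt_int {k n : ℕ} {A : Matrix (Fin k) (Fin n) ℚ} {Z : Matrix (Fin k) (Fin n) ℤ}
    (h : ∀ i j, A i j = (Z i j : ℚ)) (F : MvPolynomial (Fin k × Fin n) ℤ) :
    ∃ z : ℤ, evalAt A F = z := by
  refine ⟨MvPolynomial.eval₂Hom (RingHom.id ℤ) (fun p => Z p.1 p.2) F, ?_⟩
  have : evalAt A = (Int.castRingHom ℚ).comp
      (MvPolynomial.eval₂Hom (RingHom.id ℤ) (fun p : Fin k × Fin n => Z p.1 p.2)) := by
    refine MvPolynomial.ringHom_ext (fun z => ?_) fun p => ?_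
    · simp [evalAt]
    · rw [evalAt_X, h]
      simp
  rw [this]
  rfl

/-- Cluster variables are invariant under the left action of matrices of determinant one. -/
theorem cluster_inv (hm : 0 < m) {s : Seed (Vtx k m) (RatFun k m)}
    (h : Reach (mutable k m) (rectSeed k m) s) (v : Vtx k m)
    {F : MvPolynomial (Fin k × Fin (k + m)) ℤ}
    (hF : s.x v = algebraMap (MvPolynomial (Fin k × Fin (k + m)) ℤ) (RatFun k m) F)
    (Φ : Matrix (Fin k) (Fin k) ℚ) (hΦ : Φ.det = 1) (A : Matrix (Fin k) (Fin (k + m)) ℚ) :
    evalAt (Φ * A) F = evalAt A F := by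
  classical
  let ι : MvPolynomial (Fin k × Fin (k + m)) ℤ →+* MvPolynomial (Fin k × Fin (k + m)) ℚ := MvPolynomial.map (Int.castRingHom ℚ)
  let G : Matrix (Fin k) (Fin (k + m)) (MvPolynomial (Fin k × Fin (k + m)) ℚ) := Matrix.of fun i j => MvPolynomial.X (i, j)
  let Φ' : Matrix (Fin k) (Fin k) (MvPolynomial (Fin k × Fin (k + m)) ℚ) := (MvPolynomial.C : ℚ →+* MvPolynomial (Fin k × Fin (k + m)) ℚ).mapMatrix Φ
  let σ : MvPolynomial (Fin k × Fin (k + m)) ℤ →+* MvPolynomial (Fin k × Fin (k + m)) ℚ :=
    MvPolynomial.eval₂Hom (Int.castRingHom (MvPolynomial (Fin k × Fin (k + m)) ℚ)) fun p => (Φ' * G) p.1 p.2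
  have hι : Function.Injective ι := MvPolynomial.map_injective _ Int.cast_injective
  have hι_pl : ∀ (S : Finset (Fin (k + m))) (hS : S.card = k),
      ι (plucker k (k + m) S) = (G.submatrix id (S.orderEmbOfFin hS)).det := by
    intro S hS
    rw [plucker_eq hS, RingHom.map_det]
    congr 1
    ext1 a b
    simp [ι, G, gen]
  have hσ_pl : ∀ (S : Finset (Fin (k + m))) (hS : S.card = k),
      σ (plucker k (k + m) S) = ((Φ' * G).submatrix id (S.orderEmbOfFin hS)).det := by
    intro S hS
    rw [plucker_eq hS, RingHom.map_det]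
    congr 1
    ext1 a b
    simp only [RingHom.mapMatrix_apply, Matrix.map_apply, Matrix.submatrix_apply, gen,
      Matrix.of_apply, id_eq, σ]
    rw [MvPolynomial.eval₂Hom_X']
  have hagree : ∀ (S : Finset (Fin (k + m))), S.card = k →
      σ (plucker k (k + m) S) = ι (plucker k (k + m) S) := by
    intro S hS
    have h1 : (Φ' * G).submatrix id (S.orderEmbOfFin hS) =
        Φ' * G.submatrix id (S.orderEmbOfFin hS) := by
      ext1 a b
      rfl
    rw [hσ_pl S hS, hι_pl S hS, h1, Matrix.det_mul]
    have h2 : Φ'.det = 1 := by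
      rw [show Φ' = (MvPolynomial.C : ℚ →+* MvPolynomial (Fin k × Fin (k + m)) ℚ).mapMatrix Φ from rfl, ← RingHom.map_det, hΦ, map_one]
    rw [h2, one_mul]
  have key : σ F = ι F := by
    refine agree_reach algMap_injective hι ?_ (fun s hs => cluster_poly hm hs)
      (fun s hs => cluster_ne_zero hs) h v F hF
    intro i F' hF'
    have : F' = rvar k m i := algMap_injective hF'.symm
    rw [this]
    exact hagree _ (vset_card i)
  let e : MvPolynomial (Fin k × Fin (k + m)) ℚ →+* ℚ := MvPolynomial.eval₂Hom (RingHom.id ℚ) fun p => A p.1 p.2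
  have h1 : evalAt (Φ * A) = e.comp σ := by
    refine MvPolynomial.ringHom_ext (fun z => ?_) fun p => ?_
    · simp
    · rw [evalAt_X, RingHom.comp_apply, MvPolynomial.eval₂Hom_X', Matrix.mul_apply,
        Matrix.mul_apply, map_sum]
      refine sum_congr rfl fun l _ => ?_
      rw [map_mul]
      simp [e, Φ', G]
  have h2 : evalAt A = e.comp ι := by
    refine MvPolynomial.ringHom_ext (fun z => ?_) fun p => ?_
    · simp
    · rw [evalAt_X, RingHom.comp_apply]
      simp [e, ι]
  rw [h1, h2, RingHom.comp_apply, RingHom.comp_apply, key]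

end Pool.Agent.H489R3
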