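import Mathlib
import Pool.Agent.H489R3.GrassInt

set_option autoImplicit false
set_option linter.unusedSectionVars false

/-!
# Twisted periodic sequences of vectors and sorted Plücker coordinates
-/

namespace Pool.Agent.H489R3

open Finset

theorem mem_residues {n : ℕ} {S : Finset ℤ} {c : Fin n} :
    c ∈ residues n S ↔ ∃ x ∈ S, (n : ℤ) ∣ x - ((c : ℕ) : ℤ) := by
  simp [residues]

/-- `V (j + n) = (-1) ^ K • V j` -/
def Twisted (n : ℕ) {K : ℕ} (V : ℤ → Fin (K + 1) → ℚ) : Prop :=
  ∀ j r, V (j + n) r = (-1) ^ K * V j r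

theorem exists_twisted {n K : ℕ} (hn : 0 < n) (A : Matrix (Fin (K + 1)) (Fin n) ℚ) :
    ∃ V : ℤ → Fin (K + 1) → ℚ, Twisted n V ∧ ∀ (c : Fin n) r, V ((c : ℕ) : ℤ) r = A r c := by
  have hlt : ∀ j : ℤ, (j % (n : ℤ)).toNat < n := by
    intro j
    have h1 := Int.emod_nonneg j (b := (n : ℤ)) (by omega)
    have h2 := Int.emod_lt_of_pos j (b := (n : ℤ)) (by omega)
    omega
  refine ⟨fun j r => ((-1 : ℚ) ^ K) ^ (j / (n : ℤ)) * A r ⟨(j % (n : ℤ)).toNat, hlt j⟩, ?_, ?_⟩
  · intro j r
    have h1 : (j + (n : ℤ)) / (n : ℤ) = j / (n : ℤ) + 1 := by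
      rw [Int.add_ediv_of_dvd_right (dvd_refl _), Int.ediv_self (by omega)]
    have h2 : (j + (n : ℤ)) % (n : ℤ) = j % (n : ℤ) := by simp
    have hne : ((-1 : ℚ) ^ K) ≠ 0 := pow_ne_zero _ (by norm_num)
    simp only [h1, h2]
    rw [zpow_add₀ hne, zpow_one]
    ring
  · intro c r
    have h1 : (((c : ℕ) : ℤ)) / (n : ℤ) = 0 := Int.ediv_eq_zero_of_lt (by omega) (by omega)
    have h2 : (((c : ℕ) : ℤ)) % (n : ℤ) = ((c : ℕ) : ℤ) := Int.emod_eq_of_lt (by omega) (by omega)
    simp only [h1, h2]
    simp

variable {n K : ℕ} {V : ℤ → Fin (K + 1) → ℚ}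

/-- the determinant of the vectors `V (c s)` -/
noncomputable def vdet (V : ℤ → Fin (K + 1) → ℚ) (c : Fin (K + 1) → ℤ) : ℚ :=
  (Matrix.of fun s r => V (c s) r).det

theorem vdet_rotate (hV : Twisted n V) (a : ℤ) (d : Fin K → ℤ) :
    vdet V (Fin.snoc (α := fun _ => ℤ) d (a + n)) = vdet V (Fin.cons (α := fun _ => ℤ) a d) := by
  have h1 : (Matrix.of fun s r => V ((Fin.snoc (α := fun _ => ℤ) d (a + n) : Fin (K + 1) → ℤ) s) r) =
      Matrix.of fun s r => (if s = Fin.last K then (-1 : ℚ) ^ K else 1) *
        ((Matrix.of fun s r => V ((Fin.cons (α := fun _ => ℤ) a d : Fin (K + 1) → ℤ) s) r).submatrix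
          (finRotate (K + 1)) id) s r := by
    ext s r
    simp only [Matrix.of_apply, Matrix.submatrix_apply, id_eq]
    refine Fin.lastCases ?_ (fun t => ?_) s
    · rw [Fin.snoc_last, finRotate_last, Fin.cons_zero, if_pos rfl, hV]
    · rw [Fin.snoc_castSucc, finRotate_apply, Fin.coeSucc_eq_succ, Fin.cons_succ,
        if_neg (Fin.castSucc_lt_last t).ne, one_mul]
  rw [vdet, h1, Matrix.det_mul_column, Matrix.det_permute, sign_finRotate, vdet]
  rw [Fintype.prod_ite_eq' (Fin.last K) (fun _ => (-1 : ℚ) ^ K)]
  push_cast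
  rw [← mul_assoc, ← pow_add, ← two_mul, pow_mul]
  norm_num

theorem residues_rotate (a : ℤ) (d : Fin K → ℤ) :
    residues n (univ.image (Fin.snoc (α := fun _ => ℤ) d (a + n) : Fin (K + 1) → ℤ)) =
      residues n (univ.image (Fin.cons (α := fun _ => ℤ) a d : Fin (K + 1) → ℤ)) := by
  ext c
  simp only [mem_residues, mem_image, mem_univ, true_and, exists_exists_eq_and]
  constructor
  · rintro ⟨s, hs⟩
    revert hs
    refine Fin.lastCases ?_ (fun t => ?_) s
    · intro hs
      rw [Fin.snoc_last] at hs
      refine ⟨0, ?_⟩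
      rw [Fin.cons_zero]
      have : a + n - ((c : ℕ) : ℤ) = (a - ((c : ℕ) : ℤ)) + n := by ring
      rw [this] at hs
      exact (dvd_add_left (dvd_refl _)).1 hs
    · intro hs
      rw [Fin.snoc_castSucc] at hs
      exact ⟨t.succ, by rw [Fin.cons_succ]; exact hs⟩
  · rintro ⟨s, hs⟩
    revert hs
    refine Fin.cases ?_ (fun t => ?_) s
    · intro hs
      rw [Fin.cons_zero] at hs
      refine ⟨Fin.last K, ?_⟩
      rw [Fin.snoc_last]
      have : a + n - ((c : ℕ) : ℤ) = (a - ((c : ℕ) : ℤ)) + n := by ring
      rw [this]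
      exact (dvd_add_left (dvd_refl _)).2 hs
    · intro hs
      rw [Fin.cons_succ] at hs
      exact ⟨t.castSucc, by rw [Fin.snoc_castSucc]; exact hs⟩

theorem vdet_base {A : Matrix (Fin (K + 1)) (Fin n) ℚ}
    (hA : ∀ (c : Fin n) r, V ((c : ℕ) : ℤ) r = A r c) {c : Fin (K + 1) → ℤ} (hc : StrictMono c)
    (h : ∀ s, 0 ≤ c s ∧ c s < n) :
    vdet V c = evalAt A (plucker (K + 1) n (residues n (univ.image c))) := by
  classical
  let c' : Fin (K + 1) → Fin n := fun s => ⟨(c s).toNat, by have := h s; omega⟩
  have hc' : StrictMono c' := by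
    intro s t hst
    have := hc hst
    have h1 := h s
    have h2 := h t
    simp only [c', Fin.mk_lt_mk]
    omega
  have hcc' : ∀ s, c s = ((c' s : ℕ) : ℤ) := by
    intro s
    have := h s
    simp only [c']
    omega
  have himg : residues n (univ.image c) = univ.image c' := by
    ext x
    simp only [mem_residues, mem_image, mem_univ, true_and, exists_exists_eq_and]
    constructor
    · rintro ⟨s, hs⟩
      refine ⟨s, Fin.ext ?_⟩
      rw [hcc' s] at hs
      obtain ⟨q, hq⟩ := hs
      have h1 := (c' s).2
      have h2 := x.2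
      have hq0 : q = 0 := by
        by_contra hne
        rcases lt_or_gt_of_ne hne with h3 | h3
        · have : (n : ℤ) * q ≤ (n : ℤ) * (-1) := mul_le_mul_of_nonneg_left (by omega) (by omega)
          omega
        · have : (n : ℤ) * 1 ≤ (n : ℤ) * q := mul_le_mul_of_nonneg_left (by omega) (by omega)
          omega
      rw [hq0, mul_zero] at hq
      omega
    · rintro ⟨s, rfl⟩
      exact ⟨s, by rw [hcc' s]; simp⟩
  have hcard : (univ.image c').card = K + 1 := by
    rw [card_image_of_injective _ hc'.injective, card_univ, Fintype.card_fin]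
  rw [himg, evalAt_plucker A hcard]
  have hord : c' = (univ.image c').orderEmbOfFin hcard :=
    orderEmbOfFin_unique hcard (fun s => mem_image_of_mem _ (mem_univ s)) hc'
  rw [vdet, ← Matrix.det_transpose, ← hord]
  congr 1
  ext r s
  simp only [Matrix.transpose_apply, Matrix.of_apply, Matrix.submatrix_apply, id_eq]
  rw [hcc' s, hA]

/-- Determinants of increasing sequences in a window of length `n` are sorted Plücker
coordinates. -/
theorem vdet_eq (hV : Twisted n V) {A : Matrix (Fin (K + 1)) (Fin n) ℚ}
    (hA : ∀ (c : Fin n) r, V ((c : ℕ) : ℤ) r = A r c) (a : ℤ) :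
    ∀ c : Fin (K + 1) → ℤ, StrictMono c → (∀ s, a ≤ c s ∧ c s < a + n) →
      vdet V c = evalAt A (plucker (K + 1) n (residues n (univ.image c))) := by
  induction a using Int.induction_on with
  | zero => intro c hc h; exact vdet_base hA hc (fun s => by simpa using h s)
  | succ a ih =>
    intro c hc h
    by_cases hlast : c (Fin.last K) < a + n
    · refine ih c hc fun s => ⟨by have := h s; omega, ?_⟩
      exact lt_of_le_of_lt (hc.monotone (Fin.le_last s)) hlast
    · have h1 : c (Fin.last K) = (a : ℤ) + n := by have := h (Fin.last K); omega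
      have h2 : c = Fin.snoc (α := fun _ => ℤ) (Fin.init c) ((a : ℤ) + n) := by
        rw [← h1]; exact (Fin.snoc_init_self c).symm
      rw [h2, vdet_rotate hV, residues_rotate]
      refine ih _ ?_ ?_
      · intro s t hst
        revert hst
        refine Fin.cases ?_ (fun s' => ?_) s <;> refine Fin.cases ?_ (fun t' => ?_) t
        · intro hst; exact absurd hst (lt_irrefl _)
        · intro _
          rw [Fin.cons_zero, Fin.cons_succ]
          have := h t'.castSucc
          simp only [Fin.init]
          omega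
        · intro hst; exact absurd hst (by simp)
        · intro hst
          rw [Fin.cons_succ, Fin.cons_succ]
          exact hc (by simpa using hst)
      · intro s
        refine Fin.cases ?_ (fun s' => ?_) s
        · rw [Fin.cons_zero]
          have := h (Fin.last K)
          omega
        · rw [Fin.cons_succ]
          have h3 := h s'.castSucc
          have h4 : c s'.castSucc < c (Fin.last K) := hc (Fin.castSucc_lt_last s')
          simp only [Fin.init]
          omega
  | pred a ih =>
    intro c hc h
    by_cases hfirst : -(a : ℤ) ≤ c 0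
    · refine ih c hc fun s => ⟨?_, by have := h s; omega⟩
      exact le_trans hfirst (hc.monotone (Fin.zero_le s))
    · have h1 : c 0 = -(a : ℤ) - 1 := by have := h 0; omega
      have h2 : c = Fin.cons (α := fun _ => ℤ) (-(a : ℤ) - 1) (Fin.tail c) := by
        rw [← h1]; exact (Fin.cons_self_tail c).symm
      rw [h2, ← vdet_rotate hV, ← residues_rotate]
      refine ih _ ?_ ?_
      · intro s t hst
        revert hst
        refine Fin.lastCases ?_ (fun s' => ?_) s <;> refine Fin.lastCases ?_ (fun t' => ?_) t
        · intro hst; exact absurd hst (lt_irrefl _)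
        · intro hst
          exact absurd hst (not_lt.2 (Fin.le_last _))
        · intro _
          rw [Fin.snoc_last, Fin.snoc_castSucc]
          have := h s'.succ
          simp only [Fin.tail]
          omega
        · intro hst
          rw [Fin.snoc_castSucc, Fin.snoc_castSucc]
          exact hc (by simpa using hst)
      · intro s
        refine Fin.lastCases ?_ (fun s' => ?_) s
        · rw [Fin.snoc_last]
          have := h 0
          omega
        · rw [Fin.snoc_castSucc]
          have h3 := h s'.succ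
          have h4 : c 0 < c s'.succ := hc (Fin.succ_pos s')
          simp only [Fin.tail]
          omega

end Pool.Agent.H489R3
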