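import Mathlib
import Pool.Agent.H489R3.Twist

set_option autoImplicit false
set_option linter.unusedSectionVars false

/-!
# Integer representatives
-/

namespace Pool.Agent.H489R3

open Finset

variable {n K : ℕ} {V : ℤ → Fin (K + 1) → ℚ}

theorem vdet_interval (hn : K + 1 ≤ n) (hV : Twisted n V) {A : Matrix (Fin (K + 1)) (Fin n) ℚ}
    (hA : ∀ (c : Fin n) r, V ((c : ℕ) : ℤ) r = A r c)
    (hcyc : ∀ i : ℤ, evalAt A (plucker (K + 1) n (residues n (Ico i (i + (K + 1 : ℕ))))) = 1)
    (i : ℤ) : vdet V (fun t => i + ((t : ℕ) : ℤ)) = 1 := by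
  rw [vdet_eq hV hA i _ ?_ ?_]
  · rw [← hcyc i]
    congr 3
    ext x
    simp only [mem_image, mem_univ, true_and, mem_Ico]
    constructor
    · rintro ⟨t, rfl⟩
      have := t.2
      omega
    · rintro ⟨h1, h2⟩
      refine ⟨⟨(x - i).toNat, by omega⟩, ?_⟩
      simp only
      omega
  · intro s t hst
    simp only
    have : (s : ℕ) < t := hst
    omega
  · intro s
    have := s.2
    omega

/-- the functional `v ↦ det (V (s + 1), …, V (s + K), v)` at `V x` -/
noncomputable def gf (V : ℤ → Fin (K + 1) → ℚ) (s x : ℤ) : ℚ :=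
  vdet V (Fin.snoc (α := fun _ => ℤ) (fun t : Fin K => s + 1 + ((t : ℕ) : ℤ)) x)

theorem gf_eq_adj (V : ℤ → Fin (K + 1) → ℚ) (s x : ℤ) :
    gf V s x = ∑ l, (Matrix.of fun (t : Fin (K + 1)) r => V (s + 1 + ((t : ℕ) : ℤ)) r).transpose.adjugate
      (Fin.last K) l * V x l := by
  have h1 := congrFun (Matrix.cramer_eq_adjugate_mulVec
    (Matrix.of fun (t : Fin (K + 1)) r => V (s + 1 + ((t : ℕ) : ℤ)) r).transpose (V x)) (Fin.last K)
  rw [Matrix.cramer_transpose_apply] at h1
  rw [Matrix.mulVec, dotProduct] at h1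
  rw [← h1, gf, vdet]
  congr 1
  ext t r
  refine Fin.lastCases ?_ (fun t' => ?_) t
  · rw [Matrix.of_apply, Fin.snoc_last, Matrix.updateRow_self]
  · rw [Matrix.of_apply, Fin.snoc_castSucc, Matrix.updateRow_ne (Fin.castSucc_lt_last t').ne]
    rfl

theorem gf_zero {s x : ℤ} (h1 : s + 1 ≤ x) (h2 : x ≤ s + K) : gf V s x = 0 := by
  let t : Fin K := ⟨(x - s - 1).toNat, by omega⟩
  refine Matrix.det_zero_of_row_eq (i := t.castSucc) (j := Fin.last K)
    (Fin.castSucc_lt_last t).ne ?_
  funext r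
  rw [Matrix.of_apply, Matrix.of_apply, Fin.snoc_last, Fin.snoc_castSucc]
  congr 1
  simp only [t]
  omega

theorem gf_shift (hV : Twisted n V) (s x : ℤ) : gf V s (x + n) = (-1) ^ K * gf V s x := by
  rw [gf_eq_adj, gf_eq_adj, mul_sum]
  refine sum_congr rfl fun l _ => ?_
  rw [hV]
  ring

theorem gf_int (hn : K + 1 ≤ n) (hV : Twisted n V) {A : Matrix (Fin (K + 1)) (Fin n) ℚ}
    (hA : ∀ (c : Fin n) r, V ((c : ℕ) : ℤ) r = A r c)
    (hcyc : ∀ i : ℤ, evalAt A (plucker (K + 1) n (residues n (Ico i (i + (K + 1 : ℕ))))) = 1)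
    (hint : ∀ s x : ℤ, s + (K + 1 : ℕ) < x → x < s + n →
      ∃ z : ℤ, evalAt A (plucker (K + 1) n
        (residues n (insert x (Ioo s (s + (K + 1 : ℕ)))))) = z)
    {s x : ℤ} (h1 : s + 1 ≤ x) (h2 : x ≤ s + n) : ∃ z : ℤ, gf V s x = z := by
  by_cases h3 : x ≤ s + K
  · exact ⟨0, by rw [gf_zero h1 h3]; simp⟩
  by_cases h4 : x = s + K + 1
  · refine ⟨1, ?_⟩
    rw [gf, Int.cast_one, ← vdet_interval hn hV hA hcyc (s + 1)]
    congr 1
    funext t
    refine Fin.lastCases ?_ (fun t' => ?_) t
    · rw [Fin.snoc_last, h4, Fin.val_last]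
      ring
    · rw [Fin.snoc_castSucc]
      rfl
  by_cases h5 : x = s + n
  · refine ⟨1, ?_⟩
    rw [gf, h5, vdet_rotate hV, Int.cast_one, ← vdet_interval hn hV hA hcyc s]
    congr 1
    funext t
    refine Fin.cases ?_ (fun t' => ?_) t
    · rw [Fin.cons_zero]
      simp
    · rw [Fin.cons_succ, Fin.val_succ]
      push_cast
      ring
  · obtain ⟨z, hz⟩ := hint s x (by push_cast; omega) (by omega)
    refine ⟨z, ?_⟩
    rw [← hz, gf, vdet_eq hV hA (s + 1) _ ?_ ?_]
    · congr 3
      ext y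
      simp only [mem_image, mem_univ, true_and, mem_insert, mem_Ioo]
      constructor
      · rintro ⟨t, rfl⟩
        refine Fin.lastCases ?_ (fun t' => ?_) t
        · left; rw [Fin.snoc_last]
        · right
          rw [Fin.snoc_castSucc]
          have := t'.2
          push_cast
          omega
      · rintro (rfl | ⟨h6, h7⟩)
        · exact ⟨Fin.last K, by rw [Fin.snoc_last]⟩
        · push_cast at h7
          refine ⟨(⟨(y - s - 1).toNat, by omega⟩ : Fin K).castSucc, ?_⟩
          rw [Fin.snoc_castSucc]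
          simp only
          omega
    · intro t t' htt'
      revert htt'
      refine Fin.lastCases ?_ (fun u => ?_) t <;> refine Fin.lastCases ?_ (fun u' => ?_) t'
      · intro hst; exact absurd hst (lt_irrefl _)
      · intro hst
        exact absurd hst (not_lt.2 (Fin.le_last _))
      · intro _
        rw [Fin.snoc_last, Fin.snoc_castSucc]
        have := u.2
        omega
      · intro hst
        rw [Fin.snoc_castSucc, Fin.snoc_castSucc]
        have : (u : ℕ) < u' := by simpa using hst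
        omega
    · intro t
      refine Fin.lastCases ?_ (fun u => ?_) t
      · rw [Fin.snoc_last]
        omega
      · rw [Fin.snoc_castSucc]
        have := u.2
        omega

/-- A matrix whose cyclically consecutive minors are `1` and whose minors on the unions of
an interval of length `K` and a point are integers is equivalent to an integer matrix. -/
theorem exists_int_rep (hn : K + 1 ≤ n) {A : Matrix (Fin (K + 1)) (Fin n) ℚ}
    (hcyc : ∀ i : ℤ, evalAt A (plucker (K + 1) n (residues n (Ico i (i + (K + 1 : ℕ))))) = 1)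
    (hint : ∀ s x : ℤ, s + (K + 1 : ℕ) < x → x < s + n →
      ∃ z : ℤ, evalAt A (plucker (K + 1) n
        (residues n (insert x (Ioo s (s + (K + 1 : ℕ)))))) = z) :
    ∃ Φ : Matrix (Fin (K + 1)) (Fin (K + 1)) ℚ, Φ.det = 1 ∧
      ∃ Z : Matrix (Fin (K + 1)) (Fin n) ℤ, ∀ i j, (Φ * A) i j = (Z i j : ℚ) := by
  classical
  obtain ⟨V, hV, hA⟩ := exists_twisted (by omega) A
  let s : Fin (K + 1) → ℤ := fun r => ((r : ℕ) : ℤ) - (K + 1)
  let Φ : Matrix (Fin (K + 1)) (Fin (K + 1)) ℚ := Matrix.of fun r l =>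
    (Matrix.of fun (t : Fin (K + 1)) r' => V (s r + 1 + ((t : ℕ) : ℤ)) r').transpose.adjugate
      (Fin.last K) l
  have hΦ : ∀ r (c : Fin n), (Φ * A) r c = gf V (s r) ((c : ℕ) : ℤ) := by
    intro r c
    rw [Matrix.mul_apply, gf_eq_adj]
    refine sum_congr rfl fun l _ => ?_
    rw [hA]
    rfl
  have hint' : ∀ r (c : Fin n), ∃ z : ℤ, (Φ * A) r c = z := by
    intro r c
    rw [hΦ]
    have hr := r.2
    have hc := c.2
    by_cases h1 : ((c : ℕ) : ℤ) ≤ s r + n
    · exact gf_int hn hV hA hcyc hint (by simp only [s]; omega) h1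
    · have h2 : ((c : ℕ) : ℤ) = (((c : ℕ) : ℤ) - n) + n := by ring
      rw [h2, gf_shift hV, gf_zero]
      · exact ⟨0, by simp⟩
      · simp only [s] at h1 ⊢; omega
      · simp only [s] at h1 ⊢; omega
  choose Z hZ using hint'
  refine ⟨Φ, ?_, Matrix.of Z, fun i j => by rw [hZ, Matrix.of_apply]⟩
  let B : Matrix (Fin (K + 1)) (Fin (K + 1)) ℚ := A.submatrix id (Fin.castLE hn)
  have hB : B.det = 1 := by
    rw [← vdet_interval hn hV hA hcyc 0, vdet, ← Matrix.det_transpose]
    congr 1
    ext t r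
    simp only [B, Matrix.transpose_apply, Matrix.submatrix_apply, id_eq, Matrix.of_apply, zero_add]
    rw [← hA]
    rfl
  have hΦB : (Φ * B).det = 1 := by
    have hent : ∀ r t, (Φ * B) r t = gf V (s r) ((t : ℕ) : ℤ) := by
      intro r t
      have h1 : (Φ * B) r t = (Φ * A) r (Fin.castLE hn t) := rfl
      rw [h1, hΦ]
      rfl
    rw [Matrix.det_of_isUpperTriangular]
    · refine prod_eq_one fun r _ => ?_
      rw [hent, gf, ← vdet_interval hn hV hA hcyc (s r + 1)]
      congr 1
      funext t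
      refine Fin.lastCases ?_ (fun t' => ?_) t
      · rw [Fin.snoc_last, Fin.val_last]
        simp only [s]
        ring
      · rw [Fin.snoc_castSucc]
        rfl
    · intro r t hrt
      have hrt' : (t : ℕ) < r := hrt
      have hr := r.2
      rw [hent]
      refine gf_zero ?_ ?_
      · simp only [s]; omega
      · simp only [s]; omega
  rw [Matrix.det_mul, hB, mul_one] at hΦB
  exact hΦB

end Pool.Agent.H489R3
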