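import Mathlib
import Pool.Agent.H489R3.IntRep

set_option autoImplicit false
set_option linter.unusedSectionVars false

/-!
# Tame friezes are represented by matrices
-/

namespace Pool.Agent.H489R3

open Finset

variable {K w : ℕ} {M : ℤ → ℤ → ℚ}

/-- `k` consecutive entries of a column -/
def bv (K : ℕ) (M : ℤ → ℤ → ℚ) (i j : ℤ) : Fin (K + 1) → ℚ := fun r => M (i + ((r : ℕ) : ℤ)) j

theorem IsTameFrieze.rel (h : IsTameFrieze (K + 1) w M) (i : ℤ) :
    ∃ c : Fin (K + 1) → ℚ, ∀ j : ℤ,
      M (i + (K + 1 : ℕ)) j = ∑ a, c a * M (i + ((a : ℕ) : ℤ)) j := by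
  have hz : ∀ (j : ℤ) (u : Fin (K + 1) → ℚ),
      (∀ b : Fin (K + 1), ∑ a, u a * M (i + ((a : ℕ) : ℤ)) (j + ((b : ℕ) : ℤ)) = 0) → u = 0 := by
    intro j u hu
    refine Matrix.eq_zero_of_vecMul_eq_zero
      (M := Matrix.of fun a b : Fin (K + 1) => M (i + ((a : ℕ) : ℤ)) (j + ((b : ℕ) : ℤ))) ?_ ?_
    · rw [h.minor_one]; exact one_ne_zero
    · funext b
      exact hu b
  have hwin : ∀ j : ℤ, ∃ c : Fin (K + 1) → ℚ, ∀ b : Fin (K + 1 + 1),
      M (i + (K + 1 : ℕ)) (j + ((b : ℕ) : ℤ)) =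
        ∑ a, c a * M (i + ((a : ℕ) : ℤ)) (j + ((b : ℕ) : ℤ)) := by
    intro j
    obtain ⟨u, hu0, hu⟩ := Matrix.exists_vecMul_eq_zero_iff.2 (h.minor_zero i j)
    have hu' : ∀ b : Fin (K + 1 + 1), ∑ a : Fin (K + 1), u a.castSucc *
        M (i + ((a : ℕ) : ℤ)) (j + ((b : ℕ) : ℤ)) +
        u (Fin.last (K + 1)) * M (i + (K + 1 : ℕ)) (j + ((b : ℕ) : ℤ)) = 0 := by
      intro b
      have h1 := congrFun hu b
      rw [Matrix.vecMul, dotProduct, Fin.sum_univ_castSucc] at h1
      exact h1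
    have hne : u (Fin.last (K + 1)) ≠ 0 := by
      intro h0
      have h1 : (fun a : Fin (K + 1) => u a.castSucc) = 0 := by
        refine hz j _ fun b => ?_
        have := hu' b.castSucc
        rw [h0, zero_mul, add_zero] at this
        exact this
      apply hu0
      funext a
      refine Fin.lastCases ?_ (fun a' => ?_) a
      · exact h0
      · exact congrFun h1 a'
    refine ⟨fun a => -(u a.castSucc) / u (Fin.last (K + 1)), fun b => ?_⟩
    have h1 := hu' b
    have h2 : ∑ a : Fin (K + 1), -(u a.castSucc) / u (Fin.last (K + 1)) *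
        M (i + ((a : ℕ) : ℤ)) (j + ((b : ℕ) : ℤ)) =
        -(∑ a : Fin (K + 1), u a.castSucc * M (i + ((a : ℕ) : ℤ)) (j + ((b : ℕ) : ℤ))) /
          u (Fin.last (K + 1)) := by
      rw [← sum_neg_distrib, sum_div]
      refine sum_congr rfl fun a _ => ?_
      ring
    rw [h2, eq_div_iff hne]
    linear_combination h1
  choose c hc using hwin
  have hstep : ∀ j, c (j + 1) = c j := by
    intro j
    have : (fun a => c (j + 1) a - c j a) = 0 := by
      refine hz (j + 1) _ fun b => ?_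
      have h1 := hc (j + 1) b.castSucc
      have h2 := hc j b.succ
      have h3 : j + (((b.succ : Fin (K + 1 + 1)) : ℕ) : ℤ) = j + 1 + ((b : ℕ) : ℤ) := by
        rw [Fin.val_succ]; push_cast; ring
      rw [h3] at h2
      rw [Fin.val_castSucc] at h1
      simp only [sub_mul, sum_sub_distrib]
      rw [← h1, ← h2, sub_self]
    funext a
    have h1 := congrFun this a
    simp only [Pi.zero_apply] at h1
    linarith
  have hconst : ∀ j, c j = c 0 := by
    intro j
    induction j using Int.induction_on with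
    | zero => rfl
    | succ a ih => rw [hstep, ih]
    | pred a ih => rw [← ih, ← hstep (-(a : ℤ) - 1)]; congr 1; ring
  refine ⟨c 0, fun j => ?_⟩
  have h1 := hc j 0
  rw [hconst j] at h1
  simpa using h1

theorem IsTameFrieze.step (h : IsTameFrieze (K + 1) w M) (i : ℤ) :
    ∃ C : Matrix (Fin (K + 1)) (Fin (K + 1)) ℚ, C.det = 1 ∧
      ∀ j, bv K M (i + 1) j = C.mulVec (bv K M i j) := by
  classical
  obtain ⟨c, hc⟩ := h.rel i
  let C : Matrix (Fin (K + 1)) (Fin (K + 1)) ℚ := Matrix.of fun r l =>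
    if r = Fin.last K then c l else if (l : ℕ) = r + 1 then 1 else 0
  have hC : ∀ j, bv K M (i + 1) j = C.mulVec (bv K M i j) := by
    intro j
    funext r
    rw [Matrix.mulVec, dotProduct]
    refine Fin.lastCases ?_ (fun t => ?_) r
    · simp only [C, Matrix.of_apply, if_true, bv]
      rw [← hc j, Fin.val_last]
      congr 1
      push_cast
      ring
    · rw [Fintype.sum_eq_single t.succ]
      · simp only [C, Matrix.of_apply, bv]
        rw [if_neg (Fin.castSucc_lt_last t).ne, if_pos (by simp), one_mul, Fin.val_succ,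
          Fin.val_castSucc]
        congr 1
        push_cast
        ring
      · intro l hl
        simp only [C, Matrix.of_apply]
        rw [if_neg (Fin.castSucc_lt_last t).ne, if_neg, zero_mul]
        intro h2
        apply hl
        exact Fin.ext (by rw [h2, Fin.val_succ, Fin.val_castSucc])
  refine ⟨C, ?_, hC⟩
  have h1 : (Matrix.of fun a b : Fin (K + 1) => M (i + 1 + ((a : ℕ) : ℤ)) (0 + ((b : ℕ) : ℤ))) =
      C * (Matrix.of fun a b : Fin (K + 1) => M (i + ((a : ℕ) : ℤ)) (0 + ((b : ℕ) : ℤ))) := by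
    ext a b
    have := congrFun (hC (0 + ((b : ℕ) : ℤ))) a
    rw [Matrix.mul_apply]
    exact this
  have h2 := congrArg Matrix.det h1
  rw [Matrix.det_mul, h.minor_one, h.minor_one, mul_one] at h2
  exact h2.symm

theorem IsTameFrieze.trans (h : IsTameFrieze (K + 1) w M) (i : ℤ) :
    ∃ D : Matrix (Fin (K + 1)) (Fin (K + 1)) ℚ, D.det = 1 ∧
      ∀ j, bv K M i j = D.mulVec (bv K M 0 j) := by
  induction i using Int.induction_on with
  | zero => exact ⟨1, Matrix.det_one, fun j => by rw [Matrix.one_mulVec]⟩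
  | succ a ih =>
    obtain ⟨D, hD, hD'⟩ := ih
    obtain ⟨C, hC, hC'⟩ := h.step a
    refine ⟨C * D, by rw [Matrix.det_mul, hC, hD, one_mul], fun j => ?_⟩
    rw [hC', hD', Matrix.mulVec_mulVec]
  | pred a ih =>
    obtain ⟨D, hD, hD'⟩ := ih
    obtain ⟨C, hC, hC'⟩ := h.step (-(a : ℤ) - 1)
    refine ⟨C⁻¹ * D, by rw [Matrix.det_mul, Matrix.det_nonsing_inv, hC, hD]; simp, fun j => ?_⟩
    have h1 := hC' j
    rw [sub_add_cancel, hD'] at h1
    rw [← Matrix.mulVec_mulVec, h1, Matrix.mulVec_mulVec, Matrix.nonsing_inv_mul _ (by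
      rw [hC]; exact isUnit_one), Matrix.one_mulVec]

theorem IsTameFrieze.corner (h : IsTameFrieze (K + 1) w M) (p : ℤ) :
    M (p + 1 + K) (p - 1) = (-1) ^ K := by
  have h1 := h.minor_one (p + 1) (p - 1)
  have h2 := Matrix.det_permute' (finRotate (K + 1))
    (Matrix.of fun a b : Fin (K + 1) => M (p + 1 + ((a : ℕ) : ℤ)) (p - 1 + ((b : ℕ) : ℤ)))
  rw [h1, sign_finRotate, mul_one, Matrix.det_of_isUpperTriangular, Fin.prod_univ_castSucc,
    prod_eq_one, one_mul] at h2
  · rw [Matrix.submatrix_apply, finRotate_last, id_eq, Matrix.of_apply, Fin.val_last] at h2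
    simpa using h2
  · intro t _
    rw [Matrix.submatrix_apply, finRotate_apply, Fin.coeSucc_eq_succ, id_eq, Matrix.of_apply]
    refine h.one _ _ (Or.inl ?_)
    rw [Fin.val_succ, Fin.val_castSucc]
    push_cast
    ring
  · intro r t hrt
    have hrt' : (t : ℕ) < r := hrt
    have hr := r.2
    have htl : t ≠ Fin.last K := by
      rintro rfl
      rw [Fin.val_last] at hrt'
      omega
    obtain ⟨t', rfl⟩ := Fin.exists_castSucc_eq.2 htl
    rw [Matrix.submatrix_apply, finRotate_apply, Fin.coeSucc_eq_succ, id_eq, Matrix.of_apply]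
    refine h.zero _ _ (Or.inl ?_)
    rw [Fin.val_succ]
    rw [Fin.val_castSucc] at hrt'
    push_cast
    omega

theorem IsTameFrieze.twisted (h : IsTameFrieze (K + 1) w M) :
    Twisted (K + 1 + (w + 1)) fun j => bv K M 0 (j - 1) := by
  have key : ∀ p : ℤ, bv K M 0 (p + (K + 1 + (w + 1) : ℕ) - 1) =
      fun r => (-1) ^ K * bv K M 0 (p - 1) r := by
    intro p
    obtain ⟨D, hD, hD'⟩ := h.trans (p + 1)
    have h1 : bv K M (p + 1) (p - 1) =
        fun r => (-1) ^ K * bv K M (p + 1) (p + (K + 1 + (w + 1) : ℕ) - 1) r := by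
      funext r
      simp only [bv]
      refine Fin.lastCases ?_ (fun t => ?_) r
      · rw [Fin.val_last, h.corner, h.one _ _ (Or.inr (by push_cast; ring)), mul_one]
      · have := t.2
        rw [Fin.val_castSucc, h.zero _ _ (Or.inl (by push_cast; omega)),
          h.zero _ _ (Or.inr (by push_cast; omega)), mul_zero]
    have h2 : ∀ j, bv K M 0 j = D⁻¹.mulVec (bv K M (p + 1) j) := by
      intro j
      rw [hD', Matrix.mulVec_mulVec, Matrix.nonsing_inv_mul _ (by rw [hD]; exact isUnit_one),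
        Matrix.one_mulVec]
    funext r
    rw [h2 (p - 1), h1, h2]
    have h3 : (fun r => (-1 : ℚ) ^ K * bv K M (p + 1) (p + (K + 1 + (w + 1) : ℕ) - 1) r) =
        ((-1 : ℚ) ^ K) • bv K M (p + 1) (p + (K + 1 + (w + 1) : ℕ) - 1) := rfl
    rw [h3, Matrix.mulVec_smul, Pi.smul_apply, smul_eq_mul, ← mul_assoc, ← pow_add, ← two_mul,
      pow_mul]
    norm_num
  intro j r
  exact congrFun (key j) r

end Pool.Agent.H489R3
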