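import Mathlib
import Pool.Agent.H489R3.Tame

set_option autoImplicit false
set_option linter.unusedSectionVars false

/-!
# The matrix of a frieze
-/

namespace Pool.Agent.H489R3

open Finset

variable {K w : ℕ} {M : ℤ → ℤ → ℚ}

/-- Frieze entries are determinants of `K + 1` columns. -/
theorem IsTameFrieze.entry_vdet (h : IsTameFrieze (K + 1) w M) (i j : ℤ) :
    M i j = vdet (fun j => bv K M 0 (j - 1)) (Fin.cons (α := fun _ => ℤ) (j + 1)
      (fun t : Fin K => i + (w + 2 : ℕ) + ((t : ℕ) : ℤ))) := by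
  obtain ⟨D, hD, hD'⟩ := h.trans i
  set c : Fin (K + 1) → ℤ := Fin.cons (α := fun _ => ℤ) (j + 1)
      (fun t : Fin K => i + (w + 2 : ℕ) + ((t : ℕ) : ℤ)) with hc
  have h1 : (Matrix.of fun s r => bv K M i (c s - 1) r) =
      (Matrix.of fun s r => bv K M 0 (c s - 1) r) * D.transpose := by
    ext s r
    rw [Matrix.of_apply, hD', Matrix.mul_apply, Matrix.mulVec, dotProduct]
    refine sum_congr rfl fun l _ => ?_
    rw [Matrix.of_apply, Matrix.transpose_apply, mul_comm]
  have h2 := congrArg Matrix.det h1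
  rw [Matrix.det_mul, Matrix.det_transpose, hD, mul_one] at h2
  rw [vdet, ← h2, Matrix.det_of_isUpperTriangular, Fin.prod_univ_succ, prod_eq_one, mul_one]
  · simp [hc, bv]
  · intro t _
    rw [Matrix.of_apply, hc, Fin.cons_succ, bv]
    refine h.one _ _ (Or.inr ?_)
    rw [Fin.val_succ]
    push_cast
    ring
  · intro s r hsr
    have hsr' : (r : ℕ) < s := hsr
    obtain ⟨t, rfl⟩ := Fin.exists_succ_eq.2 (show s ≠ 0 from by rintro rfl; simp at hsr')
    rw [Matrix.of_apply, hc, Fin.cons_succ, bv]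
    have := t.2
    rw [Fin.val_succ] at hsr'
    refine h.zero _ _ (Or.inr ?_)
    push_cast
    omega

/-- The `k × n` matrix cut out of a frieze: rows `0, …, k - 1` and columns `-1, …, n - 2`. -/
def friezeMatrix (k w : ℕ) (M : ℤ → ℤ → ℚ) : Matrix (Fin k) (Fin (k + (w + 1))) ℚ :=
  Matrix.of fun r c => M ((r : ℕ) : ℤ) (((c : ℕ) : ℤ) - 1)

theorem friezeMatrix_bv (c : Fin (K + 1 + (w + 1))) (r : Fin (K + 1)) :
    (fun j => bv K M 0 (j - 1)) ((c : ℕ) : ℤ) r = friezeMatrix (K + 1) w M r c := by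
  simp [bv, friezeMatrix]

theorem friezeMatrix_cyclic (h : IsTameFrieze (K + 1) w M) (i : ℤ) :
    evalAt (friezeMatrix (K + 1) w M) (plucker (K + 1) (K + 1 + (w + 1))
      (residues (K + 1 + (w + 1)) (Ico i (i + (K + 1 : ℕ))))) = 1 := by
  have h1 := vdet_eq h.twisted friezeMatrix_bv i (fun t => i + ((t : ℕ) : ℤ)) ?_ ?_
  · have h2 : univ.image (fun t : Fin (K + 1) => i + ((t : ℕ) : ℤ)) = Ico i (i + (K + 1 : ℕ)) := by
      ext x
      simp only [mem_image, mem_univ, true_and, mem_Ico]
      constructor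
      · rintro ⟨t, rfl⟩
        have := t.2
        omega
      · rintro ⟨h1, h2⟩
        refine ⟨⟨(x - i).toNat, by omega⟩, ?_⟩
        simp only
        omega
    rw [h2] at h1
    rw [← h1, vdet, ← Matrix.det_transpose, ← h.minor_one 0 (i - 1)]
    congr 1
    ext a b
    simp only [Matrix.transpose_apply, Matrix.of_apply, bv]
    congr 1
    ring
  · intro s t hst
    simp only
    have : (s : ℕ) < t := hst
    omega
  · intro s
    have := s.2
    push_cast
    omega

theorem friezeMatrix_entry (h : IsTameFrieze (K + 1) w M) {i j : ℤ} (h1 : 0 ≤ j - i)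
    (h2 : j - i ≤ w - 1) :
    M i j = evalAt (friezeMatrix (K + 1) w M) (plucker (K + 1) (K + 1 + (w + 1))
      (residues (K + 1 + (w + 1)) (insert (j + 1) (Ioo (i - (K + 1 : ℕ)) i)))) := by
  rw [h.entry_vdet i j, vdet_eq h.twisted friezeMatrix_bv (i + 1)]
  · congr 2
    ext c
    simp only [mem_residues, mem_image, mem_univ, true_and, mem_insert, mem_Ioo,
      exists_exists_eq_and]
    constructor
    · rintro ⟨s, hs⟩
      revert hs
      refine Fin.cases ?_ (fun t => ?_) s
      · intro hs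
        rw [Fin.cons_zero] at hs
        exact ⟨j + 1, Or.inl rfl, hs⟩
      · intro hs
        rw [Fin.cons_succ] at hs
        have ht := t.2
        refine ⟨i - (K + 1 : ℕ) + 1 + ((t : ℕ) : ℤ), Or.inr ⟨by push_cast; omega, by push_cast; omega⟩, ?_⟩
        have h3 : i + (w + 2 : ℕ) + ((t : ℕ) : ℤ) - ((c : ℕ) : ℤ) =
            (i - (K + 1 : ℕ) + 1 + ((t : ℕ) : ℤ) - ((c : ℕ) : ℤ)) + (K + 1 + (w + 1) : ℕ) := by
          push_cast; ring
        rw [h3] at hs
        exact (dvd_add_left (dvd_refl _)).1 hs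
    · rintro ⟨x, hx | ⟨hx1, hx2⟩, hxc⟩
      · exact ⟨0, by rw [Fin.cons_zero, ← hx]; exact hxc⟩
      · push_cast at hx1
        refine ⟨(⟨(x - (i - (K + 1 : ℕ)) - 1).toNat, by push_cast; omega⟩ : Fin K).succ, ?_⟩
        rw [Fin.cons_succ]
        have h3 : i + (w + 2 : ℕ) + (((x - (i - (K + 1 : ℕ)) - 1).toNat : ℕ) : ℤ) - ((c : ℕ) : ℤ) =
            (x - ((c : ℕ) : ℤ)) + (K + 1 + (w + 1) : ℕ) := by
          push_cast
          omega
        simp only
        rw [h3]
        exact (dvd_add_left (dvd_refl _)).2 hxc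
  · intro s t hst
    revert hst
    refine Fin.cases ?_ (fun s' => ?_) s <;> refine Fin.cases ?_ (fun t' => ?_) t
    · intro hst; exact absurd hst (lt_irrefl _)
    · intro _
      rw [Fin.cons_zero, Fin.cons_succ]
      push_cast
      omega
    · intro hst; exact absurd hst (by simp)
    · intro hst
      rw [Fin.cons_succ, Fin.cons_succ]
      have : (s' : ℕ) < t' := by simpa using hst
      omega
  · intro s
    refine Fin.cases ?_ (fun s' => ?_) s
    · rw [Fin.cons_zero]
      push_cast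
      omega
    · rw [Fin.cons_succ]
      have := s'.2
      push_cast
      omega

end Pool.Agent.H489R3
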