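import Mathlib
import Pool.Agent.H489R3.FriezeRep

set_option autoImplicit false
set_option linter.unusedSectionVars false

/-!
# Every matrix representing an integer frieze is equivalent to an integer matrix
-/

namespace Pool.Agent.H489R3

open Finset

theorem residues_insert_shift (n : ℕ) (x : ℤ) (S : Finset ℤ) :
    residues n (insert (x + n) S) = residues n (insert x S) := by
  ext c
  simp only [mem_residues, mem_insert, exists_eq_or_imp]
  refine or_congr ?_ Iff.rfl
  have : x + n - ((c : ℕ) : ℤ) = (x - ((c : ℕ) : ℤ)) + n := by ring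
  rw [this]
  exact dvd_add_left (dvd_refl _)

theorem int_rep {K w : ℕ} {M : ℤ → ℤ → ℚ}
    (hint : ∀ i j : ℤ, 0 ≤ j - i → j - i ≤ w - 1 → ∃ z : ℤ, M i j = z)
    {A : Matrix (Fin (K + 1)) (Fin (K + 1 + (w + 1))) ℚ} (hA : Represents (K + 1) w M A) :
    ∃ Φ : Matrix (Fin (K + 1)) (Fin (K + 1)) ℚ, Φ.det = 1 ∧
      ∃ Z : Matrix (Fin (K + 1)) (Fin (K + 1 + (w + 1))) ℤ, ∀ i j, (Φ * A) i j = (Z i j : ℚ) := by
  refine exists_int_rep (by omega) hA.cyclic ?_
  intro s x h1 h2
  push_cast at h1 h2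
  obtain ⟨p, hp | hp⟩ := hA.entry
  · obtain ⟨z, hz⟩ := hint (s + (K + 1) - p) (x - 1 - p) (by omega) (by omega)
    refine ⟨z, ?_⟩
    rw [← hz, hp _ _ (by omega) (by omega), pl]
    have e1 : p + (x - 1 - p) + 1 = x := by ring
    have e2 : p + (s + (K + 1) - p) - ((K + 1 : ℕ) : ℤ) = s := by push_cast; ring
    have e3 : p + (s + (K + 1) - p) = s + ((K + 1 : ℕ) : ℤ) := by push_cast; ring
    rw [e1, e2, e3]
  · obtain ⟨z, hz⟩ := hint (x - (K + 1 + (w + 1)) - p) (s - 1 - p) (by omega) (by omega)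
    refine ⟨z, ?_⟩
    rw [← hz, hp _ _ (by omega) (by omega), pl]
    have e1 : p + (s - 1 - p) + 1 = s := by ring
    have e2 : x = p + (x - (K + 1 + (w + 1)) - p) + ((K + 1 + (w + 1) : ℕ) : ℤ) := by
      push_cast; ring
    rw [e1, ← residues_insert_shift _ (p + (x - (K + 1 + (w + 1)) - p)), ← e2]

end Pool.Agent.H489R3
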